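import Pool.Agent.Lib.MP_05cdf2_gt.L.HCoh
import Pool.Agent.Lib.MP_05cdf2_gt.L.Conn

/-!
# Cochains and the slab numbers

`CC g`: additive functions on pairs of points, invariant under the points of level zero, zero on boundary chords.
`ZZ A B`: the cochains which vanish on the pairs related below `A` and on the pairs related above `B`.
`MM A B`: the span of the level jumps `ee j`, `A.J < j ≤ B.J`.
`SS A B = ZZ A A ⊔ ZZ B B ⊔ MM A B`.
`dn A B = dim ZZ + dim SS - 2 (B.J - A.J) - 2 card (fr B)`, `nu` = the ceiling of `dn / 2`.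
-/

namespace TorN

open TorM TorG TorL

variable {g : ℕ} [NeZero g]

/-- the cochains -/
def CC (g : ℕ) [NeZero g] : Submodule ℚ (F g → F g → ℚ) where
  carrier := {c | (∀ x y z, c x y + c y z = c x z) ∧ (∀ k, ph k = 0 → ∀ x y, c (k * x) (k * y) = c x y) ∧
    ∀ x, c x (x * zeta g) = 0}
  add_mem' {a b} ha hb := by
    refine ⟨fun x y z => ?_, fun k hk x y => ?_, fun x => ?_⟩
    · simp only [Pi.add_apply]
      rw [← ha.1 x y z, ← hb.1 x y z]
      ring
    · simp only [Pi.add_apply]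
      rw [ha.2.1 k hk, hb.2.1 k hk]
    · simp only [Pi.add_apply]
      rw [ha.2.2, hb.2.2, add_zero]
  zero_mem' := ⟨fun _ _ _ => by simp, fun _ _ _ _ => rfl, fun _ => rfl⟩
  smul_mem' r {a} ha := by
    refine ⟨fun x y z => ?_, fun k hk x y => ?_, fun x => ?_⟩
    · simp only [Pi.smul_apply, smul_eq_mul]
      rw [← ha.1 x y z]
      ring
    · simp only [Pi.smul_apply]
      rw [ha.2.1 k hk]
    · simp only [Pi.smul_apply]
      rw [ha.2.2, smul_zero]

theorem mem_CC {c : F g → F g → ℚ} : c ∈ CC g ↔ (∀ x y z, c x y + c y z = c x z) ∧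
    (∀ k, ph k = 0 → ∀ x y, c (k * x) (k * y) = c x y) ∧ ∀ x, c x (x * zeta g) = 0 := Iff.rfl

theorem cc_add {c : F g → F g → ℚ} (hc : c ∈ CC g) (x y z : F g) : c x y + c y z = c x z := hc.1 x y z

theorem cc_K {c : F g → F g → ℚ} (hc : c ∈ CC g) {k : F g} (hk : ph k = 0) (x y : F g) :
    c (k * x) (k * y) = c x y := hc.2.1 k hk x y

theorem cc_zeta {c : F g → F g → ℚ} (hc : c ∈ CC g) (x : F g) : c x (x * zeta g) = 0 := hc.2.2 x

theorem cc_self {c : F g → F g → ℚ} (hc : c ∈ CC g) (x : F g) : c x x = 0 := by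
  have := cc_add hc x x x
  linarith

theorem cc_symm {c : F g → F g → ℚ} (hc : c ∈ CC g) (x y : F g) : c y x = - c x y := by
  have h1 := cc_add hc x y x
  have h2 := cc_self hc x
  linarith

theorem cc_pot {c : F g → F g → ℚ} (hc : c ∈ CC g) (x y : F g) : c x y = c 1 y - c 1 x := by
  have h1 := cc_add hc 1 x y
  linarith

/-- the period of a cochain along an element of level zero does not depend on the starting point -/
theorem cc_per {c : F g → F g → ℚ} (hc : c ∈ CC g) {k : F g} (hk : ph k = 0) (x y : F g) :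
    c x (k * x) = c y (k * y) := by
  have h1 := cc_add hc x y (k * y)
  have h2 := cc_add hc x (k * x) (k * y)
  have h3 := cc_K hc hk x y
  linarith

/-- cochains of a slab -/
def ZZ (A B : Hf g) : Submodule ℚ (F g → F g → ℚ) where
  carrier := {c | c ∈ CC g ∧ (∀ x y, x ∈ A.E.P → A.E.S x y → c x y = 0) ∧
    ∀ x y, x ∉ B.E.P → B.E.S x y → c x y = 0}
  add_mem' {a b} ha hb := by
    refine ⟨add_mem ha.1 hb.1, fun x y hx hxy => ?_, fun x y hx hxy => ?_⟩
    · simp only [Pi.add_apply]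
      rw [ha.2.1 x y hx hxy, hb.2.1 x y hx hxy, add_zero]
    · simp only [Pi.add_apply]
      rw [ha.2.2 x y hx hxy, hb.2.2 x y hx hxy, add_zero]
  zero_mem' := ⟨zero_mem _, fun _ _ _ _ => rfl, fun _ _ _ _ => rfl⟩
  smul_mem' r {a} ha := by
    refine ⟨Submodule.smul_mem _ r ha.1, fun x y hx hxy => ?_, fun x y hx hxy => ?_⟩
    · simp only [Pi.smul_apply]
      rw [ha.2.1 x y hx hxy, smul_zero]
    · simp only [Pi.smul_apply]
      rw [ha.2.2 x y hx hxy, smul_zero]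

theorem mem_ZZ {A B : Hf g} {c : F g → F g → ℚ} : c ∈ ZZ A B ↔ c ∈ CC g ∧
    (∀ x y, x ∈ A.E.P → A.E.S x y → c x y = 0) ∧ ∀ x y, x ∉ B.E.P → B.E.S x y → c x y = 0 := Iff.rfl

theorem ZZ_le_CC (A B : Hf g) : ZZ A B ≤ CC g := fun _ h => h.1

theorem ZZ_mono {A A' B B' : Hf g} (hA : A ≤ A') (hB : B' ≤ B) : ZZ A' B' ≤ ZZ A B := by
  rintro c ⟨h1, h2, h3⟩
  refine ⟨h1, fun x y hx hxy => h2 x y (hA.1 hx) (hA.2 x y hx hxy), fun x y hx hxy => ?_⟩
  exact h3 x y (fun h => hx (hB.1 h)) (S_of_le' hB hx hxy)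

/-- the cochains of one region -/
theorem mem_ZE {E : Hf g} {c : F g → F g → ℚ} : c ∈ ZZ E E ↔ c ∈ CC g ∧ ∀ x y, E.E.S x y → c x y = 0 := by
  constructor
  · rintro ⟨h1, h2, h3⟩
    refine ⟨h1, fun x y hxy => ?_⟩
    by_cases hx : x ∈ E.E.P
    · exact h2 x y hx hxy
    · exact h3 x y hx hxy
  · rintro ⟨h1, h2⟩
    exact ⟨h1, fun x y _ hxy => h2 x y hxy, fun x y _ hxy => h2 x y hxy⟩

theorem ZE_le_left {A E B : Hf g} (h1 : A ≤ E) (h2 : E ≤ B) : ZZ E E ≤ ZZ A B := ZZ_mono h1 h2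

/-- the intersection of the cochains of the two halves of a slab -/
theorem ZZ_inf {A E B : Hf g} (h1 : A ≤ E) (h2 : E ≤ B) : ZZ A E ⊓ ZZ E B = ZZ E E := by
  refine le_antisymm ?_ (le_inf (ZZ_mono h1 le_rfl) (ZZ_mono le_rfl h2))
  rintro c ⟨hc, hc'⟩
  exact ⟨hc.1, hc'.2.1, hc.2.2⟩

open Classical in
/-- the jump at a level -/
noncomputable def ee (j : ℤ) (x y : F g) : ℚ := (if ph y = j then 1 else 0) - (if ph x = j then 1 else 0)

theorem ee_mem (j : ℤ) : ee (g := g) j ∈ CC g := by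
  refine ⟨fun x y z => ?_, fun k hk x y => ?_, fun x => ?_⟩
  · unfold ee
    ring
  · unfold ee
    rw [ph_mul, ph_mul, hk, zero_add, zero_add]
  · unfold ee
    rw [ph_mul, ph_zeta, add_zero, sub_self]

theorem ee_zero {j : ℤ} {x y : F g} (hx : ph x ≠ j) (hy : ph y ≠ j) : ee j x y = 0 := by
  unfold ee
  rw [if_neg hx, if_neg hy, sub_zero]

theorem ee_mem_ZZ {A B : Hf g} {j : ℤ} (h1 : A.J < j) (h2 : j ≤ B.J) : ee j ∈ ZZ A B := by
  refine ⟨ee_mem j, fun x y hx hxy => ?_, fun x y hx hxy => ?_⟩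
  · have hy := (A.E.col hxy).1 hx
    rw [A.lev] at hx hy
    exact ee_zero (by omega) (by omega)
  · have hy : y ∉ B.E.P := fun h => hx ((B.E.col hxy).2 h)
    rw [B.lev] at hx hy
    exact ee_zero (by omega) (by omega)

/-- the span of the level jumps -/
def MM (A B : Hf g) : Submodule ℚ (F g → F g → ℚ) := Submodule.span ℚ {c | ∃ j, A.J < j ∧ j ≤ B.J ∧ c = ee j}

theorem MM_le_ZZ (A B : Hf g) : MM A B ≤ ZZ A B := by
  refine Submodule.span_le.2 ?_
  rintro c ⟨j, h1, h2, rfl⟩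
  exact ee_mem_ZZ h1 h2

/-- the trivial cochains of a slab -/
def SS (A B : Hf g) : Submodule ℚ (F g → F g → ℚ) := ZZ A A ⊔ ZZ B B ⊔ MM A B

theorem SS_le_ZZ {A B : Hf g} (h : A ≤ B) : SS A B ≤ ZZ A B :=
  sup_le (sup_le (ZZ_mono le_rfl h) (ZZ_mono h le_rfl)) (MM_le_ZZ A B)

/-- four times the genus number of a slab -/
noncomputable def dn (A B : Hf g) : ℤ :=
  (Module.finrank ℚ (ZZ A B) : ℤ) + Module.finrank ℚ (SS A B) - 2 * (B.J - A.J) - 2 * (fr B).card

/-- the number of a slab -/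
noncomputable def nu (A B : Hf g) : ℤ := -(-(dn A B) / 2)

/-- the count of a cut as a cochain -/
noncomputable def cq (D : Set (F g)) (x y : F g) : ℚ := (cnt D x y : ℚ)

/-- a cut crosses no boundary chord -/
theorem cnt_zeta {D : Set (F g)} (hD : KCut D) (x : F g) : cnt D x (x * zeta g) = 0 := by
  refine ws_zero _ ?_
  rintro _ ⟨k, hk, rfl⟩
  exact ((hD.tr k).zeta x).symm

theorem orbK_tr {D : Set (F g)} {k : F g} (hk : ph k = 0) : orbK (tr k D) = orbK D :=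
  orbK_eq_of_mem ⟨k, hk, rfl⟩

theorem cq_mem {D : Set (F g)} (hD : KCut D) : cq D ∈ CC g := by
  refine ⟨fun x y z => ?_, fun k hk x y => ?_, fun x => ?_⟩
  · unfold cq cnt
    exact_mod_cast ws_add hD.orb_lf _ x y z
  · unfold cq
    have h1 := cnt_tr k D (k * x) (k * y)
    rw [inv_mul_cancel_left, inv_mul_cancel_left] at h1
    rw [← h1]
    unfold cnt
    rw [orbK_tr hk]
  · unfold cq
    rw [cnt_zeta hD, Int.cast_zero]

theorem cq_mem_ZE {E : Hf g} {D : Set (F g)} (hD : Sat E.E D) : cq D ∈ ZZ E E := by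
  refine mem_ZE.2 ⟨cq_mem (E.kg.kcut hD), fun x y hxy => ?_⟩
  unfold cq cnt
  rw [ws_zero, Int.cast_zero]
  rintro _ ⟨k, hk, rfl⟩
  exact ((E.kg.sat_tr hk).2 hD).sat x y hxy

/-- translates of a cochain -/
def shC (h : F g) : (F g → F g → ℚ) ≃ₗ[ℚ] (F g → F g → ℚ) where
  toFun c x y := c (h⁻¹ * x) (h⁻¹ * y)
  invFun c x y := c (h * x) (h * y)
  left_inv c := by
    funext x y
    show c (h⁻¹ * (h * x)) (h⁻¹ * (h * y)) = c x y
    rw [inv_mul_cancel_left, inv_mul_cancel_left]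
  right_inv c := by
    funext x y
    show c (h * (h⁻¹ * x)) (h * (h⁻¹ * y)) = c x y
    rw [mul_inv_cancel_left, mul_inv_cancel_left]
  map_add' _ _ := rfl
  map_smul' _ _ := rfl

theorem shC_apply (h : F g) (c : F g → F g → ℚ) (x y : F g) : shC h c x y = c (h⁻¹ * x) (h⁻¹ * y) := rfl

theorem shC_inv (h : F g) (c : F g → F g → ℚ) : shC h⁻¹ (shC h c) = c := by
  funext x y
  rw [shC_apply, shC_apply, _root_.inv_inv, inv_mul_cancel_left, inv_mul_cancel_left]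

theorem shC_inv' (h : F g) (c : F g → F g → ℚ) : shC h (shC h⁻¹ c) = c := by
  funext x y
  rw [shC_apply, shC_apply, _root_.inv_inv, mul_inv_cancel_left, mul_inv_cancel_left]

theorem shC_mem_CC (h : F g) {c : F g → F g → ℚ} (hc : c ∈ CC g) : shC h c ∈ CC g := by
  refine ⟨fun x y z => cc_add hc _ _ _, fun k hk x y => ?_, fun x => ?_⟩
  · rw [shC_apply, shC_apply]
    have e : ∀ x : F g, h⁻¹ * (k * x) = (h⁻¹ * k * h) * (h⁻¹ * x) := fun x => by group
    rw [e, e, cc_K hc]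
    simp [hk]
  · rw [shC_apply, ← mul_assoc]
    exact cc_zeta hc _

theorem act_P {h : F g} {A : Hf g} {x : F g} : x ∈ (A.act h).E.P ↔ h⁻¹ * x ∈ A.E.P := Iff.rfl

theorem act_S {h : F g} {A : Hf g} {x y : F g} : (A.act h).E.S x y ↔ A.E.S (h⁻¹ * x) (h⁻¹ * y) := Iff.rfl

theorem shC_mem_ZZ (h : F g) {A B : Hf g} {c : F g → F g → ℚ} (hc : c ∈ ZZ A B) :
    shC h c ∈ ZZ (A.act h) (B.act h) :=
  ⟨shC_mem_CC h hc.1, fun _ _ hx hxy => hc.2.1 _ _ (act_P.1 hx) (act_S.1 hxy),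
    fun _ _ hx hxy => hc.2.2 _ _ (fun h' => hx (act_P.2 h')) (act_S.1 hxy)⟩

theorem map_shC_ZZ (h : F g) (A B : Hf g) :
    (ZZ A B).map ((shC h : _ ≃ₗ[ℚ] _) : (F g → F g → ℚ) →ₗ[ℚ] (F g → F g → ℚ)) = ZZ (A.act h) (B.act h) := by
  ext c
  constructor
  · rintro ⟨c, hc, rfl⟩
    exact shC_mem_ZZ h hc
  · intro hc
    refine ⟨shC h⁻¹ c, ?_, shC_inv' h c⟩
    have h1 := shC_mem_ZZ h⁻¹ hc
    rw [← Hf.act_mul, ← Hf.act_mul, inv_mul_cancel, Hf.act_one, Hf.act_one] at h1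
    exact h1

theorem shC_ee (h : F g) (j : ℤ) : shC h (ee j) = ee (j + ph h) := by
  funext x y
  rw [shC_apply]
  unfold ee
  rw [ph_mul, ph_mul, ph_inv]
  congr 1 <;> refine if_congr ?_ rfl rfl <;> constructor <;> intro <;> omega

theorem map_shC_MM (h : F g) (A B : Hf g) :
    (MM A B).map ((shC h : _ ≃ₗ[ℚ] _) : (F g → F g → ℚ) →ₗ[ℚ] (F g → F g → ℚ)) = MM (A.act h) (B.act h) := by
  unfold MM
  rw [Submodule.map_span]
  congr 1
  ext c
  constructor
  · rintro ⟨_, ⟨j, h1, h2, rfl⟩, rfl⟩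
    refine ⟨j + ph h, ?_, ?_, shC_ee h j⟩
    · rw [Hf.act_J]
      omega
    · rw [Hf.act_J]
      omega
  · rintro ⟨j, h1, h2, rfl⟩
    rw [Hf.act_J] at h1 h2
    refine ⟨ee (j - ph h), ⟨j - ph h, by omega, by omega, rfl⟩, ?_⟩
    show shC h (ee (j - ph h)) = ee j
    rw [shC_ee, sub_add_cancel]

theorem map_shC_SS (h : F g) (A B : Hf g) :
    (SS A B).map ((shC h : _ ≃ₗ[ℚ] _) : (F g → F g → ℚ) →ₗ[ℚ] (F g → F g → ℚ)) = SS (A.act h) (B.act h) := by
  unfold SS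
  rw [Submodule.map_sup, Submodule.map_sup, map_shC_ZZ, map_shC_ZZ, map_shC_MM]

theorem card_fr_act (h : F g) (A : Hf g) : (fr (A.act h)).card = (fr A).card := by
  symm
  refine Finset.card_bij (fun c _ => cact h c) (fun c hc => (cact_mem_fr h).2 hc)
    (fun a _ b _ hab => (cact h).injective hab) fun c hc => ?_
  refine ⟨(cact h).symm c, ?_, Equiv.apply_symm_apply _ _⟩
  have h1 := cact_mem_fr h (X := A) (c := (cact h).symm c)
  rw [Equiv.apply_symm_apply] at h1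
  exact h1.1 hc

theorem finrank_map_shC (h : F g) (W : Submodule ℚ (F g → F g → ℚ)) :
    Module.finrank ℚ (W.map ((shC h : _ ≃ₗ[ℚ] _) : (F g → F g → ℚ) →ₗ[ℚ] (F g → F g → ℚ))) =
      Module.finrank ℚ W :=
  LinearEquiv.finrank_map_eq (shC h) W

/-- the slab numbers are shift invariant -/
theorem dn_act (h : F g) (A B : Hf g) : dn (A.act h) (B.act h) = dn A B := by
  unfold dn
  rw [← map_shC_ZZ, ← map_shC_SS, finrank_map_shC, finrank_map_shC, card_fr_act, Hf.act_J, Hf.act_J]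
  ring

theorem nu_act (h : F g) (A B : Hf g) : nu (A.act h) (B.act h) = nu A B := by
  unfold nu
  rw [dn_act]

theorem MM_self (A : Hf g) : MM A A = ⊥ := by
  unfold MM
  rw [Submodule.span_eq_bot]
  rintro c ⟨j, h1, h2, rfl⟩
  omega

theorem SS_self (A : Hf g) : SS A A = ZZ A A := by
  unfold SS
  rw [MM_self, sup_idem, sup_bot_eq]

end TorN
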