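import Mathlib
import Pool.Agent.Lib.MP_05cdf2_gt.N6.NDef
import Pool.Agent.Lib.MP_05cdf2_gt.L6.MV

/-! MP_05cdf2_gt, stream N, (BL), (MV1) and (C1) (helper49).

`jE E : ZZ E E ≃ (fr E → ℚ)`: the jumps; `finrank_ZE`. `mv1'`: a cochain of the slab `A B` whose periods along the curves
of `E` vanish is in `ZZ A E ⊔ ZZ E B`. `KJ A B`: the pairs `(f, f')`, `f ∈ ZZ A A`, `f' ∈ ZZ B B`, `f - f' ∈ MM A B`;
`finrank_KJ`: `dim KJ + dim SS = w A + w B + dJ`. `kk_lower`: `dim KJ ≥ κ + 1` for `A < B`, `kk_lower2`: `≥ κ + 2` if there is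
a nontrivial union of components; `kk_upper`: `≤ κ + 1` if all jumps in a slab with a bottom are equal. -/

set_option autoImplicit false
set_option linter.unusedSectionVars false

namespace TorN
open TorM TorG TorL

variable {g : ℕ} [NeZero g]

theorem isC {c : F g → F g → ℚ} (h : c ∈ CC g) : IsC c := ⟨h.1, h.2.1⟩

theorem cqc_eq (c : Cv g) : cqc c = cq (rD c) := rfl

theorem cqc_mem {E : Hf g} {c : Cv g} (hc : c ∈ fr E) : cqc c ∈ ZZ E E := cq_mem_ZE (ln_rD.2 hc).1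

theorem expand {E : Hf g} {f : F g → F g → ℚ} (hf : f ∈ ZZ E E) (x y : F g) :
    f x y = ∑ c ∈ fr E, f (kk E c) (ll E c) * cqc c x y := by
  rw [mem_ZE] at hf
  exact ze_expand (isC hf.1) hf.2 x y

/-- a cochain is determined by its jumps -/
theorem zero_of_jumps {E : Hf g} {f : F g → F g → ℚ} (hf : f ∈ ZZ E E)
    (h : ∀ c ∈ fr E, f (kk E c) (ll E c) = 0) : f = 0 := by
  funext x y
  rw [expand hf]
  exact Finset.sum_eq_zero fun c hc => by rw [h c hc, zero_mul]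

/-- the cochain with given jumps -/
noncomputable def ofJ (E : Hf g) (v : Cv g → ℚ) (x y : F g) : ℚ := ∑ c ∈ fr E, v c * cqc c x y

theorem ofJ_eq (E : Hf g) (v : Cv g → ℚ) : ofJ E v = ∑ c ∈ fr E, v c • cqc c := by
  funext x y
  unfold ofJ
  rw [Finset.sum_apply, Finset.sum_apply]
  rfl

theorem ofJ_mem (E : Hf g) (v : Cv g → ℚ) : ofJ E v ∈ ZZ E E := by
  rw [ofJ_eq]
  exact Submodule.sum_mem _ fun c hc => Submodule.smul_mem _ _ (cqc_mem hc)

theorem ofJ_kl (E : Hf g) (v : Cv g → ℚ) {c : Cv g} (hc : c ∈ fr E) : ofJ E v (kk E c) (ll E c) = v c := by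
  classical
  unfold ofJ
  rw [Finset.sum_eq_single c]
  · rw [cqc_kl hc hc, if_pos rfl, mul_one]
  · intro c' hc' hne
    rw [cqc_kl hc hc', if_neg hne.symm, mul_zero]
  · intro h
    exact absurd hc h

open Classical in
/-- the jumps of a cochain -/
noncomputable def jE (E : Hf g) : ZZ E E ≃ₗ[ℚ] ({c // c ∈ fr E} → ℚ) where
  toFun f c := (f : F g → F g → ℚ) (kk E c.1) (ll E c.1)
  invFun v := ⟨ofJ E fun c => if h : c ∈ fr E then v ⟨c, h⟩ else 0, ofJ_mem E _⟩
  left_inv f := by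
    apply Subtype.ext
    funext x y
    show ofJ E _ x y = (f : F g → F g → ℚ) x y
    rw [expand f.2]
    unfold ofJ
    refine Finset.sum_congr rfl fun c hc => ?_
    simp only [dif_pos hc]
  right_inv v := by
    funext c
    show ofJ E _ (kk E c.1) (ll E c.1) = v c
    rw [ofJ_kl _ _ c.2, dif_pos c.2]
  map_add' _ _ := rfl
  map_smul' _ _ := rfl

instance finite_ZE (E : Hf g) : Module.Finite ℚ (ZZ E E) := Module.Finite.equiv (jE E).symm

theorem finrank_ZE (E : Hf g) : Module.finrank ℚ (ZZ E E) = (fr E).card := by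
  rw [(jE E).finrank_eq, Module.finrank_pi, Fintype.card_coe]

/-- **(MV1)** -/
theorem mv1' {A E B : Hf g} (h1 : A ≤ E) (h2 : E ≤ B) {f : F g → F g → ℚ} (hf : f ∈ ZZ A B)
    (hp : ∀ c ∈ fr E, f 1 (gn (rD c)) = 0) : f ∈ ZZ A E ⊔ ZZ E B := by
  obtain ⟨f1, f2, c1, c2, z1, z2, e, a1, a2, b1, b2⟩ := mv1 h1 h2 (isC hf.1) hf.1.2.2
    (fun x y hxy hx => hf.2.1 x y hx hxy) (fun x y hxy hx => hf.2.2 x y hx hxy) hp
  have e' : f = f1 + f2 := by
    funext x y
    exact e x y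
  rw [e']
  refine Submodule.add_mem_sup ⟨⟨c1.add, c1.inv, z1⟩, fun x y hx hxy => a1 x y hxy hx,
    fun x y hx hxy => a2 x y hxy hx⟩ ⟨⟨c2.add, c2.inv, z2⟩, fun x y hx hxy => b1 x y hxy hx,
    fun x y hx hxy => b2 x y hxy hx⟩

/-- elements of `MM A B` vanish on pairs of low or high levels -/
theorem mm_zero {A B : Hf g} {m : F g → F g → ℚ} (hm : m ∈ MM A B) {x y : F g}
    (hx : ph x ≤ A.J ∨ B.J < ph x) (hy : ph y ≤ A.J ∨ B.J < ph y) : m x y = 0 := by
  unfold MM at hm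
  induction hm using Submodule.span_induction with
  | mem c hc =>
    obtain ⟨j, h1, h2, rfl⟩ := hc
    exact ee_zero (by omega) (by omega)
  | zero => rfl
  | add a b _ _ ha hb => rw [Pi.add_apply, Pi.add_apply, ha, hb, add_zero]
  | smul r a _ ha => rw [Pi.smul_apply, Pi.smul_apply, ha, smul_zero]

theorem MM_mono {A A' B B' : Hf g} (h1 : A.J ≤ A'.J) (h2 : B'.J ≤ B.J) : MM A' B' ≤ MM A B := by
  unfold MM
  refine Submodule.span_mono ?_
  rintro c ⟨j, h3, h4, rfl⟩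
  exact ⟨j, by omega, by omega, rfl⟩

/-- coordinates on `MM A B` -/
theorem mm_indep (A B : Hf g) : LinearIndependent ℚ (fun j : {j // j ∈ Finset.Ioc A.J B.J} => ee (g := g) j.1) := by
  rw [linearIndependent_iff']
  intro s v hv i hi
  have h := congrFun (congrFun hv (t0 ^ A.J)) (t0 ^ i.1)
  rw [Finset.sum_apply, Finset.sum_apply, Finset.sum_eq_single i] at h
  · have h1 : ee (g := g) i.1 (t0 ^ A.J) (t0 ^ i.1) = 1 := by
      have h2 := i.2
      rw [Finset.mem_Ioc] at h2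
      unfold ee
      rw [ph_zpow, ph_zpow, ph_t0, if_pos (by omega), if_neg (by omega), sub_zero]
    rw [Pi.smul_apply, Pi.smul_apply, h1, smul_eq_mul, mul_one] at h
    exact h
  · intro j hj hne
    have h2 := j.2
    have h3 := i.2
    rw [Finset.mem_Ioc] at h2 h3
    rw [Pi.smul_apply, Pi.smul_apply, ee_zero, smul_zero]
    · rw [ph_zpow, ph_t0]
      omega
    · rw [ph_zpow, ph_t0]
      intro h4
      apply hne
      apply Subtype.ext
      omega
  · intro h1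
    exact absurd hi h1

theorem MM_eq (A B : Hf g) :
    MM A B = Submodule.span ℚ (Set.range fun j : {j // j ∈ Finset.Ioc A.J B.J} => ee (g := g) j.1) := by
  unfold MM
  congr 1
  ext c
  constructor
  · rintro ⟨j, h1, h2, rfl⟩
    exact ⟨⟨j, Finset.mem_Ioc.2 ⟨h1, h2⟩⟩, rfl⟩
  · rintro ⟨⟨j, hj⟩, rfl⟩
    rw [Finset.mem_Ioc] at hj
    exact ⟨j, hj.1, hj.2, rfl⟩

instance finite_MM (A B : Hf g) : Module.Finite ℚ (MM A B) := by
  rw [MM_eq]
  exact Module.Finite.span_of_finite ℚ (Set.finite_range _)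

theorem finrank_MM {A B : Hf g} (h : A.J ≤ B.J) : (Module.finrank ℚ (MM A B) : ℤ) = B.J - A.J := by
  rw [MM_eq, finrank_span_eq_card (mm_indep A B), Fintype.card_coe, Int.card_Ioc]
  omega

instance finite_SS (A B : Hf g) : Module.Finite ℚ (SS A B) := by
  unfold SS
  infer_instance

/-- pairs of cochains of `A` and `B` with the same jumps -/
def KJ (A B : Hf g) : Submodule ℚ (ZZ A A × ZZ B B) where
  carrier := {p | (p.1 : F g → F g → ℚ) - (p.2 : F g → F g → ℚ) ∈ MM A B}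
  add_mem' {p q} hp hq := by
    have h := add_mem (show (p.1 : F g → F g → ℚ) - (p.2 : F g → F g → ℚ) ∈ MM A B from hp)
      (show (q.1 : F g → F g → ℚ) - (q.2 : F g → F g → ℚ) ∈ MM A B from hq)
    show ((p.1 : F g → F g → ℚ) + (q.1 : F g → F g → ℚ)) - ((p.2 : F g → F g → ℚ) + (q.2 : F g → F g → ℚ)) ∈ MM A B
    rw [add_sub_add_comm]
    exact h
  zero_mem' := by
    show (0 : F g → F g → ℚ) - 0 ∈ MM A B
    rw [sub_zero]
    exact zero_mem _
  smul_mem' r p hp := by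
    have h := Submodule.smul_mem (MM A B) r (show (p.1 : F g → F g → ℚ) - (p.2 : F g → F g → ℚ) ∈ MM A B from hp)
    show r • (p.1 : F g → F g → ℚ) - r • (p.2 : F g → F g → ℚ) ∈ MM A B
    rw [← smul_sub]
    exact h

theorem mem_KJ {A B : Hf g} {p : ZZ A A × ZZ B B} :
    p ∈ KJ A B ↔ (p.1 : F g → F g → ℚ) - (p.2 : F g → F g → ℚ) ∈ MM A B := Iff.rfl

/-- the sum map -/
noncomputable def sumM (A B : Hf g) : (ZZ A A × ZZ B B) × MM A B →ₗ[ℚ] (F g → F g → ℚ) :=
  ((ZZ A A).subtype.coprod (ZZ B B).subtype).coprod (MM A B).subtype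

theorem sumM_apply (A B : Hf g) (p : (ZZ A A × ZZ B B) × MM A B) :
    sumM A B p = (p.1.1 : F g → F g → ℚ) + (p.1.2 : F g → F g → ℚ) + (p.2 : F g → F g → ℚ) := rfl

theorem range_sumM (A B : Hf g) : LinearMap.range (sumM A B) = SS A B := by
  unfold sumM SS
  rw [LinearMap.range_coprod, LinearMap.range_coprod, Submodule.range_subtype, Submodule.range_subtype,
    Submodule.range_subtype]

/-- the kernel of the sum map -/
noncomputable def kerE (A B : Hf g) : KJ A B ≃ₗ[ℚ] LinearMap.ker (sumM A B) where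
  toFun p := ⟨((p.1.1, -p.1.2), -⟨_, mem_KJ.1 p.2⟩), by
    rw [LinearMap.mem_ker, sumM_apply]
    show (p.1.1 : F g → F g → ℚ) + -(p.1.2 : F g → F g → ℚ) + -((p.1.1 : F g → F g → ℚ) - (p.1.2 : F g → F g → ℚ)) = 0
    abel⟩
  invFun q := ⟨(q.1.1.1, -q.1.1.2), by
    have h := q.2
    rw [LinearMap.mem_ker, sumM_apply] at h
    rw [mem_KJ]
    show (q.1.1.1 : F g → F g → ℚ) - -(q.1.1.2 : F g → F g → ℚ) ∈ MM A B
    have e : (q.1.1.1 : F g → F g → ℚ) - -(q.1.1.2 : F g → F g → ℚ) = -(q.1.2 : F g → F g → ℚ) := by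
      rw [sub_neg_eq_add]
      exact eq_neg_of_add_eq_zero_left h
    rw [e]
    exact neg_mem q.1.2.2⟩
  left_inv p := by
    apply Subtype.ext
    show ((p.1.1, - - p.1.2) : ZZ A A × ZZ B B) = p.1
    rw [neg_neg]
  right_inv q := by
    apply Subtype.ext
    have h := q.2
    rw [LinearMap.mem_ker, sumM_apply] at h
    refine Prod.ext (Prod.ext rfl (neg_neg _)) ?_
    apply Subtype.ext
    show -((q.1.1.1 : F g → F g → ℚ) - -(q.1.1.2 : F g → F g → ℚ)) = (q.1.2 : F g → F g → ℚ)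
    rw [sub_neg_eq_add]
    exact (neg_eq_of_add_eq_zero_right h)
  map_add' p q := by
    apply Subtype.ext
    refine Prod.ext (Prod.ext rfl ?_) ?_
    · show -(p.1.2 + q.1.2) = -p.1.2 + -q.1.2
      abel
    · apply Subtype.ext
      show -(((p.1.1 + q.1.1 : ZZ A A) : F g → F g → ℚ) - ((p.1.2 + q.1.2 : ZZ B B) : F g → F g → ℚ)) =
        -((p.1.1 : F g → F g → ℚ) - (p.1.2 : F g → F g → ℚ)) + -((q.1.1 : F g → F g → ℚ) - (q.1.2 : F g → F g → ℚ))
      rw [Submodule.coe_add, Submodule.coe_add]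
      abel
  map_smul' r p := by
    apply Subtype.ext
    refine Prod.ext (Prod.ext rfl ?_) ?_
    · show -(r • p.1.2) = r • (-p.1.2)
      rw [smul_neg]
    · apply Subtype.ext
      show -(((r • p.1.1 : ZZ A A) : F g → F g → ℚ) - ((r • p.1.2 : ZZ B B) : F g → F g → ℚ)) =
        r • -((p.1.1 : F g → F g → ℚ) - (p.1.2 : F g → F g → ℚ))
      rw [Submodule.coe_smul, Submodule.coe_smul, smul_neg, smul_sub]

theorem finrank_KJ {A B : Hf g} (h : A.J ≤ B.J) :
    (Module.finrank ℚ (KJ A B) : ℤ) + Module.finrank ℚ (SS A B) = (fr A).card + (fr B).card + (B.J - A.J) := by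
  have h1 := LinearMap.finrank_range_add_finrank_ker (sumM A B)
  rw [range_sumM, ← (kerE A B).finrank_eq, Module.finrank_prod, Module.finrank_prod, finrank_ZE, finrank_ZE] at h1
  have h2 := finrank_MM h
  omega

/-! (C1) -/

section
variable {A B : Hf g}

/-- the points adjacent to a common line -/
theorem common_adj (hAB : A ≤ B) {c : Cv g} (hA : c ∈ fr A) (hB : c ∈ fr B) :
    B.E.S (kk A c) (kk B c) ∧ A.E.S (ll A c) (ll B c) := by
  have h1 := kl_adj hA
  have h2 := kl_adj hB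
  have hw := (rD_k c).wcut
  have o1 : OrbS B.E (rD c) (kk A c) := (A.kg.orb_out (ln_rD.2 hA).1 h1).mono hAB (kk_mem hA)
  have o2 : OrbS B.E (rD c) (kk B c) := B.kg.orb_out (ln_rD.2 hB).1 h2
  have o3 : OrbS A.E (rD c) (ll A c) := A.kg.orb_inn (ln_rD.2 hA).1 h1
  have o4 : OrbS A.E (rD c) (ll B c) := by
    intro n
    exact S_of_le' hAB (ll_mem hB) (B.kg.orb_inn (ln_rD.2 hB).1 h2 n)
  exact ⟨o1.same hw o2 (iff_of_false h1.out h2.out), o3.same hw o4 (iff_of_true h1.inn h2.inn)⟩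

/-- the jump of a pair -/
theorem kk_jump {p : ZZ A A × ZZ B B} (hp : p ∈ KJ A B) {k k' l l' : F g} (hk : k ∈ A.E.P)
    (hkk : B.E.S k k') (hll : A.E.S l l') (hl' : l' ∉ B.E.P) :
    (p.1 : F g → F g → ℚ) k l = (p.2 : F g → F g → ℚ) k' l' := by
  have h1 := p.1.2
  have h2 := p.2.2
  rw [mem_ZE] at h1 h2
  have e1 := cc_add h1.1 k l l'
  rw [h1.2 l l' hll] at e1
  have e2 := cc_add h2.1 k k' l'
  rw [h2.2 k k' hkk] at e2
  have e3 := mm_zero (mem_KJ.1 hp) (x := k) (y := l') (Or.inl ((A.lev k).1 hk)) (Or.inr (by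
    rw [B.lev] at hl'
    omega))
  rw [Pi.sub_apply, Pi.sub_apply] at e3
  linarith

/-- the element of a common curve -/
noncomputable def uc (c : Cv g) (hA : c ∈ fr A) (hB : c ∈ fr B) : ZZ A A × ZZ B B :=
  (⟨cqc c, cqc_mem hA⟩, ⟨cqc c, cqc_mem hB⟩)

theorem diff_sum {A z : Hf g} (h : A.J ≤ z.J) :
    (∑ c ∈ fr A, cqc c : F g → F g → ℚ) - ∑ c ∈ fr z, cqc c ∈ MM A z := by
  have e : (∑ c ∈ fr A, cqc c : F g → F g → ℚ) - ∑ c ∈ fr z, cqc c = ∑ j ∈ Finset.Ioc A.J z.J, ee j := by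
    funext x y
    rw [Pi.sub_apply, Pi.sub_apply, Finset.sum_apply, Finset.sum_apply, Finset.sum_apply, Finset.sum_apply,
      Finset.sum_apply, Finset.sum_apply, cqc_sum, cqc_sum]
    have key : ∀ n : ℤ, (∑ j ∈ Finset.Ioc A.J z.J, if n = j then (1 : ℚ) else 0) =
        (if n ≤ z.J then 1 else 0) - (if n ≤ A.J then 1 else 0) := by
      intro n
      rw [Finset.sum_ite_eq]
      by_cases h1 : n ≤ A.J
      · rw [if_neg (by rw [Finset.mem_Ioc]; omega), if_pos h1, if_pos (by omega), sub_self]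
      · by_cases h2 : n ≤ z.J
        · rw [if_pos (by rw [Finset.mem_Ioc]; omega), if_neg h1, if_pos h2, sub_zero]
        · rw [if_neg (by rw [Finset.mem_Ioc]; omega), if_neg h1, if_neg h2, sub_self]
    unfold ee
    rw [Finset.sum_sub_distrib, key, key]
    ring
  rw [e]
  refine Submodule.sum_mem _ fun j hj => Submodule.subset_span ?_
  rw [Finset.mem_Ioc] at hj
  exact ⟨j, hj.1, hj.2, rfl⟩

end

end TorN
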