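import Mathlib
import Pool.Agent.Lib.MP_05cdf2_gt.N6.NBL

/-! MP_05cdf2_gt, stream N, (C1) (helper49): the dimension of `KJ A B`.

`kk_lower`: `dim KJ ≥ κ + 1` for `A < B`, `κ = card (fr A ∩ fr B)`. `kk_lower2`: `≥ κ + 2` if there is a nontrivial union of
components `z` of `B - A`. `kk_upper`: `≤ κ + 1` if `B - A` is connected (`COMP`: the pieces of `B - A` are unions of
components). -/

set_option autoImplicit false
set_option linter.unusedSectionVars false

namespace TorN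
open TorM TorG TorL

variable {g : ℕ} [NeZero g] {A B : Hf g}

theorem ofJ_add (E : Hf g) (v w : Cv g → ℚ) : ofJ E (v + w) = ofJ E v + ofJ E w := by
  rw [ofJ_eq, ofJ_eq, ofJ_eq, ← Finset.sum_add_distrib]
  exact Finset.sum_congr rfl fun c _ => add_smul _ _ _

theorem ofJ_smul (E : Hf g) (r : ℚ) (v : Cv g → ℚ) : ofJ E (r • v) = r • ofJ E v := by
  rw [ofJ_eq, ofJ_eq, Finset.smul_sum]
  exact Finset.sum_congr rfl fun c _ => mul_smul _ _ _

variable (A B) in
/-- the pair with given jumps -/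
noncomputable def el : (Cv g → ℚ) →ₗ[ℚ] (ZZ A A × ZZ B B) where
  toFun v := (⟨ofJ A v, ofJ_mem A v⟩, ⟨ofJ B v, ofJ_mem B v⟩)
  map_add' v w := Prod.ext (Subtype.ext (ofJ_add A v w)) (Subtype.ext (ofJ_add B v w))
  map_smul' r v := Prod.ext (Subtype.ext (ofJ_smul A r v)) (Subtype.ext (ofJ_smul B r v))

theorem el_mem {v : Cv g → ℚ} : el A B v ∈ KJ A B ↔ ofJ A v - ofJ B v ∈ MM A B := Iff.rfl

theorem el_one (h : A.J ≤ B.J) : el A B (fun _ => 1) ∈ KJ A B := by
  rw [el_mem, ofJ_eq, ofJ_eq]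
  have h1 := diff_sum h
  simpa only [one_smul] using h1

open Classical in
theorem el_single {c : Cv g} (hA : c ∈ fr A) (hB : c ∈ fr B) : el A B (fun c' => if c' = c then 1 else 0) ∈ KJ A B := by
  rw [el_mem, ofJ_eq, ofJ_eq]
  have key : ∀ E : Hf g, c ∈ fr E → ∑ c' ∈ fr E, (if c' = c then (1 : ℚ) else 0) • cqc c' = cqc c := by
    intro E hE
    rw [Finset.sum_eq_single c]
    · rw [if_pos rfl, one_smul]
    · intro c' _ hne
      rw [if_neg hne, zero_smul]
    · intro hh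
      exact absurd hE hh
  rw [key A hA, key B hB, sub_self]
  exact zero_mem _

open Classical in
theorem el_comp {z : Hf g} (h1 : A ≤ z) (h2 : z ≤ B) (h3 : fr z ⊆ fr A ∪ fr B) :
    el A B (fun c => if (c ∈ fr A ↔ c ∈ fr z) then 0 else 1) ∈ KJ A B := by
  rw [el_mem, ofJ_eq, ofJ_eq]
  have hm : (∑ c ∈ fr A, cqc c : F g → F g → ℚ) - ∑ c ∈ fr z, cqc c ∈ MM A B :=
    MM_mono le_rfl (Hf.J_le h2) (diff_sum (Hf.J_le h1))
  have e1 : ∑ c ∈ fr A, (if (c ∈ fr A ↔ c ∈ fr z) then (0 : ℚ) else 1) • (cqc c : F g → F g → ℚ) =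
      ∑ c ∈ fr A \ fr z, cqc c := by
    rw [← Finset.filter_notMem_eq_sdiff, Finset.sum_filter]
    refine Finset.sum_congr rfl fun c hc => ?_
    by_cases h : c ∈ fr z
    · rw [if_pos (iff_of_true hc h), zero_smul, if_neg (not_not.2 h)]
    · rw [if_neg (fun hh => h (hh.1 hc)), one_smul, if_pos h]
  have e2 : ∑ c ∈ fr B, (if (c ∈ fr A ↔ c ∈ fr z) then (0 : ℚ) else 1) • (cqc c : F g → F g → ℚ) =
      ∑ c ∈ fr z \ fr A, cqc c := by
    have e3 : fr z \ fr A = (fr B).filter fun c => c ∈ fr z ∧ c ∉ fr A := by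
      ext c
      rw [Finset.mem_sdiff, Finset.mem_filter]
      constructor
      · rintro ⟨a, b⟩
        exact ⟨(Finset.mem_union.1 (h3 a)).resolve_left b, a, b⟩
      · rintro ⟨-, a, b⟩
        exact ⟨a, b⟩
    rw [e3, Finset.sum_filter]
    refine Finset.sum_congr rfl fun c hc => ?_
    by_cases h : c ∈ fr z <;> by_cases h' : c ∈ fr A
    · rw [if_pos (iff_of_true h' h), zero_smul, if_neg (fun hh => hh.2 h')]
    · rw [if_neg (fun hh => h' (hh.2 h)), one_smul, if_pos ⟨h, h'⟩]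
    · exact absurd (fr_conv h1 h2 h' hc) h
    · rw [if_pos (iff_of_false h' h), zero_smul, if_neg (fun hh => h hh.1)]
  have e4 : (∑ c ∈ fr A \ fr z, cqc c : F g → F g → ℚ) - ∑ c ∈ fr z \ fr A, cqc c =
      ∑ c ∈ fr A, cqc c - ∑ c ∈ fr z, cqc c := by
    have a1 := Finset.sum_sdiff (Finset.inter_subset_left (s₁ := fr A) (s₂ := fr z)) (f := fun c => (cqc c : F g → F g → ℚ))
    have a2 := Finset.sum_sdiff (Finset.inter_subset_left (s₁ := fr z) (s₂ := fr A)) (f := fun c => (cqc c : F g → F g → ℚ))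
    rw [Finset.sdiff_inter_self_left] at a1 a2
    rw [← a1, ← a2, Finset.inter_comm (fr z) (fr A)]
    abel
  rw [e1, e2, e4]
  exact hm

open Classical in
variable (A B) in
/-- the jump of a pair at a curve -/
noncomputable def jp (c : Cv g) : KJ A B →ₗ[ℚ] ℚ where
  toFun p := if c ∈ fr A then (p.1.1 : F g → F g → ℚ) (kk A c) (ll A c) else (p.1.2 : F g → F g → ℚ) (kk B c) (ll B c)
  map_add' p q := by
    by_cases h : c ∈ fr A
    · simp only [if_pos h]
      rfl
    · simp only [if_neg h]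
      rfl
  map_smul' r p := by
    by_cases h : c ∈ fr A
    · simp only [if_pos h]
      rfl
    · simp only [if_neg h]
      rfl

theorem jp_A {c : Cv g} (h : c ∈ fr A) (p : KJ A B) :
    jp A B c p = (p.1.1 : F g → F g → ℚ) (kk A c) (ll A c) := if_pos h

theorem jp_B {c : Cv g} (h : c ∉ fr A) (p : KJ A B) :
    jp A B c p = (p.1.2 : F g → F g → ℚ) (kk B c) (ll B c) := if_neg h

theorem jp_el {v : Cv g → ℚ} (hv : el A B v ∈ KJ A B) {c : Cv g} (hc : c ∈ fr A ∨ c ∈ fr B) :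
    jp A B c ⟨el A B v, hv⟩ = v c := by
  by_cases h : c ∈ fr A
  · rw [jp_A h]
    exact ofJ_kl A v h
  · rw [jp_B h]
    exact ofJ_kl B v (hc.resolve_left h)

/-- the jumps of a pair determine it -/
theorem eq_zero_of_jp (hAB : A ≤ B) {p : KJ A B} (h : ∀ c, c ∈ fr A ∨ c ∈ fr B → jp A B c p = 0) : p = 0 := by
  have h1 : (p.1.1 : F g → F g → ℚ) = 0 := zero_of_jumps p.1.1.2 fun c hc => by
    rw [← jp_A hc, h c (Or.inl hc)]
  have h2 : (p.1.2 : F g → F g → ℚ) = 0 := zero_of_jumps p.1.2.2 fun c hc => by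
    by_cases hA : c ∈ fr A
    · have h3 := common_adj hAB hA hc
      have h4 := kk_jump p.2 (kk_mem hA) h3.1 h3.2 (ll_mem hc)
      rw [← h4, h1]
      rfl
    · rw [← jp_B hA, h c (Or.inr hc)]
  apply Subtype.ext
  exact Prod.ext (Subtype.ext h1) (Subtype.ext h2)

theorem finrank_le_of_surj {V W : Type} [AddCommGroup V] [Module ℚ V] [AddCommGroup W] [Module ℚ W]
    [Module.Finite ℚ V] (f : V →ₗ[ℚ] W) (hf : Function.Surjective f) : Module.finrank ℚ W ≤ Module.finrank ℚ V := by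
  have h := LinearMap.finrank_range_add_finrank_ker f
  rw [LinearMap.range_eq_top.2 hf, finrank_top] at h
  omega

open Classical in
/-- a linear combination of indicator functions of common curves -/
theorem el_sum (w : Cv g → ℚ) : el A B (fun c => if c ∈ fr A ∩ fr B then w c else 0) ∈ KJ A B := by
  have e : (fun c => if c ∈ fr A ∩ fr B then w c else 0) =
      ∑ c ∈ fr A ∩ fr B, w c • (fun c' => if c' = c then (1 : ℚ) else 0) := by
    funext c
    rw [Finset.sum_apply]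
    have : ∀ x ∈ fr A ∩ fr B, (w x • (fun c' => if c' = x then (1 : ℚ) else 0)) c = if c = x then w x else 0 := by
      intro x _
      show w x * (if c = x then (1 : ℚ) else 0) = _
      split_ifs <;> simp
    rw [Finset.sum_congr rfl this, Finset.sum_ite_eq]
  rw [e, map_sum]
  refine Submodule.sum_mem _ fun c hc => ?_
  rw [map_smul]
  rw [Finset.mem_inter] at hc
  exact Submodule.smul_mem _ _ (el_single hc.1 hc.2)

open Classical in
theorem kk_lower (hAB : A < B) : (fr A ∩ fr B).card + 1 ≤ Module.finrank ℚ (KJ A B) := by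
  have hne : fr A ≠ fr B := fun h => hAB.ne (fr_inj h)
  obtain ⟨c0, h0, h0'⟩ : ∃ c, (c ∈ fr A ∨ c ∈ fr B) ∧ c ∉ fr A ∩ fr B := by
    by_contra hcon
    push Not at hcon
    apply hne
    ext c
    constructor
    · intro h
      exact (Finset.mem_inter.1 (hcon c (Or.inl h))).2
    · intro h
      exact (Finset.mem_inter.1 (hcon c (Or.inr h))).1
  let R : KJ A B →ₗ[ℚ] ({c // c ∈ fr A ∩ fr B} → ℚ) × ℚ := (LinearMap.pi fun c => jp A B c.1).prod (jp A B c0)
  have hR : Function.Surjective R := by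
    rintro ⟨t, s⟩
    have hv : el A B ((s • fun _ => (1 : ℚ)) + fun c => if h : c ∈ fr A ∩ fr B then t ⟨c, h⟩ - s else 0) ∈ KJ A B := by
      rw [map_add, map_smul]
      refine add_mem (Submodule.smul_mem _ _ (el_one (Hf.J_le hAB.le))) ?_
      have := el_sum (A := A) (B := B) (fun c => if h : c ∈ fr A ∩ fr B then t ⟨c, h⟩ - s else 0)
      have e : (fun c => if c ∈ fr A ∩ fr B then (if h : c ∈ fr A ∩ fr B then t ⟨c, h⟩ - s else 0) else 0) =
          fun c => if h : c ∈ fr A ∩ fr B then t ⟨c, h⟩ - s else 0 := by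
        funext c
        by_cases h : c ∈ fr A ∩ fr B
        · rw [if_pos h]
        · rw [if_neg h, dif_neg h]
      rwa [e] at this
    refine ⟨⟨_, hv⟩, Prod.ext ?_ ?_⟩
    · funext c
      show jp A B c.1 ⟨_, hv⟩ = t c
      rw [jp_el hv (Or.inl (Finset.mem_inter.1 c.2).1)]
      show s * 1 + (if h : c.1 ∈ fr A ∩ fr B then t ⟨c.1, h⟩ - s else 0) = t c
      rw [dif_pos c.2]
      ring
    · show jp A B c0 ⟨_, hv⟩ = s
      rw [jp_el hv h0]
      show s * 1 + (if h : c0 ∈ fr A ∩ fr B then t ⟨c0, h⟩ - s else 0) = s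
      rw [dif_neg h0']
      ring
  have h := finrank_le_of_surj (V := KJ A B) (W := ({c // c ∈ fr A ∩ fr B} → ℚ) × ℚ) R hR
  rw [Module.finrank_prod, Module.finrank_pi, Fintype.card_coe, Module.finrank_self] at h
  exact h

open Classical in
theorem kk_lower2 {z : Hf g} (h1 : A < z) (h2 : z < B) (h3 : fr z ⊆ fr A ∪ fr B) :
    (fr A ∩ fr B).card + 2 ≤ Module.finrank ℚ (KJ A B) := by
  have hcz : ∀ c ∈ fr A ∩ fr B, c ∈ fr z := fun c hc => by
    rw [Finset.mem_inter] at hc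
    exact fr_conv h1.le h2.le hc.1 hc.2
  obtain ⟨c1, k1, k2⟩ : ∃ c, (c ∈ fr A ∨ c ∈ fr B) ∧ ¬ (c ∈ fr A ↔ c ∈ fr z) := by
    by_contra hcon
    push Not at hcon
    apply h1.ne
    apply fr_inj
    ext c
    constructor
    · intro h
      exact (hcon c (Or.inl h)).1 h
    · intro h
      rcases Finset.mem_union.1 (h3 h) with h4 | h4
      · exact h4
      · exact (hcon c (Or.inr h4)).2 h
  have k3 : c1 ∉ fr A ∩ fr B := fun hh => k2 (iff_of_true (Finset.mem_inter.1 hh).1 (hcz _ hh))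
  obtain ⟨c2, m1, m2, m3⟩ : ∃ c, (c ∈ fr A ∨ c ∈ fr B) ∧ (c ∈ fr A ↔ c ∈ fr z) ∧ c ∉ fr A ∩ fr B := by
    have hne : fr z ≠ fr B := fun h => h2.ne (fr_inj h)
    have : ∃ c, ¬ (c ∈ fr z ↔ c ∈ fr B) := by
      by_contra hcon
      push Not at hcon
      exact hne (Finset.ext hcon)
    obtain ⟨c, hc⟩ := this
    by_cases hB : c ∈ fr B
    · have hz : c ∉ fr z := fun hh => hc (iff_of_true hh hB)
      have hA : c ∉ fr A := fun hh => hz (hcz _ (Finset.mem_inter.2 ⟨hh, hB⟩))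
      exact ⟨c, Or.inr hB, iff_of_false hA hz, fun hh => hA (Finset.mem_inter.1 hh).1⟩
    · have hz : c ∈ fr z := by
        by_contra hh
        exact hc (iff_of_false hh hB)
      have hA : c ∈ fr A := (Finset.mem_union.1 (h3 hz)).resolve_right hB
      exact ⟨c, Or.inl hA, iff_of_true hA hz, fun hh => hB (Finset.mem_inter.1 hh).2⟩
  let R : KJ A B →ₗ[ℚ] ({c // c ∈ fr A ∩ fr B} → ℚ) × (ℚ × ℚ) :=
    (LinearMap.pi fun c => jp A B c.1).prod ((jp A B c1).prod (jp A B c2))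
  have hR : Function.Surjective R := by
    rintro ⟨t, s, r⟩
    have hv : el A B ((r • fun _ => (1 : ℚ)) + (s - r) • (fun c => if (c ∈ fr A ↔ c ∈ fr z) then 0 else 1) +
        fun c => if h : c ∈ fr A ∩ fr B then t ⟨c, h⟩ - r else 0) ∈ KJ A B := by
      rw [map_add, map_add, map_smul, map_smul]
      refine add_mem (add_mem (Submodule.smul_mem _ _ (el_one (Hf.J_le (h1.trans h2).le)))
        (Submodule.smul_mem _ _ (el_comp h1.le h2.le h3))) ?_
      have := el_sum (A := A) (B := B) (fun c => if h : c ∈ fr A ∩ fr B then t ⟨c, h⟩ - r else 0)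
      have e : (fun c => if c ∈ fr A ∩ fr B then (if h : c ∈ fr A ∩ fr B then t ⟨c, h⟩ - r else 0) else 0) =
          fun c => if h : c ∈ fr A ∩ fr B then t ⟨c, h⟩ - r else 0 := by
        funext c
        by_cases h : c ∈ fr A ∩ fr B
        · rw [if_pos h]
        · rw [if_neg h, dif_neg h]
      rwa [e] at this
    have val : ∀ c, c ∈ fr A ∨ c ∈ fr B → jp A B c ⟨_, hv⟩ = r * 1 +
        (s - r) * (if (c ∈ fr A ↔ c ∈ fr z) then 0 else 1) + (if h : c ∈ fr A ∩ fr B then t ⟨c, h⟩ - r else 0) :=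
      fun c hc => jp_el hv hc
    refine ⟨⟨_, hv⟩, Prod.ext ?_ (Prod.ext ?_ ?_)⟩
    · funext c
      show jp A B c.1 ⟨_, hv⟩ = t c
      rw [val _ (Or.inl (Finset.mem_inter.1 c.2).1), if_pos (iff_of_true (Finset.mem_inter.1 c.2).1 (hcz _ c.2)),
        dif_pos c.2]
      ring
    · show jp A B c1 ⟨_, hv⟩ = s
      rw [val _ k1, if_neg k2, dif_neg k3]
      ring
    · show jp A B c2 ⟨_, hv⟩ = r
      rw [val _ m1, if_pos m2, dif_neg m3]
      ring
  have h := finrank_le_of_surj (V := KJ A B) (W := ({c // c ∈ fr A ∩ fr B} → ℚ) × (ℚ × ℚ)) R hR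
  rw [Module.finrank_prod, Module.finrank_prod, Module.finrank_pi, Fintype.card_coe, Module.finrank_self] at h
  exact h

/-- the pieces of `Y - X` are unions of components -/
def COMP (X Y : Hf g) : Prop := ∀ (D0 : Set (F g)) (k0 l0 : F g), Ln X.E D0 → ¬ Ln Y.E D0 → Adj X.E D0 k0 l0 →
  ∃ z : Hf g, X ≤ z ∧ z ≤ Y ∧ z ≠ X ∧ (∀ c ∈ fr z, c ∈ fr X ∨ c ∈ fr Y) ∧
    (∀ D, Ln X.E D → ¬ Ln z.E D → ∃ h k l, ph h = 0 ∧ Adj X.E (TorG.tr h D) k l ∧ Y.E.S k k0 ∧ X.E.S l l0) ∧
    (∀ G, Ln z.E G → ¬ Ln X.E G → ∃ h k l, ph h = 0 ∧ Adj Y.E (TorG.tr h G) k l ∧ Y.E.S k k0 ∧ X.E.S l l0)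

theorem finrank_le_of_inj {V W : Type} [AddCommGroup V] [Module ℚ V] [AddCommGroup W] [Module ℚ W]
    [Module.Finite ℚ W] (f : V →ₗ[ℚ] W) (hf : ∀ p, f p = 0 → p = 0) :
    Module.finrank ℚ V ≤ Module.finrank ℚ W :=
  LinearMap.finrank_le_finrank_of_injective (LinearMap.ker_eq_bot.1 (LinearMap.ker_eq_bot'.2 hf))

open Classical in
/-- the upper bound for connected slabs -/
theorem kk_upper (hAB : A ≤ B) (hJ : B.J ≤ A.J + 1) (hC : COMP A B)
    (hcn : ∀ z : Hf g, A ≤ z → z ≤ B → (∀ c ∈ fr z, c ∈ fr A ∨ c ∈ fr B) → z = A ∨ z = B) :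
    Module.finrank ℚ (KJ A B) ≤ (fr A ∩ fr B).card + 1 := by
  by_cases hb : ∃ c0, c0 ∈ fr A ∧ c0 ∉ fr B
  · obtain ⟨c0, h0, h0'⟩ := hb
    have had := kl_adj h0
    have hD := ln_rD.2 h0
    have hD' : ¬ Ln B.E (rD c0) := fun hh => h0' (ln_rD.1 hh)
    obtain ⟨z, z1, z2, z3, z4, z5, z6⟩ := hC _ _ _ hD hD' had
    have hzB : z = B := (hcn z z1 z2 z4).resolve_left z3
    subst hzB
    -- all jumps at the non common curves are equal
    have key : ∀ p : KJ A z, ∀ c, (c ∈ fr A ∨ c ∈ fr z) → c ∉ fr A ∩ fr z → jp A z c p = jp A z c0 p := by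
      intro p c hc hc'
      have hl0z : ll A c0 ∉ A.E.P := ll_mem h0
      by_cases hA : c ∈ fr A
      · have hcz : c ∉ fr z := fun hh => hc' (Finset.mem_inter.2 ⟨hA, hh⟩)
        obtain ⟨h, k, l, hh, hkl, hk, hl⟩ := z5 _ (ln_rD.2 hA) (fun hh => hcz (ln_rD.1 hh))
        rw [jp_A hA, jp_A h0]
        have h1 := (mem_ZE.1 p.1.1.2)
        have h2 := (mem_ZE.1 p.1.2.2)
        have e1 := cc_K h1.1 hh (kk A c) (ll A c)
        have had' := A.kg.adj_tr hh (kl_adj hA)
        have e2 := jump_eq (isC h1.1) h1.2 ((A.kg.ln_tr hh).2 (ln_rD.2 hA)) had' hkl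
        rw [← e1, e2]
        -- `f k l = f k0 l0`
        have e3 := cc_add h1.1 k (kk A c0) (ll A c0)
        have e4 := cc_add h1.1 k l (ll A c0)
        rw [h1.2 l (ll A c0) hl] at e4
        have hkP : k ∈ A.E.P := by
          have h5 := (hkl.out_unique A.lf ((A.kg.ln_tr hh).2 (ln_rD.2 hA)).1 had')
          have h6 : h * kk A c ∈ A.E.P := (A.kg.P_mul hh).2 (kk_mem hA)
          exact (GP.col h5).2 h6
        have e5 := mm_zero (mem_KJ.1 p.2) (x := k) (y := kk A c0) (Or.inl ((A.lev k).1 hkP))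
          (Or.inl ((A.lev _).1 (kk_mem h0)))
        rw [Pi.sub_apply, Pi.sub_apply, h2.2 k (kk A c0) hk, sub_zero] at e5
        linarith
      · have hcz : c ∈ fr z := hc.resolve_left hA
        obtain ⟨h, k, l, hh, hkl, hk, hl⟩ := z6 _ (ln_rD.2 hcz) (fun hh => hA (ln_rD.1 hh))
        rw [jp_B hA, jp_A h0]
        have h2 := (mem_ZE.1 p.1.2.2)
        have e1 := cc_K h2.1 hh (kk z c) (ll z c)
        have had' := z.kg.adj_tr hh (kl_adj hcz)
        have e2 := jump_eq (isC h2.1) h2.2 ((z.kg.ln_tr hh).2 (ln_rD.2 hcz)) had' hkl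
        have hlP : l ∉ z.E.P := by
          have h5 := (hkl.inn_unique z.lf ((z.kg.ln_tr hh).2 (ln_rD.2 hcz)).1 had')
          intro h7
          have h6 : h * ll z c ∈ z.E.P := (GP.col h5).1 h7
          exact ll_mem hcz ((z.kg.P_mul hh).1 h6)
        rw [← e1, e2]
        exact (kk_jump p.2 (kk_mem h0) (GP.symm hk) (GP.symm hl) hlP).symm
    let R : KJ A z →ₗ[ℚ] ({c // c ∈ fr A ∩ fr z} → ℚ) × ℚ := (LinearMap.pi fun c => jp A z c.1).prod (jp A z c0)
    have hR : ∀ p, R p = 0 → p = 0 := by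
      intro p hp
      have hp1 : ∀ c (hc : c ∈ fr A ∩ fr z), jp A z c p = 0 := fun c hc =>
        congrFun (congrArg Prod.fst hp) ⟨c, hc⟩
      have hp2 : jp A z c0 p = 0 := congrArg Prod.snd hp
      refine eq_zero_of_jp hAB fun c hc => ?_
      by_cases hc' : c ∈ fr A ∩ fr z
      · exact hp1 c hc'
      · rw [key p c hc hc', hp2]
    have h := finrank_le_of_inj (V := KJ A z) (W := ({c // c ∈ fr A ∩ fr z} → ℚ) × ℚ) R hR
    rw [Module.finrank_prod, Module.finrank_pi, Fintype.card_coe, Module.finrank_self] at h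
    exact h
  · push Not at hb
    let R : KJ A B →ₗ[ℚ] ({c // c ∈ fr A ∩ fr B} → ℚ) × MM A B := (LinearMap.pi fun c => jp A B c.1).prod
      { toFun := fun p => ⟨_, mem_KJ.1 p.2⟩
        map_add' := fun p q => Subtype.ext (by
          show ((p.1.1 : F g → F g → ℚ) + (q.1.1 : F g → F g → ℚ)) - ((p.1.2 : F g → F g → ℚ) + (q.1.2 : F g → F g → ℚ)) =
            ((p.1.1 : F g → F g → ℚ) - (p.1.2 : F g → F g → ℚ)) + ((q.1.1 : F g → F g → ℚ) - (q.1.2 : F g → F g → ℚ))
          abel)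
        map_smul' := fun r p => Subtype.ext (by
          show r • (p.1.1 : F g → F g → ℚ) - r • (p.1.2 : F g → F g → ℚ) =
            r • ((p.1.1 : F g → F g → ℚ) - (p.1.2 : F g → F g → ℚ))
          rw [smul_sub]) }
    have hR : ∀ p, R p = 0 → p = 0 := by
      intro p hp
      have hp1 : ∀ c (hc : c ∈ fr A ∩ fr B), jp A B c p = 0 := fun c hc =>
        congrFun (congrArg Prod.fst hp) ⟨c, hc⟩
      have hp2 : (p.1.1 : F g → F g → ℚ) - (p.1.2 : F g → F g → ℚ) = 0 :=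
        congrArg Subtype.val (congrArg Prod.snd hp)
      have h1 : (p.1.1 : F g → F g → ℚ) = 0 := zero_of_jumps p.1.1.2 fun c hc => by
        rw [← jp_A hc, hp1 c (Finset.mem_inter.2 ⟨hc, hb c hc⟩)]
      rw [h1, zero_sub, neg_eq_zero] at hp2
      apply Subtype.ext
      exact Prod.ext (Subtype.ext h1) (Subtype.ext hp2)
    have h := finrank_le_of_inj (V := KJ A B) (W := ({c // c ∈ fr A ∩ fr B} → ℚ) × MM A B) R hR
    rw [Module.finrank_prod, Module.finrank_pi, Fintype.card_coe] at h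
    have h2 := finrank_MM (Hf.J_le hAB)
    omega

end TorN
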