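import Pool.Agent.Lib.MP_05cdf2_gt.N6.NLow

/-!
# The number of a full slab is at least `g - 1`
-/

namespace TorN

open TorM TorG TorL

variable {g : ℕ} [NeZero g]

theorem le_false (s : Gen g) : (le (s, false) : F g) = (FreeGroup.of s)⁻¹ := le_inv (s, true)

theorem le_true (s : Gen g) : (le (s, true) : F g) = FreeGroup.of s := rfl

theorem cc_edge' {c : F g → F g → ℚ} (hc : c ∈ CC g) (h : ∀ (x : F g) (s : Gen g), c x (x * FreeGroup.of s) = 0) :
    c = 0 := by
  refine cc_edge hc fun x l => ?_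
  obtain ⟨s, b⟩ := l
  cases b
  · have h1 := h (x * le (s, false)) s
    rw [le_false, inv_mul_cancel_right, cc_symm hc x (x * (FreeGroup.of s)⁻¹)] at h1
    rw [le_false]
    linarith
  · exact h x s

theorem cw_inv (v : ℤ → Gen g → ℚ) (x : F g) (s : Gen g) :
    cw v x (x * (FreeGroup.of s)⁻¹) = - v (ph (x * (FreeGroup.of s)⁻¹)) s := by
  unfold cw
  rw [inv_mul_cancel_left, ps_inv, ps_of, ph_mul, ph_inv, sub_eq_add_neg]

/-- the index set of the free values -/
abbrev Ix (g : ℕ) [NeZero g] (m m' : ℤ) : Type := {n : ℤ // n ∈ Finset.Ico m m'} × {s : Gen g // s ≠ Sum.inl 0}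

open Classical in
/-- free values between two levels -/
noncomputable def vv {m m' : ℤ} (w : Ix g m m' → ℚ) (n : ℤ) (s : Gen g) : ℚ :=
  if h : n ∈ Finset.Ico m m' ∧ s ≠ Sum.inl 0 then w (⟨n, h.1⟩, ⟨s, h.2⟩) else 0

theorem vv_inl {m m' : ℤ} (w : Ix g m m' → ℚ) (n : ℤ) : vv w n (Sum.inl 0) = 0 := by
  unfold vv
  rw [dif_neg]
  exact fun h => h.2 rfl

theorem vv_out {m m' : ℤ} (w : Ix g m m' → ℚ) {n : ℤ} (hn : n < m ∨ m' ≤ n) (s : Gen g) : vv w n s = 0 := by
  unfold vv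
  rw [dif_neg]
  intro h
  have := Finset.mem_Ico.1 h.1
  omega

theorem vv_add {m m' : ℤ} (w w' : Ix g m m' → ℚ) (n : ℤ) (s : Gen g) : vv (w + w') n s = vv w n s + vv w' n s := by
  unfold vv
  split_ifs
  · rfl
  · rw [add_zero]

theorem vv_smul {m m' : ℤ} (r : ℚ) (w : Ix g m m' → ℚ) (n : ℤ) (s : Gen g) : vv (r • w) n s = r * vv w n s := by
  unfold vv
  split_ifs
  · rfl
  · rw [mul_zero]

theorem ph_of_nonneg (s : Gen g) : 0 ≤ ph (FreeGroup.of s : F g) ∧ ph (FreeGroup.of s : F g) ≤ 1 := by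
  rcases s with i | i
  · rw [ph_inl]
    omega
  · by_cases hi : i = 0
    · subst hi
      have : ph (FreeGroup.of (Sum.inr 0) : F g) = 1 := ph_t0
      rw [this]
      omega
    · rw [ph_inr i hi]
      omega

theorem vv_mem {m m' : ℤ} (w : Ix g m m' → ℚ) : cw (vv w) ∈ ZZ ((bs g).act (t0 ^ m)) ((bs g).act (t0 ^ m')) := by
  have hc := cw_mem (v := vv w) (vv_inl w)
  have hJ : (bs g).J = -1 := rfl
  refine ⟨hc, fun x y hx hxy => ?_, fun x y hx hxy => ?_⟩
  · have hc' := shC_mem_CC (t0 ^ m : F g)⁻¹ hc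
    have h0 : ph ((t0 ^ m : F g)⁻¹ * x) ≤ -1 := by
      rw [((bs g).act _).lev, Hf.act_J, ph_zpow, ph_t0] at hx
      rw [ph_mul, ph_inv, ph_zpow, ph_t0]
      omega
    have h := low_rel hc' (fun z => ?_) (fun z l hl => ?_) h0 (act_S.1 hxy)
    · rw [shC_apply, _root_.inv_inv, mul_inv_cancel_left, mul_inv_cancel_left] at h
      exact h
    · rw [shC_apply, ← mul_assoc]
      show cw (vv w) _ (_ * FreeGroup.of (Sum.inl 0)) = 0
      rw [cw_of, vv_inl]
    · rw [shC_apply, ← mul_assoc, _root_.inv_inv]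
      obtain ⟨s, b⟩ := l
      have h1 := ph_of_nonneg s
      cases b
      · rw [le_false, cw_inv, vv_out, neg_zero]
        left
        rw [le_false, ph_mul, ph_inv] at hl
        rw [ph_mul, ph_mul, ph_zpow, ph_t0, ph_inv]
        omega
      · rw [le_true, cw_of, vv_out]
        left
        rw [le_true, ph_mul] at hl
        rw [ph_mul, ph_zpow, ph_t0]
        omega
  · have hc' := shC_mem_CC (t0 ^ m' : F g)⁻¹ hc
    have h0 : 0 ≤ ph ((t0 ^ m' : F g)⁻¹ * x) := by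
      rw [((bs g).act _).lev, Hf.act_J, ph_zpow, ph_t0] at hx
      rw [ph_mul, ph_inv, ph_zpow, ph_t0]
      omega
    have h := high_rel hc' (fun z l hl hl' => ?_) h0 (act_S.1 hxy)
    · rw [shC_apply, _root_.inv_inv, mul_inv_cancel_left, mul_inv_cancel_left] at h
      exact h
    · rw [shC_apply, ← mul_assoc, _root_.inv_inv]
      obtain ⟨s, b⟩ := l
      cases b
      · rw [le_false, cw_inv, vv_out, neg_zero]
        right
        rw [le_false, ph_mul, ph_inv] at hl'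
        rw [ph_mul, ph_mul, ph_zpow, ph_t0, ph_inv]
        omega
      · rw [le_true, cw_of, vv_out]
        right
        rw [ph_mul, ph_zpow, ph_t0]
        omega

theorem cw_ext {c c' : F g → F g → ℚ} (hc : c ∈ CC g) (hc' : c' ∈ CC g)
    (h : ∀ (x : F g) (s : Gen g), c x (x * FreeGroup.of s) = c' x (x * FreeGroup.of s)) : c = c' := by
  have h1 := cc_edge' (sub_mem hc hc') fun x s => by
    show c _ _ - c' _ _ = 0
    rw [h, sub_self]
  exact sub_eq_zero.1 h1

/-- the free values give cochains -/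
noncomputable def lw (g : ℕ) [NeZero g] (m m' : ℤ) :
    (Ix g m m' → ℚ) →ₗ[ℚ] ZZ ((bs g).act (t0 ^ m)) ((bs g).act (t0 ^ m')) where
  toFun w := ⟨cw (vv w), vv_mem w⟩
  map_add' w w' := Subtype.ext (cw_ext (vv_mem _).1 (add_mem (vv_mem w).1 (vv_mem w').1) fun x s => by
    show cw _ _ _ = cw _ _ _ + cw _ _ _
    rw [cw_of, cw_of, cw_of, vv_add])
  map_smul' r w := Subtype.ext (cw_ext (vv_mem _).1 (Submodule.smul_mem _ r (vv_mem w).1) fun x s => by
    show cw _ _ _ = r * cw _ _ _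
    rw [cw_of, cw_of, vv_smul])

theorem lw_inj (m m' : ℤ) : Function.Injective (lw g m m') := by
  rw [injective_iff_map_eq_zero]
  intro w hw
  funext ⟨⟨n, hn⟩, ⟨s, hs⟩⟩
  have h1 : cw (vv w) = 0 := congrArg Subtype.val hw
  have h2 := congrFun (congrFun h1 (t0 ^ n)) (t0 ^ n * FreeGroup.of s)
  rw [cw_of, ph_zpow, ph_t0, mul_one] at h2
  unfold vv at h2
  rw [dif_pos ⟨hn, hs⟩] at h2
  exact h2

theorem card_ix (m m' : ℤ) : (Fintype.card (Ix g m m') : ℤ) = (m' - m).toNat * (2 * (g : ℤ) - 1) := by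
  have hg : 0 < g := NeZero.pos g
  have h1 : Fintype.card {s : Gen g // s ≠ Sum.inl 0} = 2 * g - 1 := by
    have h2 := Fintype.card_subtype_compl (fun s : Gen g => s = Sum.inl 0)
    rw [Fintype.card_subtype_eq, Fintype.card_sum, Fintype.card_fin] at h2
    rw [show 2 * g - 1 = g + g - 1 by omega, ← h2]
  rw [Fintype.card_prod, h1, Fintype.card_coe, Int.card_Ico]
  push_cast
  have h3 : ((2 * g - 1 : ℕ) : ℤ) = 2 * (g : ℤ) - 1 := by omega
  rw [h3]

/-- the lower bound for the base slabs -/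
theorem finrank_bs (m m' : ℤ) : (m' - m) * (2 * (g : ℤ) - 1) ≤
    Module.finrank ℚ (ZZ ((bs g).act (t0 ^ m)) ((bs g).act (t0 ^ m'))) := by
  have hg : 0 < g := NeZero.pos g
  have h1 := LinearMap.finrank_le_finrank_of_injective (lw_inj (g := g) m m')
  rw [Module.finrank_pi] at h1
  have h2 := card_ix (g := g) m m'
  have h3 : (m' - m) ≤ ((m' - m).toNat : ℤ) := Int.self_le_toNat _
  have h4 : (m' - m) * (2 * (g : ℤ) - 1) ≤ ((m' - m).toNat : ℤ) * (2 * (g : ℤ) - 1) :=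
    mul_le_mul_of_nonneg_right h3 (by omega)
  have h5 : (Fintype.card (Ix g m m') : ℤ) ≤
      Module.finrank ℚ (ZZ ((bs g).act (t0 ^ m)) ((bs g).act (t0 ^ m'))) := by exact_mod_cast h1
  omega

theorem ee_eval {i j k : ℤ} (hi : i ≠ j) : ee (g := g) j (t0 ^ i) (t0 ^ k) = if k = j then 1 else 0 := by
  classical
  unfold ee
  have h1 : ph (t0 ^ i : F g) = i := by rw [ph_zpow, ph_t0, mul_one]
  have h2 : ph (t0 ^ k : F g) = k := by rw [ph_zpow, ph_t0, mul_one]
  rw [h1, h2, if_neg hi, sub_zero]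

/-- the level jumps are independent -/
theorem finrank_SS (A B : Hf g) : B.J - A.J ≤ Module.finrank ℚ (SS A B) := by
  let f : ({n : ℤ // n ∈ Finset.Ioc A.J B.J} → ℚ) →ₗ[ℚ] SS A B :=
    { toFun := fun w => ⟨∑ j, w j • ee (j : ℤ), by
        refine Submodule.sum_mem _ fun j _ => Submodule.smul_mem _ _ ?_
        have hj := Finset.mem_Ioc.1 j.2
        exact Submodule.mem_sup_right (Submodule.subset_span ⟨j, hj.1, hj.2, rfl⟩)⟩
      map_add' := fun w w' => Subtype.ext (by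
        show ∑ j, (w + w') j • ee (j : ℤ) = ∑ j, w j • ee (j : ℤ) + ∑ j, w' j • ee (j : ℤ)
        rw [← Finset.sum_add_distrib]
        refine Finset.sum_congr rfl fun j _ => ?_
        rw [Pi.add_apply, add_smul])
      map_smul' := fun r w => Subtype.ext (by
        show ∑ j, (r • w) j • ee (j : ℤ) = r • ∑ j, w j • ee (j : ℤ)
        rw [Finset.smul_sum]
        refine Finset.sum_congr rfl fun j _ => ?_
        rw [Pi.smul_apply, smul_assoc]) }
  have hf : Function.Injective f := by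
    rw [injective_iff_map_eq_zero]
    intro w hw
    funext j
    have h1 : ∑ j, w j • ee (g := g) (j : ℤ) = 0 := congrArg Subtype.val hw
    have h2 := congrFun (congrFun h1 (t0 ^ A.J)) (t0 ^ (j : ℤ))
    rw [Finset.sum_apply, Finset.sum_apply] at h2
    rw [Finset.sum_eq_single j] at h2
    · have hj := Finset.mem_Ioc.1 j.2
      have h3 : (w j • ee (g := g) (j : ℤ)) (t0 ^ A.J) (t0 ^ (j : ℤ)) = w j := by
        show w j * ee (g := g) (j : ℤ) (t0 ^ A.J) (t0 ^ (j : ℤ)) = w j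
        rw [ee_eval (by omega), if_pos rfl, mul_one]
      rw [h3] at h2
      exact h2
    · intro b _ hb
      have hj := Finset.mem_Ioc.1 b.2
      show w b * ee (g := g) (b : ℤ) (t0 ^ A.J) (t0 ^ (j : ℤ)) = 0
      rw [ee_eval (by omega), if_neg, mul_zero]
      intro h
      exact hb (Subtype.ext h.symm)
    · intro h
      exact (h (Finset.mem_univ _)).elim
  have h1 := LinearMap.finrank_le_finrank_of_injective hf
  rw [Module.finrank_pi, Fintype.card_coe, Int.card_Ioc] at h1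
  have h2 : (B.J - A.J) ≤ ((B.J - A.J).toNat : ℤ) := Int.self_le_toNat _
  omega

theorem finrank_mono {V W : Submodule ℚ (F g → F g → ℚ)} [Module.Finite ℚ W] (h : V ≤ W) :
    Module.finrank ℚ V ≤ Module.finrank ℚ W := Submodule.finrank_mono h

/-- the number of a full slab -/
theorem dn_ge (hsub : ∀ A E B : Hf g, A ≤ E → E ≤ B → dn A B ≤ dn A E + dn E B) {x : Hf g}
    (hx : x ≤ Hf.tIso g x) : 2 * (g : ℤ) - 2 ≤ dn x (Hf.tIso g x) := by
  by_contra hlt
  have hg : 0 < g := NeZero.pos g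
  obtain ⟨m, hm⟩ := le_bs x
  obtain ⟨n0, hn0⟩ := bs_ge x
  have hm' := hm m le_rfl
  have hn0' := hn0 n0 le_rfl
  -- upper bound
  have up : ∀ n : ℕ, dn x (x.act (t0 ^ ((n : ℤ) + 1))) ≤ ((n : ℤ) + 1) * dn x (Hf.tIso g x) := by
    intro n
    induction n with
    | zero =>
      have e : ((0 : ℕ) : ℤ) + 1 = 1 := rfl
      rw [e, zpow_one, one_mul]
      exact le_rfl
    | succ n ih =>
      have h1 : x ≤ x.act (t0 ^ ((n : ℤ) + 1)) := by
        have := act_mono hx (a := 0) (b := (n : ℤ) + 1) (by omega)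
        rwa [zpow_zero, Hf.act_one] at this
      have h2 : x.act (t0 ^ ((n : ℤ) + 1)) ≤ x.act (t0 ^ (((n + 1 : ℕ) : ℤ) + 1)) := act_mono hx (by push_cast; omega)
      have h3 := hsub _ _ _ h1 h2
      have h4 : dn (x.act (t0 ^ ((n : ℤ) + 1))) (x.act (t0 ^ (((n + 1 : ℕ) : ℤ) + 1))) = dn x (Hf.tIso g x) := by
        have e : ((n + 1 : ℕ) : ℤ) + 1 = ((n : ℤ) + 1) + 1 := by push_cast; ring
        rw [e, act_t_succ x ((n : ℤ) + 1), dn_act]
      rw [h4] at h3
      push_cast at h3 ⊢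
      linarith
  -- lower bound
  have lo : ∀ n : ℕ, ((n : ℤ) + 1) * (2 * (g : ℤ) - 2) - ((m - n0) * (2 * (g : ℤ) - 1) + 2 * (fr x).card) ≤
      dn x (x.act (t0 ^ ((n : ℤ) + 1))) := by
    intro n
    have h1 : (bs g).act (t0 ^ (n0 + ((n : ℤ) + 1))) ≤ x.act (t0 ^ ((n : ℤ) + 1)) := by
      have h2 := (Hf.act_le_iff (t0 ^ ((n : ℤ) + 1))).2 hn0'
      rw [← Hf.act_mul, ← zpow_add] at h2
      rwa [add_comm n0]
    have h2 := finrank_mono (ZZ_mono hm' h1)
    have h3 := finrank_bs (g := g) m (n0 + ((n : ℤ) + 1))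
    have h4 := finrank_SS x (x.act (t0 ^ ((n : ℤ) + 1)))
    have h5 := card_fr_act (t0 ^ ((n : ℤ) + 1)) x
    have h6 : (x.act (t0 ^ ((n : ℤ) + 1))).J - x.J = (n : ℤ) + 1 := by
      rw [Hf.act_J, ph_zpow, ph_t0]
      ring
    unfold dn
    rw [h5, h6]
    rw [h6] at h4
    have h7 : (Module.finrank ℚ (ZZ ((bs g).act (t0 ^ m)) ((bs g).act (t0 ^ (n0 + ((n : ℤ) + 1))))) : ℤ) ≤
        Module.finrank ℚ (ZZ x (x.act (t0 ^ ((n : ℤ) + 1)))) := by exact_mod_cast h2
    nlinarith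
  have h1 := up ((m - n0) * (2 * (g : ℤ) - 1) + 2 * (fr x).card).toNat
  have h2 := lo ((m - n0) * (2 * (g : ℤ) - 1) + 2 * (fr x).card).toNat
  have h3 := Int.self_le_toNat ((m - n0) * (2 * (g : ℤ) - 1) + 2 * (fr x).card)
  set C := (m - n0) * (2 * (g : ℤ) - 1) + 2 * (fr x).card
  set T := (C.toNat : ℤ)
  have h4 : (T + 1) * dn x (Hf.tIso g x) ≤ (T + 1) * (2 * (g : ℤ) - 3) :=
    mul_le_mul_of_nonneg_left (by omega) (by positivity)
  have h5 : (T + 1) * (2 * (g : ℤ) - 2) - (T + 1) * (2 * (g : ℤ) - 3) = T + 1 := by ring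
  omega

theorem nu_ge (hsub : ∀ A E B : Hf g, A ≤ E → E ≤ B → dn A B ≤ dn A E + dn E B) {x : Hf g}
    (hx : x ≤ Hf.tIso g x) : (g : ℤ) - 1 ≤ nu x (Hf.tIso g x) := by
  have := dn_ge hsub hx
  unfold nu
  omega

theorem nu_sub_of (hsub : ∀ A E B : Hf g, A ≤ E → E ≤ B → dn A B ≤ dn A E + dn E B) {A E B : Hf g}
    (h1 : A ≤ E) (h2 : E ≤ B) : nu A B ≤ nu A E + nu E B := by
  have := hsub A E B h1 h2
  unfold nu
  omega

end TorN
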