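import Mathlib

/-!
# Linear algebra for the subadditivity of the slab numbers
-/

namespace TorN

open Module

/-- periods orthogonal to a space of coefficient vectors -/
theorem rank_orth {W ι : Type*} [AddCommGroup W] [Module ℚ W] [Module.Finite ℚ W] [Fintype ι]
    (P : W →ₗ[ℚ] (ι → ℚ)) (G : Submodule ℚ (ι → ℚ)) (h : ∀ a ∈ G, ∀ f, ∑ i, a i * P f i = 0) :
    finrank ℚ (LinearMap.range P) + finrank ℚ G ≤ Fintype.card ι := by
  classical
  let Φ : (ι → ℚ) →ₗ[ℚ] Dual ℚ (ι → ℚ) := (Pi.basisFun ℚ ι).toDual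
  have hΦ : ∀ a v : ι → ℚ, Φ a v = ∑ i, a i * v i := by
    intro a v
    have h1 := (Pi.basisFun ℚ ι).sum_repr v
    conv_lhs => rw [← h1]
    rw [map_sum]
    refine Finset.sum_congr rfl fun i _ => ?_
    rw [map_smul, smul_eq_mul, mul_comm]
    have h2 := (Pi.basisFun ℚ ι).toDual_apply_left a i
    show (Pi.basisFun ℚ ι).toDual a ((Pi.basisFun ℚ ι) i) * _ = _
    rw [h2]
    simp
  have hinj : Function.Injective Φ := (Pi.basisFun ℚ ι).toDual_injective
  have h1 : finrank ℚ (G.map Φ) = finrank ℚ G := (Submodule.equivMapOfInjective Φ hinj G).finrank_eq.symm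
  have h2 : G.map Φ ≤ (LinearMap.range P).dualAnnihilator := by
    rintro _ ⟨a, ha, rfl⟩
    rw [Submodule.mem_dualAnnihilator]
    rintro _ ⟨f, rfl⟩
    rw [hΦ]
    exact h a ha f
  have h3 := Submodule.finrank_mono h2
  have h4 := Subspace.finrank_add_finrank_dualAnnihilator_eq (LinearMap.range P)
  rw [Module.finrank_fintype_fun_eq_card] at h4
  omega

/-- the dimension count -/
theorem sub_lin {V ι : Type*} [AddCommGroup V] [Module ℚ V] [Fintype ι]
    (ZAB ZAE ZEB ZE SAB SAE SEB : Submodule ℚ V) [Module.Finite ℚ ZAB] [Module.Finite ℚ ZAE]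
    [Module.Finite ℚ ZEB] (P : ι → V →ₗ[ℚ] ℚ) (cD : ι → V)
    (h1 : ∀ f ∈ ZAB, (∀ i, P i f = 0) → f ∈ ZAE ⊔ ZEB)
    (hspan : ZE ⊓ SAB ≤ Submodule.span ℚ (Set.range cD))
    (h2 : ∀ a : ι → ℚ, ∑ i, a i • cD i ∈ ZE ⊓ SAB → ∀ f ∈ ZAB, ∑ i, a i * P i f = 0)
    (h3 : ZE ≤ ZAE ⊓ ZEB) (h3' : ZAE ⊔ ZEB ≤ ZAB) (hcard : finrank ℚ ZE = Fintype.card ι)
    (h4 : SAB ⊔ ZE ≤ SAE ⊔ SEB) (h5 : ZE ≤ SAE ⊓ SEB) (h6 : SAE ≤ ZAE) (h7 : SEB ≤ ZEB) (h8 : SAB ≤ ZAB) :
    finrank ℚ ZAB + finrank ℚ SAB + 2 * Fintype.card ι ≤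
      finrank ℚ ZAE + finrank ℚ ZEB + finrank ℚ SAE + finrank ℚ SEB := by
  classical
  have fZE : Module.Finite ℚ ZE := Submodule.finiteDimensional_of_le (h3.trans inf_le_left)
  have fSAE : Module.Finite ℚ SAE := Submodule.finiteDimensional_of_le h6
  have fSEB : Module.Finite ℚ SEB := Submodule.finiteDimensional_of_le h7
  have fSAB : Module.Finite ℚ SAB := Submodule.finiteDimensional_of_le h8
  -- the periods
  let Pm : ZAB →ₗ[ℚ] (ι → ℚ) := LinearMap.pi fun i => (P i).comp ZAB.subtype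
  let T : (ι → ℚ) →ₗ[ℚ] V := Fintype.linearCombination ℚ cD
  have hT : ∀ a, T a = ∑ i, a i • cD i := fun a => Fintype.linearCombination_apply ℚ cD a
  let G : Submodule ℚ (ι → ℚ) := (ZE ⊓ SAB).comap T
  have r1 := rank_orth Pm G (by
    intro a ha f
    have h9 : T a ∈ ZE ⊓ SAB := ha
    rw [hT] at h9
    exact h2 a h9 f.1 f.2)
  have r2 : finrank ℚ (ZE ⊓ SAB : Submodule ℚ V) ≤ finrank ℚ G := by
    have h9 : (ZE ⊓ SAB : Submodule ℚ V) ≤ G.map T := by
      intro v hv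
      have h10 := hspan hv
      rw [← Fintype.range_linearCombination] at h10
      obtain ⟨a, ha⟩ := h10
      exact ⟨a, by show T a ∈ ZE ⊓ SAB; rw [show T a = v from ha]; exact hv, ha⟩
    exact (Submodule.finrank_mono h9).trans (Submodule.finrank_map_le T G)
  have r3 : finrank ℚ ZAB ≤ finrank ℚ (ZAE ⊔ ZEB : Submodule ℚ V) + finrank ℚ (LinearMap.range Pm) := by
    have h9 := LinearMap.finrank_range_add_finrank_ker Pm
    have h10 : finrank ℚ (LinearMap.ker Pm) ≤ finrank ℚ (ZAE ⊔ ZEB : Submodule ℚ V) := by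
      have e : (LinearMap.ker Pm).map ZAB.subtype ≤ ZAE ⊔ ZEB := by
        rintro _ ⟨f, hf, rfl⟩
        refine h1 f.1 f.2 fun i => ?_
        have h11 : Pm f = 0 := hf
        exact congrFun h11 i
      have e2 : finrank ℚ ((LinearMap.ker Pm).map ZAB.subtype) = finrank ℚ (LinearMap.ker Pm) :=
        (Submodule.equivMapOfInjective ZAB.subtype ZAB.subtype_injective _).finrank_eq.symm
      rw [← e2]
      exact Submodule.finrank_mono e
    omega
  have r4 := Submodule.finrank_sup_add_finrank_inf_eq ZAE ZEB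
  have r5 := Submodule.finrank_mono h3
  have r6 := Submodule.finrank_sup_add_finrank_inf_eq SAE SEB
  have r7 := Submodule.finrank_mono h5
  have r8 := Submodule.finrank_mono h4
  have r9 := Submodule.finrank_sup_add_finrank_inf_eq SAB ZE
  rw [inf_comm SAB ZE] at r9
  omega

end TorN
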