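import Pool.Agent.Lib.MP_05cdf2_gt.N6.NSt
import Pool.Agent.Lib.MP_05cdf2_gt.N6.NSubL

/-!
# Subadditivity of the slab numbers

`BL E`: the counts of the lines of `E` (one of every curve) span `ZZ E E`, and `dim ZZ E E = card (fr E)`.
`MV1 A E B`: a cochain of `[A,B]` without periods along the lines of `E` is a sum of cochains of `[A,E]` and `[E,B]`.
-/

namespace TorN

open TorM TorG TorL Module

variable {g : ℕ} [NeZero g]

/-- the lines of `E` give a basis of `ZZ E E` (statement) -/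
def BL (E : Hf g) : Prop := ∃ D : {c // c ∈ fr E} → Set (F g), (∀ c, Ln E.E (D c) ∧ c.1.1 = orbK (D c)) ∧
  finrank ℚ (ZZ E E) = (fr E).card ∧ ZZ E E ≤ Submodule.span ℚ (Set.range fun c => cq (D c))

/-- the Mayer-Vietoris statement -/
def MV1 (A E B : Hf g) : Prop := ∀ f ∈ ZZ A B, (∀ D, Ln E.E D → f 1 (gn D * 1) = 0) → f ∈ ZZ A E ⊔ ZZ E B

/-- the period is a homomorphism -/
theorem per_mul {f : F g → F g → ℚ} (hf : f ∈ CC g) {k l : F g} (hk : ph k = 0) :
    f 1 (k * l * 1) = f 1 (k * 1) + f 1 (l * 1) := by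
  rw [mul_one, mul_one, mul_one, ← cc_add hf 1 k (k * l)]
  have h := cc_K hf hk 1 l
  rw [mul_one] at h
  rw [h]

theorem per_inv {f : F g → F g → ℚ} (hf : f ∈ CC g) {k : F g} (hk : ph k = 0) :
    f 1 (k⁻¹ * 1) = - f 1 (k * 1) := by
  have h := per_mul hf (l := k⁻¹) hk
  rw [mul_inv_cancel, one_mul, cc_self hf] at h
  linarith

theorem per_conj {f : F g → F g → ℚ} (hf : f ∈ CC g) {k l : F g} (hk : ph k = 0) (hl : ph l = 0) :
    f 1 (k * l * k⁻¹ * 1) = f 1 (l * 1) := by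
  rw [per_mul hf (k := k * l) (by rw [ph_mul, hk, hl, add_zero]), per_mul hf hk, per_inv hf hk]
  ring

/-- the period along a line depends only on the curve -/
theorem per_line {f : F g → F g → ℚ} (hf : f ∈ CC g) {D D' : Set (F g)} (hD : KCut D) (h : D' ∈ orbK D) :
    f 1 (gn D' * 1) = f 1 (gn D * 1) := by
  obtain ⟨k, hk, rfl⟩ := h
  rw [gn_tr hD.wcut, per_conj hf hk hD.ph_gn]

/-- periods along the lines of `A` and of `B` vanish on the slab `[A,B]` -/
theorem per_zero {A B : Hf g} {f : F g → F g → ℚ} (hf : f ∈ ZZ A B) {D : Set (F g)} (hD : Ln A.E D ∨ Ln B.E D) :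
    f 1 (gn D * 1) = 0 := by
  rcases hD with hD | hD
  · have hK := A.kg.kcut hD.1
    obtain ⟨k, l, hkl, hk⟩ := hD.2
    have h1 := A.kg.orb_out hD.1 hkl 1
    rw [zpow_one] at h1
    rw [cc_per hf.1 hK.ph_gn 1 k]
    exact hf.2.1 _ _ hk h1
  · have hK := B.kg.kcut hD.1
    obtain ⟨k, l, hkl, hk⟩ := hD.2
    have h1 := B.kg.orb_inn hD.1 hkl 1
    rw [zpow_one] at h1
    rw [cc_per hf.1 hK.ph_gn 1 l]
    have h2 : l ∉ B.E.P := by
      intro h3
      exact (hkl.col.1 hk) h3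
    exact hf.2.2 _ _ h2 h1

/-- the pairing with a trivial cochain is zero -/
theorem BB_SS (hBL : ∀ E : Hf g, BL E) {A B : Hf g} {c f : F g → F g → ℚ} (hc : c ∈ SS A B) (hf : f ∈ ZZ A B) :
    FL c ∧ BB c f = 0 := by
  let K : Submodule ℚ (F g → F g → ℚ) :=
    { carrier := {c | FL c ∧ BB c f = 0}
      add_mem' := by
        rintro a b ⟨ha, ha'⟩ ⟨hb, hb'⟩
        refine ⟨ha.add hb, ?_⟩
        rw [BB_add ha hb, ha', hb', add_zero]
      zero_mem' := ⟨FL.zero, BB_zero f⟩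
      smul_mem' := by
        rintro r a ⟨ha, ha'⟩
        refine ⟨ha.smul r, ?_⟩
        rw [BB_smul, ha', mul_zero] }
  have key : ∀ E : Hf g, (∀ D, Ln E.E D → f 1 (gn D * 1) = 0) → ZZ E E ≤ K := by
    intro E hE
    obtain ⟨D, hD, -, h2⟩ := hBL E
    refine h2.trans (Submodule.span_le.2 ?_)
    rintro _ ⟨c, rfl⟩
    have hK := E.kg.kcut (hD c).1.1
    refine ⟨FL_ZZ (cq_mem_ZE (hD c).1.1), ?_⟩
    show BB (cq (D c)) f = 0
    rw [BB_cq hK hf.1 1]
    exact hE _ (hD c).1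
  have hM : MM A B ≤ K := by
    refine Submodule.span_le.2 ?_
    rintro _ ⟨j, h1, h2, rfl⟩
    exact ⟨FL_ZZ (ee_mem_ZZ h1 h2), BB_ee j hf.1⟩
  have h3 : SS A B ≤ K := sup_le (sup_le (key A fun D hD => per_zero hf (Or.inl hD))
    (key B fun D hD => per_zero hf (Or.inr hD))) hM
  exact h3 hc

theorem dn_sub {A E B : Hf g} (hBL : ∀ E : Hf g, BL E) (hMV : MV1 A E B) (h1 : A ≤ E) (h2 : E ≤ B) :
    dn A B ≤ dn A E + dn E B := by
  classical
  obtain ⟨D, hD, hcard, hspan⟩ := hBL E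
  have hmm : MM A B ≤ MM A E ⊔ MM E B := by
    refine Submodule.span_le.2 ?_
    rintro _ ⟨j, h3, h4, rfl⟩
    by_cases h5 : j ≤ E.J
    · exact Submodule.mem_sup_left (Submodule.subset_span ⟨j, h3, h5, rfl⟩)
    · exact Submodule.mem_sup_right (Submodule.subset_span ⟨j, by omega, h4, rfl⟩)
  have hfd : Module.Finite ℚ (ZZ A B) := inferInstance
  let P : {c // c ∈ fr E} → (F g → F g → ℚ) →ₗ[ℚ] ℚ := fun c =>
    { toFun := fun f => f 1 (gn (D c) * 1)
      map_add' := fun _ _ => rfl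
      map_smul' := fun _ _ => rfl }
  have key := sub_lin (ZZ A B) (ZZ A E) (ZZ E B) (ZZ E E) (SS A B) (SS A E) (SS E B) P (fun c => cq (D c))
    (by
      intro f hf hP
      refine hMV f hf fun D' hD' => ?_
      have h3 : cv D' (E.kg.kcut hD'.1) ∈ fr E := (cv_mem_fr _).2 hD'
      have h4 := hP ⟨_, h3⟩
      have h5 := (hD ⟨_, h3⟩).2
      have h6 : D' ∈ orbK (D ⟨_, h3⟩) := by
        rw [← h5]
        exact mem_orbK_self D'
      rw [per_line hf.1 (E.kg.kcut (hD ⟨_, h3⟩).1.1) h6]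
      exact h4)
    (inf_le_left.trans hspan)
    (by
      intro a ha f hf
      have h3 := (BB_SS hBL ha.2 hf).2
      rw [BB_sum Finset.univ (fun i => a i • cq (D i)) (fun i _ => (FL_ZZ (cq_mem_ZE (hD i).1.1)).smul _)] at h3
      rw [← h3]
      refine Finset.sum_congr rfl fun i _ => ?_
      rw [BB_smul, BB_cq (E.kg.kcut (hD i).1.1) hf.1 1]
      rfl)
    (le_inf (ZZ_mono h1 le_rfl) (ZZ_mono le_rfl h2))
    (sup_le (ZZ_mono le_rfl h2) (ZZ_mono h1 le_rfl))
    (by rw [hcard, Fintype.card_coe])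
    (by
      refine sup_le (sup_le (sup_le ?_ ?_) (hmm.trans (sup_le ?_ ?_))) ?_
      · exact (le_sup_left.trans le_sup_left : ZZ A A ≤ SS A E).trans le_sup_left
      · exact ((le_sup_right.trans le_sup_left : ZZ B B ≤ SS E B)).trans le_sup_right
      · exact (le_sup_right : MM A E ≤ SS A E).trans le_sup_left
      · exact (le_sup_right : MM E B ≤ SS E B).trans le_sup_right
      · exact (le_sup_right.trans le_sup_left : ZZ E E ≤ SS A E).trans le_sup_left)
    (le_inf (le_sup_right.trans le_sup_left) (le_sup_left.trans le_sup_left))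
    (SS_le_ZZ h1) (SS_le_ZZ h2) (SS_le_ZZ (h1.trans h2))
  rw [Fintype.card_coe] at key
  unfold dn
  have hJ1 := Hf.J_le h1
  zify at key
  linarith

theorem nu_sub' {A E B : Hf g} (h : dn A B ≤ dn A E + dn E B) : nu A B ≤ nu A E + nu E B := by
  unfold nu
  omega

theorem dn_self {A : Hf g} (hBL : BL A) : dn A A = 0 := by
  obtain ⟨D, -, hcard, -⟩ := hBL
  unfold dn
  rw [SS_self, hcard]
  ring

end TorN
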