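import Mathlib
import Pool.Agent.Lib.MP_05cdf2_gt.N6.NC1
import Pool.Agent.Lib.MP_05cdf2_gt.N6.NSub
import Pool.Agent.Lib.MP_05cdf2_gt.N6.NG
import Pool.Agent.Lib.MP_05cdf2_gt.L.Rho
import Pool.Agent.Lib.MP_05cdf2_gt.L.Asm

/-! MP_05cdf2_gt, stream N (helper49): the numbers of regions: `nums g : Nums g`, with `G = g - 1`, and (C1).

`hasUData_of_HN`: `HasUData g k` for `k + 2 ≤ g` from the arc systems. `cn A B = w A + w B + dJ - dim SS`; `c1a`, `c1b`, `c1c`. -/

set_option autoImplicit false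
set_option linter.unusedSectionVars false

namespace TorN
open TorM TorG TorL

variable {g : ℕ} [NeZero g]

theorem bl (E : Hf g) : BL E := by
  refine ⟨fun c => rD c.1, fun c => ⟨ln_rD.2 c.2, rD_orb c.1⟩, finrank_ZE E, ?_⟩
  intro f hf
  have e : f = ∑ c ∈ fr E, f (kk E c) (ll E c) • (cqc c : F g → F g → ℚ) := by
    funext x y
    rw [expand hf, Finset.sum_apply, Finset.sum_apply]
    rfl
  rw [e]
  exact Submodule.sum_mem _ fun c hc => Submodule.smul_mem _ _ (Submodule.subset_span ⟨⟨c, hc⟩, rfl⟩)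

theorem mv (A E B : Hf g) (h1 : A ≤ E) (h2 : E ≤ B) : MV1 A E B := fun f hf hp =>
  mv1' h1 h2 hf fun c hc => by
    have := hp (rD c) (ln_rD.2 hc)
    rwa [mul_one] at this

theorem dn_sub'' (A E B : Hf g) (h1 : A ≤ E) (h2 : E ≤ B) : dn A B ≤ dn A E + dn E B :=
  dn_sub bl (mv A E B h1 h2) h1 h2

theorem nu_sub (A E B : Hf g) (h1 : A ≤ E) (h2 : E ≤ B) : nu A B ≤ nu A E + nu E B :=
  nu_sub' (dn_sub'' A E B h1 h2)

theorem nu_self (A : Hf g) : nu A A = 0 := by
  unfold nu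
  rw [dn_self (bl A)]
  rfl

variable (g) in
/-- **the numbers** -/
noncomputable def nums : Nums g where
  nn := nu
  rho := TorL.rho
  P := TorL.TT g + 1
  G := g - 1
  rho_t := TorL.rho_t
  nn_sub X Y Z h1 h2 _ := nu_sub X Y Z h1 h2
  nn_self X := (nu_self X).le
  nn_G X hX := by
    have h := nu_ge (g := g) dn_sub'' hX
    have hg : 0 < g := Nat.pos_of_ne_zero (NeZero.ne g)
    omega
  rho_lt _ _ h := TorL.rho_lt h
  rho_md _ _ h := by
    obtain ⟨Z, hZ⟩ := h
    exact TorL.rho_md' hZ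

/-- **the data of the main theorem from the arc systems** -/
theorem hasUData_of_HN (hN : (slb (nums g)).HN) {k : ℕ} (hk : k + 2 ≤ g) : HasUData g k :=
  hasUData_of_nums (nums g) hN (k := k) (by
    show k + 1 ≤ g - 1
    omega)

/-! (C1) -/

/-- number of independent relations between the curves of `A` and `B` -/
noncomputable def cN (A B : Hf g) : ℤ :=
  (fr A).card + (fr B).card + (B.J - A.J) - Module.finrank ℚ (SS A B)

theorem cN_eq {A B : Hf g} (h : A ≤ B) : cN A B = Module.finrank ℚ (KJ A B) := by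
  have h1 := finrank_KJ (Hf.J_le h)
  unfold cN
  omega

open Classical in
theorem c1a {A B : Hf g} (h : A < B) : ((fr A ∩ fr B).card : ℤ) + 1 ≤ cN A B := by
  rw [cN_eq h.le]
  exact_mod_cast kk_lower h

open Classical in
theorem c1b {A B z : Hf g} (h1 : A < z) (h2 : z < B) (h3 : fr z ⊆ fr A ∪ fr B) :
    ((fr A ∩ fr B).card : ℤ) + 2 ≤ cN A B := by
  rw [cN_eq (h1.trans h2).le]
  exact_mod_cast kk_lower2 h1 h2 h3

open Classical in
theorem c1c {A B : Hf g} (h : A ≤ B) (hJ : B.J ≤ A.J + 1) (hC : COMP A B)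
    (hcn : ∀ z : Hf g, A < z → z < B → ¬ fr z ⊆ fr A ∪ fr B) : cN A B ≤ ((fr A ∩ fr B).card : ℤ) + 1 := by
  rw [cN_eq h]
  have := kk_upper h hJ hC (by
    intro z h1 h2 h3
    by_contra hcon
    rw [not_or] at hcon
    refine hcn z (lt_of_le_of_ne h1 (Ne.symm hcon.1)) (lt_of_le_of_ne h2 hcon.2) fun c hc => ?_
    rw [Finset.mem_union]
    exact h3 c hc)
  exact_mod_cast this

end TorN
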