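import Mathlib
import Pool.Agent.Lib.MP_05cdf2_gt.L6.Pc
import Pool.Agent.Lib.MP_05cdf2_gt.N6.NNum

/-! MP_05cdf2_gt, stream N (helper49): `COMP X Y`; unconditional (C1). -/

set_option autoImplicit false
set_option linter.unusedSectionVars false

namespace TorN
open TorM TorG TorL

variable {g : ℕ} [NeZero g]

theorem comp {X Y : Hf g} (hle : X ≤ Y) (hJ : Y.J ≤ X.J + 1) : COMP X Y := by
  intro D0 k0 l0 hD0 hn h0
  obtain ⟨z, h1, h2, h3, h4, h5⟩ := comp_piece hJ hle hD0 hn h0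
  refine ⟨z, h1, h2, h3, h4, ?_, ?_⟩
  · intro D hD hDz
    have hKB : KB X.E Y.E k0 l0 D := by
      by_contra hh
      exact hDz ((h5 D).2 (Or.inl ⟨hD, hh⟩))
    obtain ⟨-, h, k, l, a1, a2, a3, a4⟩ := hKB
    have hz : ph h⁻¹ = 0 := by simp [a1]
    refine ⟨h⁻¹, h⁻¹ * k, h⁻¹ * l, hz, X.kg.adj_tr hz a2, ?_, ?_⟩
    · have := (Y.kg.S_mul hz).2 a3
      rwa [inv_mul_cancel_left] at this
    · have := (X.kg.S_mul hz).2 a4
      rwa [inv_mul_cancel_left] at this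
  · intro G hG hGX
    have hKT : KT X.E Y.E k0 l0 G := ((h5 G).1 hG).resolve_left fun hh => hGX hh.1
    obtain ⟨-, h, k, l, a1, a2, a3, a4⟩ := hKT
    have hz : ph h⁻¹ = 0 := by simp [a1]
    refine ⟨h⁻¹, h⁻¹ * k, h⁻¹ * l, hz, Y.kg.adj_tr hz a2, ?_, ?_⟩
    · have := (Y.kg.S_mul hz).2 a3
      rwa [inv_mul_cancel_left] at this
    · have := (X.kg.S_mul hz).2 a4
      rwa [inv_mul_cancel_left] at this

open Classical in
/-- the upper bound of (C1) -/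
theorem c1c' {A B : Hf g} (h : A ≤ B) (hJ : B.J ≤ A.J + 1)
    (hcn : ∀ z : Hf g, A < z → z < B → ¬ fr z ⊆ fr A ∪ fr B) : cN A B ≤ ((fr A ∩ fr B).card : ℤ) + 1 :=
  c1c h hJ (comp h hJ) hcn

end TorN
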