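import Pool.Agent.Lib.MP_05cdf2_gt.N6.NSub

/-!
# The numerical fields of the arc systems

`Stp B A A'`: a single arc step. `Chn B A n H`: a chain of `n` steps from `A` to `H`.
`cn A B`: the number of components. `C1a`, `C1b`, `C1c`: its properties (statements).
-/

namespace TorN

open TorM TorG TorL Module

variable {g : ℕ} [NeZero g]

/-- number of components of a slab -/
noncomputable def cn (A B : Hf g) : ℤ :=
  ((fr A).card : ℤ) + (fr B).card + (B.J - A.J) - finrank ℚ (SS A B)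

/-- number of frontier curves -/
noncomputable def wz (A : Hf g) : ℤ := (fr A).card

/-- a single arc step in `B` -/
structure Stp (B A A' : Hf g) : Prop where
  lt : A < A'
  le : A' ≤ B
  J : A'.J = A.J
  z : finrank ℚ (ZZ A' B) + 1 = finrank ℚ (ZZ A B)
  zz : finrank ℚ (ZZ A A') ≤ (fr A').card + 1
  w : (fr A').card ≤ (fr A).card + 1
  alt : finrank ℚ (ZZ A A') ≤ (fr A').card ∨ (fr A').card + 1 ≤ (fr A).card

theorem Stp.dn_le {B A A' : Hf g} (h : Stp B A A') : dn A A' ≤ 1 + (wz A - wz A') := by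
  have h1 : finrank ℚ (SS A A') ≤ finrank ℚ (ZZ A A') := by
    exact Submodule.finrank_mono (SS_le_ZZ h.lt.le)
  have h2 := h.J
  have h3 := h.w
  have h4 := h.zz
  unfold dn wz
  rw [h2]
  rcases h.alt with h5 | h5 <;> omega

theorem Stp.w_ge {B A A' : Hf g} (h : Stp B A A') : 0 ≤ 1 + (wz A - wz A') := by
  have h3 := h.w
  unfold wz
  omega

/-- chains of single arc steps -/
inductive Chn (B : Hf g) : Hf g → ℕ → Hf g → Prop
  | nil (A : Hf g) : Chn B A 0 A
  | cons {A A' H : Hf g} {n : ℕ} : Stp B A A' → Chn B A' n H → Chn B A (n + 1) H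

/-- subadditivity (statement) -/
def DnSub (g : ℕ) [NeZero g] : Prop :=
  (∀ A E B : Hf g, A ≤ E → E ≤ B → dn A B ≤ dn A E + dn E B) ∧ ∀ A : Hf g, dn A A = 0

theorem dnSub_of (hBL : ∀ E : Hf g, BL E) (hMV : ∀ A E B : Hf g, A ≤ E → E ≤ B → MV1 A E B) : DnSub g :=
  ⟨fun A E B h1 h2 => dn_sub hBL (hMV A E B h1 h2) h1 h2, fun A => dn_self (hBL A)⟩

namespace Chn

theorem le {B A H : Hf g} {n : ℕ} (h : Chn B A n H) : A ≤ H := by
  induction h with
  | nil A => exact le_rfl
  | cons h1 _ ih => exact h1.lt.le.trans ih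

theorem lt {B A H : Hf g} {n : ℕ} (h : Chn B A (n + 1) H) : A < H := by
  cases h with
  | cons h1 h2 => exact h1.lt.trans_le h2.le

theorem leB {B A H : Hf g} {n : ℕ} (h : Chn B A n H) : A ≤ B → H ≤ B := by
  induction h with
  | nil A => exact id
  | cons h1 _ ih => exact fun _ => ih h1.le

theorem J {B A H : Hf g} {n : ℕ} (h : Chn B A n H) : H.J = A.J := by
  induction h with
  | nil A => rfl
  | cons h1 _ ih => exact ih.trans h1.J

theorem z {B A H : Hf g} {n : ℕ} (h : Chn B A n H) : finrank ℚ (ZZ H B) + n = finrank ℚ (ZZ A B) := by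
  induction h with
  | nil A => rfl
  | cons h1 _ ih =>
    have h2 := h1.z
    omega

theorem w {B A H : Hf g} {n : ℕ} (h : Chn B A n H) : 0 ≤ (n : ℤ) + (wz A - wz H) := by
  induction h with
  | nil A => simp
  | cons h1 _ ih =>
    have h2 := h1.w_ge
    push_cast
    linarith

theorem dn_le (hS : DnSub g) {B A H : Hf g} {n : ℕ} (h : Chn B A n H) : dn A H ≤ n + (wz A - wz H) := by
  induction h with
  | nil A =>
    rw [hS.2]
    simp
  | cons h1 h2 ih =>
    have h3 := h1.dn_le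
    have h4 := hS.1 _ _ _ h1.lt.le h2.le
    push_cast
    linarith

theorem num (hS : DnSub g) {B A H : Hf g} {n : ℕ} (h : Chn B A n H) (hAB : A ≤ B) :
    nu A B ≤ nu H B + ((n : ℤ) + (wz A - wz H)) := by
  have h1 := hS.1 _ _ _ h.le (h.leB hAB)
  have h2 := h.dn_le hS
  have h3 := h.w
  unfold nu
  omega

theorem light (hS : DnSub g) {B A H : Hf g} {n : ℕ} (h : Chn B A n H) (hAB : A ≤ B)
    (h2 : 2 ≤ (n : ℤ) + (wz A - wz H)) : nu A B + 1 ≤ nu H B + ((n : ℤ) + (wz A - wz H)) := by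
  have h1 := hS.1 _ _ _ h.le (h.leB hAB)
  have h3 := h.dn_le hS
  unfold nu
  omega

/-- the first step joins two different curves -/
theorem two {B A A' H : Hf g} {n : ℕ} (_ : Stp B A A') (h1 : Chn B A' n H)
    (h2 : (fr A').card + 1 ≤ (fr A).card) : 2 ≤ ((n + 1 : ℕ) : ℤ) + (wz A - wz H) := by
  have h3 := h1.w
  have h4 : 1 ≤ wz A - wz A' := by
    unfold wz
    omega
  push_cast
  linarith

theorem cn_le (hS : DnSub g) {B A H : Hf g} {n : ℕ} (h : Chn B A n H) (hAB : A ≤ B) : cn H B ≤ cn A B := by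
  have h1 := hS.1 _ _ _ h.le (h.leB hAB)
  have h2 := h.dn_le hS
  have h3 := h.z
  have h4 := h.J
  unfold dn wz at h2
  unfold dn at h1
  unfold cn
  zify at h3
  linarith

end Chn

/-- lower bound of the number of components (statement) -/
def C1a (g : ℕ) [NeZero g] : Prop := ∀ A B : Hf g, A < B →
  (((fr A).filter fun c => c ∈ fr B).card : ℤ) + 1 ≤ cn A B

/-- lower bound for disconnected slabs (statement) -/
def C1b (g : ℕ) [NeZero g] : Prop := ∀ A B z : Hf g, A < z → z < B → (∀ c ∈ fr z, c ∈ fr A ∨ c ∈ fr B) →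
  (((fr A).filter fun c => c ∈ fr B).card : ℤ) + 2 ≤ cn A B

/-- upper bound for connected slabs (statement) -/
def C1c (g : ℕ) [NeZero g] : Prop := ∀ A B : Hf g, A < B → B.J ≤ A.J + 1 →
  (∀ z : Hf g, A < z → z < B → ¬ ∀ c ∈ fr z, c ∈ fr A ∨ c ∈ fr B) →
  cn A B ≤ (((fr A).filter fun c => c ∈ fr B).card : ℤ) + 1

open Classical in
theorem Chn.top (hS : DnSub g) (ha : C1a g) (hb : C1b g) (hc : C1c g) {B A H : Hf g} {n : ℕ} (h : Chn B A n H)
    (hAB : A < B) (hJ : B.J ≤ A.J + 1) (hC : ∀ z : Hf g, A < z → z < B → ¬ ∀ c ∈ fr z, c ∈ fr A ∨ c ∈ fr B) :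
    H = B ∨ (H < B ∧ (∀ z : Hf g, H < z → z < B → ¬ ∀ c ∈ fr z, c ∈ fr H ∨ c ∈ fr B) ∧
      fr H ∩ fr B = fr A ∩ fr B) := by
  rcases (h.leB hAB.le).eq_or_lt with h1 | h1
  · exact Or.inl h1
  refine Or.inr ⟨h1, ?_, ?_⟩
  · intro z hz1 hz2 hz3
    have h2 := hb H B z hz1 hz2 hz3
    have h3 := hc A B hAB hJ hC
    have h4 := h.cn_le hS hAB.le
    have h5 : ((fr A).filter fun c => c ∈ fr B).card ≤ ((fr H).filter fun c => c ∈ fr B).card := by
      refine Finset.card_le_card fun c hcc => ?_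
      rw [Finset.mem_filter] at hcc ⊢
      exact ⟨fr_conv h.le h1.le hcc.1 hcc.2, hcc.2⟩
    zify at h5
    linarith
  · have h2 := ha H B h1
    have h3 := hc A B hAB hJ hC
    have h4 := h.cn_le hS hAB.le
    have h6 : fr A ∩ fr B ⊆ fr H ∩ fr B := by
      intro c hcc
      rw [Finset.mem_inter] at hcc ⊢
      exact ⟨fr_conv h.le h1.le hcc.1 hcc.2, hcc.2⟩
    symm
    refine Finset.eq_of_subset_of_card_le h6 ?_
    have e1 : fr H ∩ fr B = (fr H).filter fun c => c ∈ fr B := by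
      ext c
      simp
    have e2 : fr A ∩ fr B = (fr A).filter fun c => c ∈ fr B := by
      ext c
      simp
    rw [e1, e2]
    zify
    have e3 : (((fr H).filter fun c => c ∈ fr B).card : ℤ) + 1 ≤ cn H B := by
      have : ((fr H).filter fun c => c ∈ fr B).card = ((fr H).filter fun c => c ∈ fr B).card := rfl
      convert h2 using 3
    have e4 : cn A B ≤ (((fr A).filter fun c => c ∈ fr B).card : ℤ) + 1 := by
      convert h3 using 3
    linarith

/-- the number of the slab is at most the dimension of the reduced space of chords -/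
theorem nu_le {A E : Hf g} (h : A ≤ E) (hE : finrank ℚ (ZZ E E) = (fr E).card) :
    nu A E ≤ (finrank ℚ (ZZ A E) : ℤ) - finrank ℚ (ZZ E E ⊔ MM A E : Submodule ℚ (F g → F g → ℚ)) := by
  classical
  have h1 : finrank ℚ (SS A E) ≤ finrank ℚ (ZZ A E) := Submodule.finrank_mono (SS_le_ZZ h)
  have hJ := Hf.J_le h
  have h2 : finrank ℚ (MM A E) ≤ (E.J - A.J).toNat := by
    have e : MM A E = Submodule.span ℚ ((Finset.Ioc A.J E.J).image fun j => ee (g := g) j : Finset (F g → F g → ℚ)) := by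
      unfold MM
      congr 1
      ext c
      simp only [Set.mem_ofPred_eq, Finset.coe_image, Set.mem_image, Finset.coe_Ioc, Set.mem_Ioc]
      constructor
      · rintro ⟨j, h3, h4, rfl⟩
        exact ⟨j, ⟨h3, h4⟩, rfl⟩
      · rintro ⟨j, ⟨h3, h4⟩, rfl⟩
        exact ⟨j, h3, h4, rfl⟩
    rw [e]
    refine (finrank_span_finset_le_card _).trans (Finset.card_image_le.trans ?_)
    rw [Int.card_Ioc]
  have hf1 : Module.Finite ℚ (MM A E) := fd_of_le (MM_le_ZZ A E)
  have h3 : finrank ℚ (ZZ E E ⊔ MM A E : Submodule ℚ (F g → F g → ℚ)) ≤ finrank ℚ (ZZ E E) + finrank ℚ (MM A E) :=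
    Submodule.finrank_add_le_finrank_add_finrank _ _
  unfold nu dn
  zify at h1 h2 h3
  rw [Int.toNat_of_nonneg (by omega)] at h2
  rw [hE] at h3
  omega

end TorN
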