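import Pool.Agent.Lib.MP_05cdf2_gt.N6.NSys
import Pool.Agent.Lib.MP_05cdf2_gt.H.HLin

/-!
# Independence, arc by arc
-/

namespace TorN

open TorM TorG TorL Module

/-- independence of functionals, arc by arc -/
def IndL {V : Type*} [AddCommGroup V] [Module ℚ V] (W : Submodule ℚ V) : List (V →ₗ[ℚ] ℚ) → Prop
  | [] => True
  | φ :: L => (∃ f ∈ W, φ f ≠ 0) ∧ IndL (W ⊓ LinearMap.ker φ) L

/-- no functional of the list is a combination of the others on `W` -/
def IndC {V : Type*} [AddCommGroup V] [Module ℚ V] (W : Submodule ℚ V) (L : List (V →ₗ[ℚ] ℚ)) : Prop :=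
  LinearIndependent ℚ (fun i : Fin L.length => (L.get i).comp W.subtype)

theorem indL_of {V : Type*} [AddCommGroup V] [Module ℚ V] : ∀ (L : List (V →ₗ[ℚ] ℚ)) (W : Submodule ℚ V),
    IndC W L → IndL W L := by
  intro L
  induction L with
  | nil => intro _ _; trivial
  | cons φ L ih =>
    intro W h
    unfold IndC at h
    have e : (fun i : Fin (φ :: L).length => ((φ :: L).get i).comp W.subtype) =
        Fin.cons (φ.comp W.subtype) (fun i : Fin L.length => (L.get i).comp W.subtype) := by
      funext i
      refine Fin.cases ?_ (fun j => ?_) i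
      · rfl
      · rfl
    rw [e, linearIndependent_finCons] at h
    obtain ⟨h1, h2⟩ := h
    constructor
    · by_contra hcon
      push Not at hcon
      refine h2 ?_
      have : φ.comp W.subtype = 0 := by
        ext ⟨f, hf⟩
        exact hcon f hf
      rw [this]
      exact zero_mem _
    · refine ih _ ?_
      unfold IndC
      rw [Fintype.linearIndependent_iff] at h1 ⊢
      intro a ha
      refine h1 a ?_
      -- the combination vanishes on the kernel of `φ`
      have h3 : LinearMap.ker (φ.comp W.subtype) ≤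
          LinearMap.ker (∑ i, a i • (L.get i).comp W.subtype) := by
        intro f hf
        rw [LinearMap.mem_ker] at hf ⊢
        have h4 := LinearMap.congr_fun ha ⟨f.1, ⟨f.2, hf⟩⟩
        simp only [LinearMap.coe_sum, Finset.sum_apply, LinearMap.smul_apply, LinearMap.comp_apply,
          Submodule.subtype_apply, LinearMap.zero_apply] at h4 ⊢
        exact h4
      have h5 : ∃ c : ℚ, ∑ i, a i • (L.get i).comp W.subtype = c • φ.comp W.subtype := by
        have h6 := (mem_span_of_iInf_ker_le_ker (ι := Unit) (L := fun _ => φ.comp W.subtype)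
          (K := ∑ i, a i • (L.get i).comp W.subtype) (by simpa using h3))
        rw [Set.range_const, Submodule.mem_span_singleton] at h6
        obtain ⟨c, hc⟩ := h6
        exact ⟨c, hc.symm⟩
      obtain ⟨c, hc⟩ := h5
      by_cases hc0 : c = 0
      · rw [hc, hc0, zero_smul]
      · exfalso
        refine h2 ?_
        have h6 : φ.comp W.subtype = c⁻¹ • ∑ i, a i • (L.get i).comp W.subtype := by
          rw [hc, smul_smul, inv_mul_cancel₀ hc0, one_smul]
        rw [h6]
        refine Submodule.smul_mem _ _ (Submodule.sum_mem _ fun i _ => Submodule.smul_mem _ _ ?_)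
        exact Submodule.subset_span ⟨i, rfl⟩

variable {g : ℕ} [NeZero g]

theorem indW_iff : ∀ (L : List (F g × F g)) (W : Submodule ℚ (F g → F g → ℚ)), IndL W (L.map evl) ↔ IndW W L := by
  intro L
  induction L with
  | nil => intro _; rfl
  | cons s L ih =>
    intro W
    show _ ∧ _ ↔ _ ∧ _
    rw [ih]
    rfl

open Classical in
/-- from independence of a finset of arcs -/
theorem indW_of {ι : Type} (rp : ι → F g × F g) (W : Submodule ℚ (F g → F g → ℚ)) (ρ : Finset ι)
    (h : TorH.Ind (fun a => (evl (rp a)).comp W.subtype) ⊥ ρ) : IndW W (ρ.toList.map rp) := by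
  rw [← indW_iff]
  refine indL_of _ _ ?_
  unfold IndC
  have hl : ρ.toList.Nodup := ρ.nodup_toList
  have h1 : LinearIndependent ℚ (fun a : {a // a ∈ ρ} => (evl (rp a.1)).comp W.subtype) := by
    rw [linearIndependent_iff_notMem_span]
    rintro ⟨a, ha⟩ hmem
    refine h a ha ?_
    unfold TorH.sp
    rw [bot_sup_eq]
    refine Submodule.span_mono ?_ hmem
    rintro _ ⟨⟨b, hb⟩, hb2, rfl⟩
    refine ⟨b, ?_, rfl⟩
    rw [Finset.mem_coe, Finset.mem_erase]
    refine ⟨fun h2 => hb2.2 (Subtype.ext h2), hb⟩
  let e : Fin ((ρ.toList.map rp).map evl).length → {a // a ∈ ρ} := fun i =>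
    ⟨ρ.toList.get (i.cast (by simp)), Finset.mem_toList.1 (List.get_mem _ _)⟩
  have he : Function.Injective e := by
    intro i j hij
    have h2 := congrArg Subtype.val hij
    have h3 := hl.injective_get h2
    exact Fin.ext (by simpa using congrArg Fin.val h3)
  have h2 := h1.comp e he
  have e2 : (fun i : Fin ((ρ.toList.map rp).map evl).length => (((ρ.toList.map rp).map evl).get i).comp W.subtype) =
      (fun a : {a // a ∈ ρ} => (evl (rp a.1)).comp W.subtype) ∘ e := by
    funext i
    simp [e]
  rw [e2]
  exact h2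

end TorN
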