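import Pool.Agent.Lib.MP_05cdf2_gt.N6.NPP
import Pool.Agent.Lib.MP_05cdf2_gt.N6.NInd
import Pool.Agent.Lib.MP_05cdf2_gt.N6.NComp
import Pool.Agent.Lib.MP_05cdf2_gt.H.HBad

/-!
# Assembly of the arc systems

`ArcD A B hv`: the arcs over `A` in `B` and the connectivity of the complexes of systems (from stream H).
`arcS_of`: the structure `ArcS`. `hn_of`: the statement `HN`, and the final reduction.
-/

namespace TorN

open TorM TorG TorL TorA Module

variable {g : ℕ} [NeZero g]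

/-- the class of a chord in the dual of the cochains of `[A,B]` -/
def evZ (A B : Hf g) (s : F g × F g) : Dual ℚ (ZZ A B) := (evl s).comp (ZZ A B).subtype

/-- an empty complex is `Ac n` only for `n = 0` -/
theorem ac_empty {α : Type} [Preorder α] {n : ℕ} (h0 : Ac (Po (∅ : Set α)) n) : n = 0 := by
  by_contra h2
  have h4 : (Finsupp.single [] 1 : Tor.Ch α) ∈ Tor.Sup (Ln (Po (∅ : Set α)) 0) := by
    rw [Tor.Sup, Finsupp.mem_supported]
    intro l hl
    have h5 : l = [] := by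
      have := Finsupp.support_single_subset hl
      simpa using this
    subst h5
    exact ⟨nil_mem_Fl _ _, rfl⟩
  obtain ⟨w, hw, hb⟩ := h0 0 (by omega) (Finsupp.single [] 1) h4 (bd_Ln_zero h4)
  have h6 : w = 0 := by
    rw [Tor.Sup, Finsupp.mem_supported] at hw
    rw [← Finsupp.support_eq_empty, Finset.eq_empty_iff_forall_notMem]
    intro l hl
    obtain ⟨h7, h8⟩ := hw hl
    have h9 : l ≠ [] := by
      rintro rfl
      simp at h8
    obtain ⟨x, l', rfl⟩ := List.exists_cons_of_ne_nil h9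
    exact h7.2 x (by simp)
  rw [h6, map_zero] at hb
  have := congrArg (fun z => z []) hb
  simp at this

open Classical in
/-- arcs over `A` in `B` -/
structure ArcD (A B : Hf g) (hv : Set (Cv g)) where
  /-- the arcs -/
  α : Type
  /-- representatives -/
  rp : α → F g × F g
  /-- systems -/
  Q : Finset α → Prop
  mono : ∀ ρ ρ' : Finset α, ρ ⊆ ρ' → Q ρ' → Q ρ
  okc : ∀ ρ, Q ρ → ∀ a ∈ ρ, OkC A B (rp a)
  cmp : ∀ ρ, Q ρ → ∀ a ∈ ρ, ∀ b ∈ ρ, Cmpt A (rp a) (rp b)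
  al : ∀ ρ, Q ρ → ∀ a ∈ ρ, (∀ k, ph k = 0 → gap A.E (rp a).2 (rp a).1 ≠ tr k (gap A.E (rp a).1 (rp a).2)) ∨
    ∃ c ∈ hv, c.1 = orbK (gap A.E (rp a).1 (rp a).2)
  ind : ∀ ρ, Q ρ → TorH.Ind (fun a => evZ A B (rp a)) ⊥ ρ
  ac : ∀ E, A < E → E ≤ B → (slb (nums g)).PP A hv E →
    Ac (Po {ρ : Finset α | ρ.Nonempty ∧ Q ρ ∧ ∀ a ∈ ρ, E.E.S (rp a).1 (rp a).2}) (nu A E).toNat

namespace ArcD

variable {A B : Hf g} {hv : Set (Cv g)} (X : ArcD A B hv)

/-- nonempty systems -/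
def T : Type := {ρ : Finset X.α // ρ.Nonempty ∧ X.Q ρ}

instance : PartialOrder X.T := inferInstanceAs (PartialOrder {ρ : Finset X.α // ρ.Nonempty ∧ X.Q ρ})

theorem hull_ex (hS1 : S1 g) (hAB : A ≤ B) (t : X.T) : ∃ H : Hf g, Chn B A t.1.card H ∧
    (∀ a ∈ t.1, H.E.S (X.rp a).1 (X.rp a).2) ∧
    (∀ Z : Hf g, A ≤ Z → (∀ a ∈ t.1, Z.E.S (X.rp a).1 (X.rp a).2) → H ≤ Z) ∧
    ((∀ c ∈ fr A, c ∉ hv) → 2 ≤ (t.1.card : ℤ) + (wz A - wz H)) := by
  classical
  have hI : IndW (ZZ A B) (t.1.toList.map X.rp) := indW_of X.rp (ZZ A B) t.1 (by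
    have := X.ind t.1 t.2.2
    intro a ha
    exact this a ha)
  obtain ⟨H, h1, h2, h3, h4⟩ := sys_chain hS1 bl B (t.1.toList.map X.rp) A hAB
    (by
      intro s hs
      rw [List.mem_map] at hs
      obtain ⟨a, ha, rfl⟩ := hs
      exact X.okc t.1 t.2.2 a (Finset.mem_toList.1 ha))
    (by
      intro s hs s' hs'
      rw [List.mem_map] at hs hs'
      obtain ⟨a, ha, rfl⟩ := hs
      obtain ⟨b, hb, rfl⟩ := hs'
      exact X.cmp t.1 t.2.2 a (Finset.mem_toList.1 ha) b (Finset.mem_toList.1 hb)) hI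
  rw [List.length_map, Finset.length_toList] at h1 h4
  refine ⟨H, h1, ?_, ?_, ?_⟩
  · intro a ha
    exact h2 _ (List.mem_map.2 ⟨a, Finset.mem_toList.2 ha, rfl⟩)
  · intro Z hZ hZa
    refine h3 Z hZ fun s hs => ?_
    rw [List.mem_map] at hs
    obtain ⟨a, ha, rfl⟩ := hs
    exact hZa a (Finset.mem_toList.1 ha)
  · intro hl
    obtain ⟨L, hL⟩ : ∃ L, t.1.toList.map X.rp = L := ⟨_, rfl⟩
    cases L with
    | nil =>
      exfalso
      rw [List.map_eq_nil_iff, Finset.toList_eq_nil] at hL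
      exact t.2.1.ne_empty hL
    | cons s L' =>
      refine h4 s L' hL ?_
      have hs : s ∈ t.1.toList.map X.rp := by
        rw [hL]
        simp
      rw [List.mem_map] at hs
      obtain ⟨a, ha, rfl⟩ := hs
      have ha' := Finset.mem_toList.1 ha
      rcases X.al t.1 t.2.2 a ha' with h5 | ⟨c, hc1, hc2⟩
      · exact h5
      · exfalso
        refine hl c ?_ hc1
        rw [mem_fr]
        refine ⟨_, gap_ln (X.okc t.1 t.2.2 a ha').p1 ?_, hc2⟩
        intro h6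
        have h7 := X.ind t.1 t.2.2 a ha'
        have h8 : evZ A B (X.rp a) = 0 := by
          ext ⟨f, hf⟩
          exact hf.2.1 _ _ (X.okc t.1 t.2.2 a ha').p1 h6
        refine h7 ?_
        simp only [h8]
        exact zero_mem _

/-- the hull -/
noncomputable def hu (hS1 : S1 g) (hAB : A ≤ B) (t : X.T) : Hf g := (X.hull_ex hS1 hAB t).choose

theorem hu_spec (hS1 : S1 g) (hAB : A ≤ B) (t : X.T) : Chn B A t.1.card (X.hu hS1 hAB t) ∧
    (∀ a ∈ t.1, (X.hu hS1 hAB t).E.S (X.rp a).1 (X.rp a).2) ∧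
    (∀ Z : Hf g, A ≤ Z → (∀ a ∈ t.1, Z.E.S (X.rp a).1 (X.rp a).2) → X.hu hS1 hAB t ≤ Z) ∧
    ((∀ c ∈ fr A, c ∉ hv) → 2 ≤ (t.1.card : ℤ) + (wz A - wz (X.hu hS1 hAB t))) :=
  (X.hull_ex hS1 hAB t).choose_spec

theorem hu_le_iff (hS1 : S1 g) (hAB : A ≤ B) (t : X.T) {E : Hf g} (hE : A ≤ E) :
    X.hu hS1 hAB t ≤ E ↔ ∀ a ∈ t.1, E.E.S (X.rp a).1 (X.rp a).2 := by
  obtain ⟨h1, h2, h3, -⟩ := X.hu_spec hS1 hAB t
  constructor
  · intro h a ha
    exact h.2 _ _ ((P_of_J h1.J).2 (X.okc t.1 t.2.2 a ha).p1) (h2 a ha)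
  · exact h3 E hE

open Classical in
/-- **the structure `ArcS`** -/
noncomputable def arcS (hS1 : S1 g) (hok : B ≤ Hf.tIso g A)
    (hcn : (slb (nums g)).Cn A B) : (slb (nums g)).ArcS A B hv where
  T := X.T
  po := inferInstance
  hu := X.hu hS1 hcn.1.le
  sz t := t.1.card
  mono s t hst := by
    refine (X.hu_spec hS1 hcn.1.le s).2.2.1 _ (X.hu_spec hS1 hcn.1.le t).1.le fun a ha => ?_
    exact (X.hu_spec hS1 hcn.1.le t).2.1 a (hst ha)
  sz_lt s t hst := Finset.card_lt_card (show s.1 ⊂ t.1 from hst)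
  sz_pos t := Finset.card_pos.2 t.2.1
  below t := by
    refine Ac_retract (P := {x : Finset X.α | x.Nonempty ∧ x ⊂ t.1}) (Q := {s : X.T | s < t})
      (fun x => if h : x.Nonempty ∧ X.Q x then ⟨x, h⟩ else t) (fun s => s.1) ?_ ?_ ?_ ?_ ?_ (TorH.sphere_ac t.1)
    · rintro x ⟨h1, h2⟩
      have h3 : x.Nonempty ∧ X.Q x := ⟨h1, X.mono x t.1 h2.subset t.2.2⟩
      simp only [dif_pos h3]
      exact h2
    · intro s hs
      exact ⟨s.2.1, hs⟩
    · rintro x ⟨h1, h2⟩ y ⟨h3, h4⟩ hxy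
      have h5 : x.Nonempty ∧ X.Q x := ⟨h1, X.mono x t.1 h2.subset t.2.2⟩
      have h6 : y.Nonempty ∧ X.Q y := ⟨h3, X.mono y t.1 h4.subset t.2.2⟩
      simp only [dif_pos h5, dif_pos h6]
      exact hxy
    · intro x _ y _ hxy
      exact hxy
    · intro s _
      simp only [dif_pos s.2]
      rfl
  ac E hAE hEB hP := by
    have h0 := X.ac E hAE hEB hP
    by_cases hne : ∃ t : X.T, True
    · obtain ⟨t0, -⟩ := hne
      refine Ac_retract (P := {ρ : Finset X.α | ρ.Nonempty ∧ X.Q ρ ∧ ∀ a ∈ ρ, E.E.S (X.rp a).1 (X.rp a).2})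
        (Q := {t : X.T | X.hu hS1 hcn.1.le t ≤ E})
        (fun x => if h : x.Nonempty ∧ X.Q x then ⟨x, h⟩ else t0) (fun s => s.1) ?_ ?_ ?_ ?_ ?_ h0
      · rintro x ⟨h1, h2, h3⟩
        have h4 : x.Nonempty ∧ X.Q x := ⟨h1, h2⟩
        simp only [dif_pos h4]
        exact (X.hu_le_iff hS1 hcn.1.le ⟨x, h4⟩ hAE.le).2 h3
      · intro s hs
        exact ⟨s.2.1, s.2.2, (X.hu_le_iff hS1 hcn.1.le s hAE.le).1 hs⟩
      · rintro x ⟨h1, h2, -⟩ y ⟨h3, h4, -⟩ hxy
        have h5 : x.Nonempty ∧ X.Q x := ⟨h1, h2⟩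
        have h6 : y.Nonempty ∧ X.Q y := ⟨h3, h4⟩
        simp only [dif_pos h5, dif_pos h6]
        exact hxy
      · intro x _ y _ hxy
        exact hxy
      · intro s _
        simp only [dif_pos s.2]
        rfl
    · have e1 : {ρ : Finset X.α | ρ.Nonempty ∧ X.Q ρ ∧ ∀ a ∈ ρ, E.E.S (X.rp a).1 (X.rp a).2} = ∅ := by
        ext ρ
        simp only [Set.mem_ofPred_eq, Set.mem_empty_iff_false, iff_false]
        rintro ⟨h1, h2, -⟩
        exact hne ⟨⟨ρ, h1, h2⟩, trivial⟩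
      have hT : IsEmpty X.T := ⟨fun t => hne ⟨t, trivial⟩⟩
      rw [e1] at h0
      have e2 : {t : X.T | X.hu hS1 hcn.1.le t ≤ E} = ∅ := Set.eq_empty_of_isEmpty _
      rw [e2]
      have h1 : (nu A E).toNat = 0 := ac_empty h0
      show Ac (Po ∅) (nu A E).toNat
      rw [h1]
      exact Ac_zero _
  lt t := by
    obtain ⟨n, hn⟩ : ∃ n, t.1.card = n + 1 := ⟨t.1.card - 1, by
      have := Finset.card_pos.2 t.2.1
      omega⟩
    have h1 := (X.hu_spec hS1 hcn.1.le t).1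
    rw [hn] at h1
    exact h1.lt
  le t := (X.hu_spec hS1 hcn.1.le t).1.leB hcn.1.le
  pp t := by
    obtain ⟨h1, h2, h3, -⟩ := X.hu_spec hS1 hcn.1.le t
    exact hull_pp ((h1.leB hcn.1.le).trans hok) h1.le {a | a ∈ t.1} X.rp
      (fun a ha => (X.okc t.1 t.2.2 a ha).p1) (fun a ha => (X.okc t.1 t.2.2 a ha).p2)
      (fun a ha => (X.okc t.1 t.2.2 a ha).flt) h2 h3 (X.al t.1 t.2.2)
  num t := (X.hu_spec hS1 hcn.1.le t).1.num (dnSub_of bl mv) hcn.1.le
  light hl t := (X.hu_spec hS1 hcn.1.le t).1.light (dnSub_of bl mv) hcn.1.le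
    ((X.hu_spec hS1 hcn.1.le t).2.2.2 hl)
  top t := by
    have hJ : B.J ≤ A.J + 1 := by
      have := Hf.J_le hok
      rwa [J_tIso] at this
    rcases (X.hu_spec hS1 hcn.1.le t).1.top (dnSub_of bl mv)
      (fun A B h => by
        have h1 := c1a h
        have e : fr A ∩ fr B = (fr A).filter fun c => c ∈ fr B := by
          ext c
          simp
        rw [e] at h1
        exact h1)
      (fun A B z h1 h2 h3 => by
        have h4 := c1b h1 h2 (fun c hc => Finset.mem_union.2 (h3 c hc))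
        have e : fr A ∩ fr B = (fr A).filter fun c => c ∈ fr B := by
          ext c
          simp
        rw [e] at h4
        exact h4)
      (fun A B h1 hJ' h2 => by
        have h4 := c1c' h1.le hJ' (fun z h3 h4 h5 => h2 z h3 h4 fun c hc => Finset.mem_union.1 (h5 hc))
        have e : fr A ∩ fr B = (fr A).filter fun c => c ∈ fr B := by
          ext c
          simp
        rw [e] at h4
        exact h4) hcn.1 hJ
      (fun z h1 h2 h3 => by
        rcases hcn.2 z ⟨h1.le, h2.le, fun c hc => Finset.mem_union.2 (h3 c hc)⟩ with h4 | h4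
        · exact h1.ne' h4
        · exact h2.ne h4) with h | ⟨h1, h2, h3⟩
    · exact Or.inl h
    · refine Or.inr ⟨⟨h1, fun z hz => ?_⟩, h3⟩
      by_contra hcon
      rw [not_or] at hcon
      exact h2 z (lt_of_le_of_ne hz.1 (Ne.symm hcon.1)) (lt_of_le_of_ne hz.2.1 hcon.2)
        fun c hc => Finset.mem_union.1 (hz.2.2 hc)

end ArcD

open Classical in
/-- **HN from the single arc lemma and the arc complexes** -/
theorem hn_of (hS1 : S1 g)
    (hX : ∀ (A B : Hf g) (hv : Set (Cv g)), B ≤ Hf.tIso g A → (slb (nums g)).Cn A B →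
      1 ≤ (fr B \ fr A).card → TorT.Wt hv (fr A \ fr B) → Nonempty (ArcD A B hv)) : (slb (nums g)).HN := by
  intro A B hv hok hcn hp hw
  obtain ⟨X⟩ := hX A B hv hok hcn hp hw
  exact ⟨X.arcS hS1 hok hcn⟩

end TorN
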