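import Pool.Agent.Lib.MP_05cdf2_gt.N6.NDef

/-!
# The cochains of a slab are finite dimensional
-/

namespace TorN

open TorM TorG TorL

variable {g : ℕ} [NeZero g]

theorem mk_cons' (l : Ltr g) (L : List (Ltr g)) : (FreeGroup.mk (l :: L) : F g) = le l * FreeGroup.mk L := by
  show FreeGroup.mk (l :: L) = FreeGroup.mk [l] * FreeGroup.mk L
  rw [FreeGroup.mul_mk]
  rfl

/-- values on translates of a path: only the level counts -/
theorem cc_lev {c : F g → F g → ℚ} (hc : c ∈ CC g) {x y : F g} (h : ph x = ph y) (w : F g) :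
    c x (x * w) = c y (y * w) := by
  have h1 := cc_K hc (k := y * x⁻¹) (by rw [ph_mul, ph_inv, h, add_neg_cancel]) x (x * w)
  rw [← h1]
  congr 1 <;> group

/-- a cochain is zero if it is zero on the edges -/
theorem cc_edge {c : F g → F g → ℚ} (hc : c ∈ CC g) (h : ∀ (x : F g) (l : Ltr g), c x (x * le l) = 0) : c = 0 := by
  have key : ∀ (L : List (Ltr g)) (x : F g), c x (x * FreeGroup.mk L) = 0 := by
    intro L
    induction L with
    | nil =>
      intro x
      have : (FreeGroup.mk [] : F g) = 1 := rfl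
      rw [this, mul_one, cc_self hc]
    | cons l L ih =>
      intro x
      rw [mk_cons', ← mul_assoc, ← cc_add hc x (x * le l), h, ih, add_zero]
  funext x y
  have h1 := key (x⁻¹ * y).toWord x
  rw [FreeGroup.mk_toWord, mul_inv_cancel_left] at h1
  exact h1

theorem zz_far (A B : Hf g) : ∃ N : ℤ, 0 ≤ N ∧ ∀ c ∈ ZZ A B, ∀ (x : F g) (l : Ltr g), N ≤ |ph x| →
    c x (x * le l) = 0 := by
  obtain ⟨M, hM⟩ := A.lo
  obtain ⟨M', hM'⟩ := B.hi
  refine ⟨|M| + |A.J| + |M'| + |B.J| + 2, by positivity, fun c hc x l hx => ?_⟩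
  have h1 := ph_le l
  have h2 : ph (x * le l) = ph x + ph (le l) := ph_mul _ _
  have a1 := abs_nonneg M
  have a2 := abs_nonneg A.J
  have a3 := abs_nonneg M'
  have a4 := abs_nonneg B.J
  have b1 := neg_abs_le M
  have b2 := neg_abs_le A.J
  have b3 := le_abs_self M'
  have b4 := le_abs_self B.J
  rcases le_total 0 (ph x) with h0 | h0
  · rw [abs_of_nonneg h0] at hx
    refine hc.2.2 _ _ ?_ (hM' x l (by omega) (by omega))
    rw [B.lev]
    omega
  · rw [abs_of_nonpos h0] at hx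
    refine hc.2.1 _ _ ?_ (hM x l (by omega) (by omega))
    rw [A.lev]
    omega

instance ZZ_fd (A B : Hf g) : Module.Finite ℚ (ZZ A B) := by
  obtain ⟨N, -, hN⟩ := zz_far A B
  let ev : ZZ A B →ₗ[ℚ] (Finset.Ioo (-N) N × Ltr g → ℚ) :=
    { toFun := fun c p => c.1 (t0 ^ (p.1 : ℤ)) (t0 ^ (p.1 : ℤ) * le p.2)
      map_add' := fun _ _ => rfl
      map_smul' := fun _ _ => rfl }
  refine Module.Finite.of_injective ev ?_
  rw [injective_iff_map_eq_zero]
  intro c hc
  refine Subtype.ext (cc_edge c.2.1 fun x l => ?_)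
  by_cases h : N ≤ |ph x|
  · exact hN c.1 c.2 x l h
  · have h1 : |ph x| < N := not_le.1 h
    rw [abs_lt] at h1
    have h2 := congrFun hc (⟨ph x, Finset.mem_Ioo.2 h1⟩, l)
    rw [cc_lev c.2.1 (y := t0 ^ ph x) (by rw [ph_zpow, ph_t0, mul_one])]
    exact h2

theorem fd_of_le {A B : Hf g} {W : Submodule ℚ (F g → F g → ℚ)} (h : W ≤ ZZ A B) : Module.Finite ℚ W :=
  Submodule.finiteDimensional_of_le h

instance SS_fd (A B : Hf g) : Module.Finite ℚ (SS A B) := by
  haveI : Module.Finite ℚ (MM A B) := fd_of_le (MM_le_ZZ A B)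
  unfold SS
  infer_instance

end TorN
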