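import Pool.Agent.Lib.MP_05cdf2_gt.N6.NFd
import Pool.Agent.Lib.MP_05cdf2_gt.L.Base

/-!
# The dimension of the cochains between two translates of the base half space: a lower bound
-/

namespace TorN

open TorM TorG TorL

open scoped commutatorElement

variable {g : ℕ} [NeZero g]

/-! ## Cochains with given values on the edges -/

/-- one step -/
noncomputable def sg (v : ℤ → Gen g → ℚ) (s : Gen g) : Equiv.Perm (ℤ × ℚ) where
  toFun p := (p.1 + ph (FreeGroup.of s), p.2 + v p.1 s)
  invFun p := (p.1 - ph (FreeGroup.of s), p.2 - v (p.1 - ph (FreeGroup.of s)) s)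
  left_inv p := by
    show (p.1 + ph (FreeGroup.of s) - ph (FreeGroup.of s), p.2 + v p.1 s -
      v (p.1 + ph (FreeGroup.of s) - ph (FreeGroup.of s)) s) = p
    rw [add_sub_cancel_right, add_sub_cancel_right]
  right_inv p := by
    show (p.1 - ph (FreeGroup.of s) + ph (FreeGroup.of s), p.2 - v (p.1 - ph (FreeGroup.of s)) s +
      v (p.1 - ph (FreeGroup.of s)) s) = p
    rw [sub_add_cancel, sub_add_cancel]

/-- walks -/
noncomputable def Ps (v : ℤ → Gen g → ℚ) : F g →* Equiv.Perm (ℤ × ℚ) := FreeGroup.lift fun s => (sg v s)⁻¹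

/-- the value along a word starting at level `n` -/
noncomputable def ps (v : ℤ → Gen g → ℚ) (w : F g) (n : ℤ) : ℚ := ((Ps v w)⁻¹ (n, 0)).2

theorem Ps_apply (v : ℤ → Gen g → ℚ) (w : F g) : ∀ (n : ℤ) (q : ℚ),
    (Ps v w)⁻¹ (n, q) = (n + ph w, q + ps v w n) := by
  have key : ∀ w : F g, (∃ f : ℤ → ℚ, ∀ (n : ℤ) (q : ℚ), (Ps v w)⁻¹ (n, q) = (n + ph w, q + f n)) := by
    intro w
    induction w using FreeGroup.induction_on with
    | C1 =>
      refine ⟨fun _ => 0, fun n q => ?_⟩
      rw [map_one, inv_one, ph_one, add_zero, add_zero]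
      rfl
    | of s =>
      refine ⟨fun n => v n s, fun n q => ?_⟩
      show (Ps v (FreeGroup.of s))⁻¹ (n, q) = _
      unfold Ps
      rw [FreeGroup.lift_apply_of, _root_.inv_inv]
      rfl
    | inv_of s _ =>
      refine ⟨fun n => - v (n - ph (FreeGroup.of s)) s, fun n q => ?_⟩
      show (Ps v (FreeGroup.of s)⁻¹)⁻¹ (n, q) = (n + ph ((FreeGroup.of s)⁻¹ : F g), _)
      unfold Ps
      rw [map_inv, FreeGroup.lift_apply_of, _root_.inv_inv, ph_inv, ← sub_eq_add_neg, ← sub_eq_add_neg]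
      rfl
    | mul a b ha hb =>
      obtain ⟨f, hf⟩ := ha
      obtain ⟨h, hh⟩ := hb
      refine ⟨fun n => f n + h (n + ph a), fun n q => ?_⟩
      rw [map_mul, mul_inv_rev, Equiv.Perm.mul_apply, hf, hh, ph_mul]
      refine Prod.ext ?_ ?_
      · show n + ph a + ph b = n + (ph a + ph b)
        ring
      · show q + f n + h (n + ph a) = q + (f n + h (n + ph a))
        ring
  obtain ⟨f, hf⟩ := key w
  intro n q
  unfold ps
  rw [hf, hf]
  simp

theorem ps_mul (v : ℤ → Gen g → ℚ) (a b : F g) (n : ℤ) : ps v (a * b) n = ps v a n + ps v b (n + ph a) := by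
  have h1 : (Ps v (a * b))⁻¹ (n, 0) = (Ps v b)⁻¹ ((Ps v a)⁻¹ (n, 0)) := by
    rw [map_mul, mul_inv_rev, Equiv.Perm.mul_apply]
  rw [Ps_apply, Ps_apply, Ps_apply] at h1
  have h2 := congrArg Prod.snd h1
  simpa using h2

theorem ps_one (v : ℤ → Gen g → ℚ) (n : ℤ) : ps v 1 n = 0 := by
  unfold ps
  rw [map_one, inv_one]
  rfl

theorem ps_of (v : ℤ → Gen g → ℚ) (s : Gen g) (n : ℤ) : ps v (FreeGroup.of s) n = v n s := by
  unfold ps Ps
  rw [FreeGroup.lift_apply_of, _root_.inv_inv]
  show 0 + v n s = v n s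
  rw [zero_add]

theorem ps_inv (v : ℤ → Gen g → ℚ) (a : F g) (n : ℤ) : ps v a⁻¹ n = - ps v a (n - ph a) := by
  have h := ps_mul v a a⁻¹ (n - ph a)
  rw [mul_inv_cancel, ps_one, sub_add_cancel] at h
  linarith

/-- the cochain with given values on the edges -/
noncomputable def cw (v : ℤ → Gen g → ℚ) (x y : F g) : ℚ := ps v (x⁻¹ * y) (ph x)

theorem cw_of (v : ℤ → Gen g → ℚ) (x : F g) (s : Gen g) : cw v x (x * FreeGroup.of s) = v (ph x) s := by
  unfold cw
  rw [inv_mul_cancel_left, ps_of]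

theorem ph_inl (i : Fin g) : ph (FreeGroup.of (Sum.inl i) : F g) = 0 := by
  unfold ph
  rw [abv_of, Pi.single_apply, if_neg (by simp)]

theorem ph_inr (i : Fin g) (hi : i ≠ 0) : ph (FreeGroup.of (Sum.inr i) : F g) = 0 := by
  unfold ph
  rw [abv_of, Pi.single_apply, if_neg]
  intro h
  exact hi (Sum.inr_injective h).symm

theorem ps_comm {v : ℤ → Gen g → ℚ} (hv : ∀ n, v n (Sum.inl 0) = 0) (i : Fin g) (n : ℤ) :
    ps v ⁅FreeGroup.of (Sum.inl i : Gen g), FreeGroup.of (Sum.inr i)⁆ n = 0 := by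
  rw [commutatorElement_def, ps_mul, ps_mul, ps_mul, ps_inv, ps_inv, ps_of, ps_of, ps_of, ps_of]
  simp only [ph_mul, ph_inv, ph_inl, add_zero, neg_zero, sub_zero]
  by_cases hi : i = 0
  · subst hi
    rw [hv, hv]
    simp
  · rw [ph_inr i hi]
    simp

theorem ps_zeta {v : ℤ → Gen g → ℚ} (hv : ∀ n, v n (Sum.inl 0) = 0) (n : ℤ) : ps v (zeta g) n = 0 := by
  have key : ∀ (L : List (Fin g)) (n : ℤ),
      ps v ((L.map fun i => ⁅FreeGroup.of (Sum.inl i : Gen g), FreeGroup.of (Sum.inr i)⁆).prod) n = 0 := by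
    intro L
    induction L with
    | nil =>
      intro n
      rw [List.map_nil, List.prod_nil, ps_one]
    | cons i L ih =>
      intro n
      rw [List.map_cons, List.prod_cons, ps_mul, ps_comm hv, ih, add_zero]
  exact key _ n

theorem cw_mem {v : ℤ → Gen g → ℚ} (hv : ∀ n, v n (Sum.inl 0) = 0) : cw v ∈ CC g := by
  refine ⟨fun x y z => ?_, fun k hk x y => ?_, fun x => ?_⟩
  · unfold cw
    have e : x⁻¹ * z = (x⁻¹ * y) * (y⁻¹ * z) := by group
    have e2 : ph x + ph (x⁻¹ * y) = ph y := by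
      rw [ph_mul, ph_inv]
      ring
    rw [e, ps_mul v (x⁻¹ * y) (y⁻¹ * z), e2]
  · unfold cw
    have e : (k * x)⁻¹ * (k * y) = x⁻¹ * y := by group
    rw [e, ph_mul, hk, zero_add]
  · unfold cw
    rw [inv_mul_cancel_left, ps_zeta hv]

/-! ## The relation of the base half space along words -/

/-- first exit along a word -/
theorem exit_word (A : Set (F g)) : ∀ (L : List (Ltr g)) (z : F g), z ∈ A → z * FreeGroup.mk L ∉ A →
    ∃ L1 m L2, L = L1 ++ m :: L2 ∧ z * FreeGroup.mk L1 ∈ A ∧ z * FreeGroup.mk L1 * le m ∉ A := by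
  intro L
  induction L with
  | nil =>
    intro z hz h
    have : (FreeGroup.mk [] : F g) = 1 := rfl
    rw [this, mul_one] at h
    exact (h hz).elim
  | cons l L ih =>
    intro z hz h
    by_cases h1 : z * le l ∈ A
    · rw [mk_cons', ← mul_assoc] at h
      obtain ⟨L1, m, L2, h2, h3, h4⟩ := ih _ h1 h
      refine ⟨l :: L1, m, L2, by rw [h2]; rfl, ?_, ?_⟩
      · rw [mk_cons', ← mul_assoc]
        exact h3
      · rw [mk_cons', ← mul_assoc]
        exact h4
    · have e : (FreeGroup.mk [] : F g) = 1 := rfl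
      exact ⟨[], l, L, rfl, by rw [e, mul_one]; exact hz, by rw [e, mul_one]; exact h1⟩

theorem lev_of_tr {h x : F g} (H : tr h (D0 g) = tr x (D0 g)) : ph h = ph x := by
  have h1 : (D0 g) ∈ L0 g := mem_orbK_self _
  have h2 : h⁻¹ * x ∈ stD (D0 g) := by
    rw [mem_stD, ← tr_tr, ← H, tr_tr, inv_mul_cancel, tr_one]
  have h3 := (L0_fam.kcut h1).st h2
  rw [ph_mul, ph_inv] at h3
  omega

theorem bs_edge {x : F g} {l : Ltr g} (h1 : l = lB g → ph x ≠ 0) (h2 : l = TorM.inv (lB g) → ph (x * le l) ≠ 0) :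
    ∀ D ∈ L0 g, (x ∈ D ↔ x * le l ∈ D) := by
  rintro D ⟨k, hk, rfl⟩
  by_contra h
  rcases D0_edge h with ⟨h3, h4⟩ | ⟨h3, h4⟩
  · exact h1 h3 (by rw [← lev_of_tr h4, hk])
  · exact h2 h3 (by rw [← lev_of_tr h4, hk])

theorem ph_inv_lB : ph (le (TorM.inv (lB g)) : F g) = 1 := by
  rw [le_inv, ph_inv, ph_lB, neg_neg]

/-- an edge between the sides of level `-1` -/
theorem lev_edge {x : F g} {l : Ltr g} (h1 : ph x ≤ -1) (h2 : ¬ ph (x * le l) ≤ -1) :
    l = TorM.inv (lB g) ∧ ph x = -1 := by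
  rw [ph_mul] at h2
  have h3 : 0 < ph (le l : F g) := by omega
  have h4 := ph_le (l := l)
  obtain ⟨s, b⟩ := l
  have e : ph (le (s, b) : F g) = if b then ph (FreeGroup.of s : F g) else - ph (FreeGroup.of s : F g) := by
    cases b
    · rw [if_neg (by simp), ← ph_inv]
      rfl
    · rw [if_pos rfl]
      rfl
  rcases s with i | i
  · rw [e, ph_inl] at h3
    cases b <;> simp at h3
  · by_cases hi : i = 0
    · subst hi
      have e2 : ph (FreeGroup.of (Sum.inr 0) : F g) = 1 := ph_t0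
      rw [e, e2] at h3 h4
      cases b
      · simp at h3
      · exact ⟨rfl, by simp at h2 h4; rw [e, e2] at h2; simp at h2; omega⟩
    · rw [e, ph_inr i hi] at h3
      cases b <;> simp at h3

theorem aa_zpow_low {c : F g → F g → ℚ} (hc : c ∈ CC g) (h : ∀ z : F g, c z (z * aa) = 0) (z : F g) (k : ℤ) :
    c z (z * aa ^ k) = 0 := by
  induction k using Int.induction_on with
  | zero => rw [zpow_zero, mul_one, cc_self hc]
  | succ n ih =>
    rw [zpow_add_one, ← mul_assoc, ← cc_add hc z (z * aa ^ (n : ℤ)), ih, h, add_zero]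
  | pred n ih =>
    have h1 := h (z * aa ^ (-(n : ℤ) - 1))
    rw [mul_assoc, ← zpow_add_one, sub_add_cancel] at h1
    have h2 := cc_add hc z (z * aa ^ (-(n : ℤ) - 1)) (z * aa ^ (-(n : ℤ)))
    rw [h1, ih, add_zero] at h2
    exact h2

theorem low_aux {c : F g → F g → ℚ} (hc : c ∈ CC g) (ha : ∀ z : F g, c z (z * aa) = 0)
    (hl : ∀ (z : F g) (l : Ltr g), ph z ≤ -1 ∨ ph (z * le l) ≤ -1 → c z (z * le l) = 0) :
    ∀ (n : ℕ) (L : List (Ltr g)) (x : F g), L.length ≤ n → ph x ≤ -1 →
      RL (-1) (L0 g) x (x * FreeGroup.mk L) → c x (x * FreeGroup.mk L) = 0 := by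
  intro n
  induction n with
  | zero =>
    intro L x hL _ _
    have : L = [] := List.eq_nil_of_length_eq_zero (by omega)
    subst this
    have e : (FreeGroup.mk [] : F g) = 1 := rfl
    rw [e, mul_one, cc_self hc]
  | succ n ih =>
    intro L x hL hx hS
    rcases L with _ | ⟨l, L⟩
    · have e : (FreeGroup.mk [] : F g) = 1 := rfl
      rw [e, mul_one, cc_self hc]
    · have hL' : L.length ≤ n := by
        rw [List.length_cons] at hL
        omega
      rw [mk_cons', ← mul_assoc] at hS ⊢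
      by_cases h1 : ph (x * le l) ≤ -1
      · have h2 : RL (-1) (L0 g) x (x * le l) :=
          ⟨iff_of_true hx h1, bs_edge (fun _ => by omega) (fun _ => by omega)⟩
        rw [← cc_add hc x (x * le l), hl x l (Or.inl hx), ih L _ hL' h1 (h2.symm.trans hS), add_zero]
      · obtain ⟨h2, h3⟩ := lev_edge hx h1
        have h4 : ph (x * le l) = 0 := by
          rw [ph_mul, h2, ph_inv_lB, h3]
          norm_num
        have h5 : x = x * le l * le (lB g) := by rw [h2, le_inv, inv_mul_cancel_right]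
        set z := x * le l with hz
        have hzD : tr z (D0 g) ∈ L0 g := ⟨z, h4, rfl⟩
        have h6 : x ∉ tr z (D0 g) := by
          rw [h5]
          exact (D0_self z).2
        have h7 : z * FreeGroup.mk L ∉ tr z (D0 g) := fun h => h6 ((hS.2 _ hzD).2 h)
        obtain ⟨L1, m, L2, h8, h9, h10⟩ := exit_word _ L z (D0_self z).1 h7
        rw [mem_tr, inv_mul_cancel_left] at h9
        rw [mem_tr, mul_assoc, inv_mul_cancel_left] at h10
        obtain ⟨⟨k, hk⟩, hm⟩ := B0_edge (x := FreeGroup.mk L1) (l := m) h9 (not_not.1 h10)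
        have e1 : (FreeGroup.mk L : F g) = aa ^ k * le (lB g) * FreeGroup.mk L2 := by
          rw [h8, ← FreeGroup.mul_mk, mk_cons', hk, hm, mul_assoc]
        have hw : ph (z * aa ^ k * le (lB g)) = -1 := by
          rw [ph_mul, ph_mul, h4, ph_zpow, ph_aa, ph_lB]
          norm_num
        have hst : tr (z * aa ^ k) (D0 g) = tr z (D0 g) := by
          rw [← tr_tr, mem_stD.1 (aa_st' k)]
        have h11 : RL (-1) (L0 g) x (z * aa ^ k * le (lB g)) := by
          refine ⟨iff_of_true hx (by omega), ?_⟩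
          intro D hD
          by_cases hDz : D = tr z (D0 g)
          · rw [hDz]
            refine iff_of_false h6 ?_
            rw [← hst]
            exact (D0_self (z * aa ^ k)).2
          · obtain ⟨k', hk', rfl⟩ := hD
            have a1 : z ∈ tr k' (D0 g) ↔ x ∈ tr k' (D0 g) := by
              by_contra h
              rw [h5] at h
              rcases D0_edge h with ⟨-, h13⟩ | ⟨h12, -⟩
              · exact hDz h13
              · exact rk_inv_ne (lB g) (by rw [← h12])
            have a2 : z ∈ tr k' (D0 g) ↔ z * aa ^ k ∈ tr k' (D0 g) := pow_mem_iff (D0_aa k') z k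
            have a3 : z * aa ^ k ∈ tr k' (D0 g) ↔ z * aa ^ k * le (lB g) ∈ tr k' (D0 g) := by
              by_contra h
              rcases D0_edge h with ⟨-, h13⟩ | ⟨h12, -⟩
              · exact hDz (h13.trans hst)
              · exact rk_inv_ne (lB g) (by rw [← h12])
            rw [← a1, a2, a3]
        have e2 : z * FreeGroup.mk L = z * aa ^ k * le (lB g) * FreeGroup.mk L2 := by
          rw [e1]
          simp only [mul_assoc]
        rw [e2] at hS ⊢
        have hL2 : L2.length ≤ n := by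
          rw [h8, List.length_append, List.length_cons] at hL'
          omega
        have b1 := ih L2 _ hL2 hw.le (h11.symm.trans hS)
        have b2 : c x z = 0 := hl x l (Or.inl hx)
        have b3 : c z (z * aa ^ k) = 0 := aa_zpow_low hc ha z k
        have b4 : c (z * aa ^ k) (z * aa ^ k * le (lB g)) = 0 := hl _ _ (Or.inr hw.le)
        rw [← cc_add hc x z, b2, zero_add, ← cc_add hc z (z * aa ^ k), b3, zero_add,
          ← cc_add hc (z * aa ^ k) (z * aa ^ k * le (lB g)), b4, zero_add, b1]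

theorem low_rel {c : F g → F g → ℚ} (hc : c ∈ CC g) (ha : ∀ z : F g, c z (z * aa) = 0)
    (hl : ∀ (z : F g) (l : Ltr g), ph z ≤ -1 ∨ ph (z * le l) ≤ -1 → c z (z * le l) = 0)
    {x y : F g} (hx : ph x ≤ -1) (hS : (bs g).E.S x y) : c x y = 0 := by
  have h := low_aux hc ha hl (x⁻¹ * y).toWord.length (x⁻¹ * y).toWord x le_rfl hx
  rw [FreeGroup.mk_toWord, mul_inv_cancel_left] at h
  exact h hS

theorem aa_zpow_word (k : ℤ) : ∀ l ∈ (aa ^ k : F g).toWord, l = lA g ∨ l = lC g := by
  intro l hl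
  obtain ⟨n, rfl | rfl⟩ := k.eq_nat_or_neg
  · rw [zpow_natCast] at hl
    have h2 : (aa : F g) ^ n = le (lA g) ^ n := rfl
    rw [h2, toWord_pow] at hl
    exact Or.inl (List.eq_of_mem_replicate hl)
  · rw [zpow_neg, zpow_natCast, ← inv_pow, ← le_lC, toWord_pow] at hl
    exact Or.inr (List.eq_of_mem_replicate hl)

theorem high_aux {c : F g → F g → ℚ} (hc : c ∈ CC g)
    (hl : ∀ (z : F g) (l : Ltr g), 0 ≤ ph z → 0 ≤ ph (z * le l) → c z (z * le l) = 0) :
    ∀ (L : List (Ltr g)) (x : F g), FreeGroup.IsReduced L → 0 ≤ ph x →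
      RL (-1) (L0 g) x (x * FreeGroup.mk L) → c x (x * FreeGroup.mk L) = 0 := by
  intro L
  induction L with
  | nil =>
    intro x _ _ _
    have e : (FreeGroup.mk [] : F g) = 1 := rfl
    rw [e, mul_one, cc_self hc]
  | cons l L ih =>
    intro x hred hx hS
    have hredL : FreeGroup.IsReduced L := redSub hred ⟨[l], [], by simp⟩
    rw [mk_cons', ← mul_assoc] at hS ⊢
    by_cases h1 : 0 ≤ ph (x * le l)
    · have h2 : RL (-1) (L0 g) x (x * le l) := by
        refine ⟨iff_of_false (by omega) (by omega), bs_edge (fun hh => ?_) (fun hh => ?_)⟩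
        · rw [ph_mul, hh, ph_lB] at h1
          omega
        · intro h3
          rw [ph_mul, hh, ph_inv_lB] at h3
          omega
      rw [← cc_add hc x (x * le l), hl x l hx h1, ih _ hredL h1 (h2.symm.trans hS), add_zero]
    · exfalso
      have h1' : ph (x * le l) ≤ -1 := by omega
      have h2 := lev_edge (x := x * le l) (l := TorM.inv l) h1' (by
        rw [le_inv, mul_inv_cancel_right]
        omega)
      have h3 : l = lB g := by
        have := congrArg TorM.inv h2.1
        rwa [TorM.inv_inv, TorM.inv_inv] at this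
      subst h3
      have h4 : ph x = 0 := by
        have := h2.2
        rw [ph_mul, ph_lB] at this
        omega
      have hxD : tr x (D0 g) ∈ L0 g := ⟨x, h4, rfl⟩
      have h5 : x * le (lB g) * FreeGroup.mk L ∈ tr x (D0 g) := (hS.2 _ hxD).1 (D0_self x).1
      obtain ⟨L1, m, L2, h8, h9, h10⟩ := exit_word (tr x (D0 g))ᶜ L (x * le (lB g)) (D0_self x).2
        (fun h => h h5)
      have h10' : x * le (lB g) * FreeGroup.mk L1 * le m ∈ tr x (D0 g) := not_not.1 h10
      have h9' : x * le (lB g) * FreeGroup.mk L1 ∉ tr x (D0 g) := h9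
      rw [mem_tr] at h10'
      rw [mem_tr] at h9'
      have e1 : x⁻¹ * (x * le (lB g) * FreeGroup.mk L1 * le m) = le (lB g) * FreeGroup.mk L1 * le m := by group
      have e2 : x⁻¹ * (x * le (lB g) * FreeGroup.mk L1) =
          le (lB g) * FreeGroup.mk L1 * le m * le (TorM.inv m) := by
        rw [le_inv]
        group
      rw [e1] at h10'
      rw [e2] at h9'
      obtain ⟨⟨k, hk⟩, -⟩ := B0_edge h10' (not_not.1 h9')
      have e3 : (le (lB g) * FreeGroup.mk L1 * le m : F g) = FreeGroup.mk (lB g :: L1 ++ [m]) := by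
        rw [← FreeGroup.mul_mk, mk_cons']
      have hr : FreeGroup.IsReduced (lB g :: L1 ++ [m]) := by
        refine redSub hred ⟨[], L2, ?_⟩
        rw [h8]
        simp
      have h11 := exita_toWord_mk hr
      rw [← e3, hk] at h11
      have h12 := aa_zpow_word (g := g) k (lB g) (by rw [h11]; simp)
      rcases h12 with h12 | h12
      · exact lA_ne_lB h12.symm
      · exact lC_ne_lB h12.symm

theorem high_rel {c : F g → F g → ℚ} (hc : c ∈ CC g)
    (hl : ∀ (z : F g) (l : Ltr g), 0 ≤ ph z → 0 ≤ ph (z * le l) → c z (z * le l) = 0)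
    {x y : F g} (hx : 0 ≤ ph x) (hS : (bs g).E.S x y) : c x y = 0 := by
  have h := high_aux hc hl (x⁻¹ * y).toWord x FreeGroup.isReduced_toWord hx
  rw [FreeGroup.mk_toWord, mul_inv_cancel_left] at h
  exact h hS

end TorN
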