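import Pool.Agent.Lib.MP_05cdf2_gt.N6.NSys
import Pool.Agent.Lib.MP_05cdf2_gt.N6.NNum
import Pool.Agent.Lib.MP_05cdf2_gt.H.HLin

/-!
# Hulls of systems of allowed arcs have components of weight at least two
-/

namespace TorN

open TorM TorG TorL Module

variable {g : ℕ} [NeZero g]

/-- the lines of `A` which separate the ends of a flat chord -/
theorem line_out {A : Hf g} {s : F g × F g} (hf : Flt A s) {G : Set (F g)} (hG : Ln A.E G)
    (h1 : s.1 ∉ G) (h2 : s.2 ∈ G) : G = gap A.E s.1 s.2 := by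
  obtain ⟨k, l, hkl, hk, -⟩ := hG.adj
  have e := hkl.eq_gap_of_mem A.lf hG.1 h2
  have hks : ¬ A.E.S k s.2 := fun h => hkl.out ((hG.1.sat _ _ h).2 h2)
  have hk1 : A.E.S k s.1 := by
    by_contra hn
    have h3 : s.1 ∉ gap A.E k s.2 := e ▸ h1
    have h4 : ∃ a b, A.E.S k a ∧ A.E.S k b ∧ Cr a b s.2 s.1 := by
      by_contra h5
      push Not at h5
      exact h3 ⟨hn, fun a b ha hb => h5 a b ha hb⟩
    obtain ⟨a, b, ha, hb, hcr⟩ := h4
    rcases hf a b (GP.trans (GP.symm ha) hb) ((A.E.col ha).1 hk) (cr_swap2.1 hcr) with h5 | h5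
    · exact hn (GP.trans ha h5)
    · exact hks (GP.trans ha h5)
  rw [e, gap_class hk1]

theorem line_in {A : Hf g} {s : F g × F g} (hf : Flt A s) {G : Set (F g)} (hG : Ln A.E G)
    (h1 : s.1 ∈ G) (h2 : s.2 ∉ G) : G = gap A.E s.2 s.1 := by
  have hf' : Flt A (s.2, s.1) := by
    intro a b hab ha hcr
    exact (hf a b hab ha (cr_swap2.1 hcr)).symm
  exact line_out hf' hG h2 h1

theorem gap_ln {A : Hf g} {x y : F g} (hx : x ∈ A.E.P) (hxy : ¬ A.E.S x y) : Ln A.E (gap A.E x y) :=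
  ln_gap A.lf hx hxy

/-- two low points are separated by the same number of lines in both directions -/
theorem two_lines {z : Hf g} {x y : F g} (hx : x ∈ z.E.P) (hy : y ∈ z.E.P) {D : Set (F g)} (hD : Ln z.E D)
    (h1 : ¬ (x ∈ D ↔ y ∈ D)) : ∃ D', D' ≠ D ∧ Ln z.E D' ∧ ¬ (x ∈ D' ↔ y ∈ D') := by
  by_contra hcon
  push Not at hcon
  have h2 := signed z.lf x y
  rw [if_pos hx, if_pos hy, sub_self, ws_single (Fm := LnS z.E) (fun _ => (1 : ℤ)) (D := D) hD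
    (fun D' hD' hne => hcon D' hne hD'), smul_eq_mul, mul_one] at h2
  by_cases h3 : x ∈ D
  · have h4 : y ∉ D := fun h => h1 (iff_of_true h3 h)
    rw [ch_neg_one h3 h4] at h2
    omega
  · have h4 : y ∈ D := by
      by_contra h
      exact h1 (iff_of_false h3 h)
    rw [ch_one h3 h4] at h2
    omega

/-- both lines of a flat chord, or none of them, are lines of a union of components -/
theorem both_lines {A H z : Hf g} {s : F g × F g} (hAz : A ≤ z) (h1 : s.1 ∈ A.E.P) (h2 : s.2 ∈ A.E.P)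
    (hf : Flt A s) (hn : ¬ A.E.S s.1 s.2) (hH : H.E.S s.1 s.2)
    (hz : ∀ c ∈ fr z, c ∈ fr A ∨ c ∈ fr H) :
    (∀ G, Ln z.E G → ¬ (s.1 ∈ G ↔ s.2 ∈ G) → G = gap A.E s.1 s.2 ∨ G = gap A.E s.2 s.1) ∧
    (Ln z.E (gap A.E s.1 s.2) ↔ Ln z.E (gap A.E s.2 s.1)) := by
  have hn' : ¬ A.E.S s.2 s.1 := fun h => hn (GP.symm h)
  have hsat1 := gap_sat hn
  have hsat2 := gap_sat hn'
  have m1 : s.1 ∉ gap A.E s.1 s.2 := notMem_gap (GP.refl _)
  have m2 : s.2 ∈ gap A.E s.1 s.2 := mem_gap_self hn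
  have m3 : s.2 ∉ gap A.E s.2 s.1 := notMem_gap (GP.refl _)
  have m4 : s.1 ∈ gap A.E s.2 s.1 := mem_gap_self hn'
  have key : ∀ G, Ln z.E G → ¬ (s.1 ∈ G ↔ s.2 ∈ G) → G = gap A.E s.1 s.2 ∨ G = gap A.E s.2 s.1 := by
    intro G hG hs
    have hK := z.kg.kcut hG.1
    have h3 : Ln A.E G := by
      rcases hz _ ((cv_mem_fr hK).2 hG) with h4 | h4
      · exact (cv_mem_fr _).1 h4
      · exact absurd (((cv_mem_fr _).1 h4).1.sat _ _ hH) hs
    by_cases h4 : s.1 ∈ G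
    · exact Or.inr (line_in hf h3 h4 fun h5 => hs (iff_of_true h4 h5))
    · refine Or.inl (line_out hf h3 h4 ?_)
      by_contra h5
      exact hs (iff_of_false h4 h5)
  refine ⟨key, ?_⟩
  have z1 := hAz.1 h1
  have z2 := hAz.1 h2
  have ne : gap A.E s.1 s.2 ≠ gap A.E s.2 s.1 := fun h => m1 (h ▸ m4)
  constructor
  · intro hD
    obtain ⟨D', h3, h4, h5⟩ := two_lines z1 z2 hD (fun h => m1 (h.2 m2))
    rcases key D' h4 h5 with h6 | h6
    · exact absurd h6 h3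
    · rw [← h6]
      exact h4
  · intro hD
    obtain ⟨D', h3, h4, h5⟩ := two_lines z1 z2 hD (fun h => m3 (h.1 m4))
    rcases key D' h4 h5 with h6 | h6
    · rw [← h6]
      exact h4
    · exact absurd h6 h3

open Classical in
/-- **every component of the hull has weight at least two** -/
theorem hull_pp {A H : Hf g} {hv : Set (Cv g)} (hok : H ≤ Hf.tIso g A) (hAH : A ≤ H) {ι : Type} (T : Set ι)
    (rp : ι → F g × F g)
    (h1 : ∀ a ∈ T, (rp a).1 ∈ A.E.P) (h2 : ∀ a ∈ T, (rp a).2 ∈ A.E.P) (hf : ∀ a ∈ T, Flt A (rp a))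
    (hH : ∀ a ∈ T, H.E.S (rp a).1 (rp a).2)
    (hmin : ∀ Z : Hf g, A ≤ Z → (∀ a ∈ T, Z.E.S (rp a).1 (rp a).2) → H ≤ Z)
    (hal : ∀ a ∈ T, (∀ k, ph k = 0 → gap A.E (rp a).2 (rp a).1 ≠ tr k (gap A.E (rp a).1 (rp a).2)) ∨
      ∃ c ∈ hv, c.1 = orbK (gap A.E (rp a).1 (rp a).2)) :
    (slb (nums g)).PP A hv H := by
  refine ⟨hAH, fun z hz => ?_⟩
  by_cases hzA : z = A
  · exact Or.inl hzA
  refine Or.inr ?_
  obtain ⟨z', hz', e1, e2, e3, e4, e5, -, -⟩ := (slb (nums g)).Cp_compl hok hz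
  have hfr : ∀ x : Hf g, (slb (nums g)).fr x = fr x := fun _ => rfl
  have hex : ∃ a ∈ T, ¬ z'.E.S (rp a).1 (rp a).2 := by
    by_contra hcon
    push Not at hcon
    have h3 := hmin z' hz'.1 hcon
    have h4 : z ≤ z' := hz.2.1.trans h3
    rw [inf_eq_left.2 h4] at e1
    exact hzA e1
  obtain ⟨a, ha, hna⟩ := hex
  have hnA : ¬ A.E.S (rp a).1 (rp a).2 := fun h => hna (hz'.1.2 _ _ (h1 a ha) h)
  have hnA' : ¬ A.E.S (rp a).2 (rp a).1 := fun h => hnA (GP.symm h)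
  have l1 := gap_ln (h1 a ha) hnA
  have l2 := gap_ln (h2 a ha) hnA'
  have hfz : ∀ c ∈ fr z', c ∈ fr A ∨ c ∈ fr H := by
    intro c hc
    have := hz'.2.2 hc
    rwa [Finset.mem_union] at this
  obtain ⟨b1, b2⟩ := both_lines hz'.1 (h1 a ha) (h2 a ha) (hf a ha) hnA (hH a ha) hfz
  have hb : Ln z'.E (gap A.E (rp a).1 (rp a).2) ∧ Ln z'.E (gap A.E (rp a).2 (rp a).1) := by
    rw [S_iff_ln z'.lf] at hna
    push Not at hna
    obtain ⟨G, hG, hs⟩ := hna
    have hs' : ¬ ((rp a).1 ∈ G ↔ (rp a).2 ∈ G) := by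
      rcases hs with ⟨h3, h4⟩ | ⟨h3, h4⟩
      · exact fun h => h4 (h.1 h3)
      · exact fun h => h3 (h.2 h4)
    rcases b1 G hG hs' with rfl | rfl
    · exact ⟨hG, b2.1 hG⟩
    · exact ⟨b2.2 hG, hG⟩
  have k1 := A.kg.kcut l1.1
  have k2 := A.kg.kcut l2.1
  have key : ∀ D (hD : Ln A.E D) (hK : KCut D), Ln z'.E D → ¬ ((rp a).1 ∈ D ↔ (rp a).2 ∈ D) →
      cv D hK ∈ (slb (nums g)).fr A \ (slb (nums g)).fr z := by
    intro D hD hK hDz hs
    rw [hfr, hfr, Finset.mem_sdiff]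
    refine ⟨(cv_mem_fr hK).2 hD, fun hcz => ?_⟩
    have h5 := e5 (cv D hK)
    have i1 : (slb (nums g)).ind (cv D hK) z = 1 := TorT.Slb.ind_eq_one.2 hcz
    have i2 : (slb (nums g)).ind (cv D hK) z' = 1 := TorT.Slb.ind_eq_one.2 ((cv_mem_fr hK).2 hDz)
    have i3 : (slb (nums g)).ind (cv D hK) H = 0 := by
      refine TorT.Slb.ind_eq_zero.2 fun h6 => hs ?_
      exact ((cv_mem_fr hK).1 h6).1.sat _ _ (hH a ha)
    have i4 := TorT.Slb.ind_le_one (S := slb (nums g)) (cv D hK) A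
    omega
  have m1 := key _ l1 k1 hb.1 (fun h => notMem_gap (GP.refl _) (h.2 (mem_gap_self hnA)))
  have m2 := key _ l2 k2 hb.2 (fun h => notMem_gap (GP.refl _) (h.1 (mem_gap_self hnA')))
  by_cases hc : cv _ k1 = cv _ k2
  · rcases hal a ha with h6 | ⟨c, hc1, hc2⟩
    · exfalso
      have h7 := (cv_eq_iff k2 k1).1 hc.symm
      obtain ⟨k, hk, h8⟩ := h7
      exact h6 k hk h8
    · refine Or.inr ⟨cv _ k1, m1, ?_⟩
      have h9 : c = cv _ k1 := Subtype.ext hc2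
      rwa [← h9]
  · refine Or.inl ?_
    have h7 : ({cv _ k1, cv _ k2} : Finset (Cv g)) ⊆ (slb (nums g)).fr A \ (slb (nums g)).fr z := by
      intro c hcc
      rw [Finset.mem_insert, Finset.mem_singleton] at hcc
      rcases hcc with rfl | rfl
      · exact m1
      · exact m2
    have h8 := Finset.card_le_card h7
    rwa [Finset.card_pair hc] at h8

end TorN
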