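import Pool.Agent.Lib.MP_05cdf2_gt.N6.NFd

/-!
# The pairing of cochains

`BB c f` = sum over the edges modulo the points of level zero of the value of `c` times the value of `f` across the edge.
`BB (cq D) f` = the period of `f` along the cut `D`; `BB (ee j) f = 0`.
-/

namespace TorN

open TorM TorG TorL

open scoped commutatorElement

variable {g : ℕ} [NeZero g]

/-- the points of level zero -/
abbrev KK (g : ℕ) [NeZero g] : Type := {k : F g // ph k = 0}

omit [NeZero g] in
/-- the product of the first commutators -/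
theorem Pz_ex (i : ℕ) (hi : i < g) :
    ((((List.finRange g).take (i + 1)).map fun i => ⁅FreeGroup.of (Sum.inl i : Gen g), FreeGroup.of (Sum.inr i)⁆).prod) =
      ((((List.finRange g).take i).map fun i => ⁅FreeGroup.of (Sum.inl i : Gen g), FreeGroup.of (Sum.inr i)⁆).prod) *
        ⁅FreeGroup.of (Sum.inl ⟨i, hi⟩ : Gen g), FreeGroup.of (Sum.inr ⟨i, hi⟩ : Gen g)⁆ := by
  have h1 : i < (List.finRange g).length := by rw [List.length_finRange]; exact hi
  rw [List.take_succ_eq_append_getElem h1, List.map_append, List.prod_append]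
  simp

/-- initial parts of the boundary loop -/
def Pz (g n : ℕ) : F g :=
  (((List.finRange g).take n).map fun i => ⁅FreeGroup.of (Sum.inl i : Gen g), FreeGroup.of (Sum.inr i)⁆).prod

omit [NeZero g] in
theorem Pz_zero : Pz g 0 = 1 := rfl

omit [NeZero g] in
theorem Pz_succ (i : Fin g) : Pz g (i + 1) =
    Pz g i * ⁅FreeGroup.of (Sum.inl i : Gen g), FreeGroup.of (Sum.inr i)⁆ := Pz_ex i i.2

omit [NeZero g] in
theorem Pz_last : Pz g g = zeta g := by
  unfold Pz zeta
  rw [List.take_of_length_le]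
  rw [List.length_finRange]

/-- the part of the boundary loop before a generator -/
def pp : Gen g → F g
  | Sum.inl i => Pz g i
  | Sum.inr i => Pz g i * FreeGroup.of (Sum.inl i)

/-- the part of the boundary loop before the inverse of a generator -/
def pm : Gen g → F g
  | Sum.inl i => Pz g i * FreeGroup.of (Sum.inl i) * FreeGroup.of (Sum.inr i)
  | Sum.inr i => Pz g i * FreeGroup.of (Sum.inl i) * FreeGroup.of (Sum.inr i) * (FreeGroup.of (Sum.inl i))⁻¹

/-- the value of a cochain across an edge -/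
def FF (f : F g → F g → ℚ) (p : F g) (s : Gen g) : ℚ := f (p * (pp s)⁻¹) (p * FreeGroup.of s * (pm s)⁻¹)

/-- the pairing -/
noncomputable def BB (c f : F g → F g → ℚ) : ℚ :=
  ∑ᶠ n : ℤ, ∑ s : Gen g, c (t0 ^ n) (t0 ^ n * FreeGroup.of s) * FF f (t0 ^ n) s

/-- functions with finitely many jumps -/
def FJ (I : F g → ℚ) : Prop := ∀ w : F g, {x | I (x * w) ≠ I x}.Finite

omit [NeZero g] in
theorem FJ.two {I : F g → ℚ} (hI : FJ I) (w v : F g) : {x | I (x * w) ≠ I (x * v)}.Finite := by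
  refine ((hI w).union (hI v)).subset fun x hx => ?_
  by_contra h
  simp only [Set.mem_union, Set.mem_ofPred_eq, not_or, not_not] at h
  exact hx (h.1.trans h.2.symm)

/-- the sum around the points -/
noncomputable def TT (I f : F g → ℚ) (w : F g) : ℚ := ∑ᶠ h, f h * (I (h * w) - I h)

omit [NeZero g] in
theorem TT_sub {I : F g → ℚ} (hI : FJ I) (f : F g → ℚ) (w v : F g) :
    ∑ᶠ h, f h * (I (h * w) - I (h * v)) = TT I f w - TT I f v := by
  unfold TT
  rw [← finsum_sub_distrib]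
  · refine finsum_congr fun h => ?_
    ring
  · refine (hI w).subset fun x hx => ?_
    intro h
    exact hx (by simp [h])
  · refine (hI v).subset fun x hx => ?_
    intro h
    exact hx (by simp [h])

omit [NeZero g] in
theorem TT_one (I f : F g → ℚ) : TT I f 1 = 0 := by
  unfold TT
  simp

omit [NeZero g] in
theorem sbp_one {I : F g → ℚ} (hI : FJ I) (f : F g → ℚ) (s w v : F g) :
    ∑ᶠ p, (I (p * s) - I p) * (f (p * s * w⁻¹) - f (p * v⁻¹)) =
      TT I f w - TT I f (w * s⁻¹) - TT I f (v * s) + TT I f v := by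
  have e1 : ∑ᶠ p, (I (p * s) - I p) * f (p * s * w⁻¹) = TT I f w - TT I f (w * s⁻¹) := by
    rw [← TT_sub hI, ← finsum_comp_equiv (Equiv.mulRight (s * w⁻¹)) (f := fun h => f h * (I (h * w) - I (h * (w * s⁻¹))))]
    refine finsum_congr fun p => ?_
    show _ = f (p * (s * w⁻¹)) * (I (p * (s * w⁻¹) * w) - I (p * (s * w⁻¹) * (w * s⁻¹)))
    have h1 : p * (s * w⁻¹) * w = p * s := by group
    have h2 : p * (s * w⁻¹) * (w * s⁻¹) = p := by group
    have h3 : p * (s * w⁻¹) = p * s * w⁻¹ := by group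
    rw [h1, h2, h3, mul_comm]
  have e2 : ∑ᶠ p, (I (p * s) - I p) * f (p * v⁻¹) = TT I f (v * s) - TT I f v := by
    rw [← TT_sub hI, ← finsum_comp_equiv (Equiv.mulRight v⁻¹) (f := fun h => f h * (I (h * (v * s)) - I (h * v)))]
    refine finsum_congr fun p => ?_
    show _ = f (p * v⁻¹) * (I (p * v⁻¹ * (v * s)) - I (p * v⁻¹ * v))
    have h1 : p * v⁻¹ * (v * s) = p * s := by group
    have h2 : p * v⁻¹ * v = p := by group
    rw [h1, h2, mul_comm]
  have hs : ∀ φ : F g → ℚ, (Function.support fun p => (I (p * s) - I p) * φ p).Finite := by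
    intro φ
    refine (hI s).subset fun x hx => ?_
    intro h
    exact hx (by simp [h])
  have e3 : ∑ᶠ p, (I (p * s) - I p) * (f (p * s * w⁻¹) - f (p * v⁻¹)) =
      ∑ᶠ p, (I (p * s) - I p) * f (p * s * w⁻¹) - ∑ᶠ p, (I (p * s) - I p) * f (p * v⁻¹) := by
    rw [← finsum_sub_distrib (hs _) (hs _)]
    refine finsum_congr fun p => ?_
    ring
  rw [e3, e1, e2]
  ring

omit [NeZero g] in
/-- summation by parts -/
theorem sbp {I : F g → ℚ} (hI : FJ I) (f : F g → ℚ) :
    ∑ s : Gen g, ∑ᶠ p, (I (p * FreeGroup.of s) - I p) *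
      (f (p * FreeGroup.of s * (pm s)⁻¹) - f (p * (pp s)⁻¹)) = - TT I f (zeta g) := by
  have h1 : ∀ s : Gen g, ∑ᶠ p, (I (p * FreeGroup.of s) - I p) *
      (f (p * FreeGroup.of s * (pm s)⁻¹) - f (p * (pp s)⁻¹)) = TT I f (pm s) - TT I f (pm s * (FreeGroup.of s)⁻¹) -
        TT I f (pp s * FreeGroup.of s) + TT I f (pp s) := fun s => sbp_one hI f _ _ _
  rw [Finset.sum_congr rfl fun s _ => h1 s, Fintype.sum_sum_type, ← Finset.sum_add_distrib]
  have h2 : ∀ i : Fin g, (TT I f (pm (Sum.inl i)) - TT I f (pm (Sum.inl i) * (FreeGroup.of (Sum.inl i))⁻¹) -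
        TT I f (pp (Sum.inl i) * FreeGroup.of (Sum.inl i)) + TT I f (pp (Sum.inl i))) +
      (TT I f (pm (Sum.inr i)) - TT I f (pm (Sum.inr i) * (FreeGroup.of (Sum.inr i))⁻¹) -
        TT I f (pp (Sum.inr i) * FreeGroup.of (Sum.inr i)) + TT I f (pp (Sum.inr i))) =
      TT I f (Pz g i) - TT I f (Pz g (i + 1)) := by
    intro i
    have e1 : (pm (Sum.inl i) : F g) * (FreeGroup.of (Sum.inl i))⁻¹ = pm (Sum.inr i) := rfl
    have e2 : (pp (Sum.inl i) : F g) * FreeGroup.of (Sum.inl i) = pp (Sum.inr i) := rfl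
    have e3 : (pp (Sum.inr i) : F g) * FreeGroup.of (Sum.inr i) = pm (Sum.inl i) := rfl
    have e4 : (pm (Sum.inr i) : F g) * (FreeGroup.of (Sum.inr i))⁻¹ = Pz g (i + 1) := by
      rw [Pz_succ, commutatorElement_def]
      show Pz g i * FreeGroup.of (Sum.inl i) * FreeGroup.of (Sum.inr i) * (FreeGroup.of (Sum.inl i))⁻¹ *
        (FreeGroup.of (Sum.inr i))⁻¹ = _
      simp only [mul_assoc]
    have e5 : (pp (Sum.inl i) : F g) = Pz g i := rfl
    rw [e1, e2, e3, e4, e5]
    ring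
  rw [Finset.sum_congr rfl fun i _ => h2 i, Fin.sum_univ_eq_sum_range (fun i => TT I f (Pz g i) - TT I f (Pz g (i + 1))) g,
    Finset.sum_range_sub', Pz_last, Pz_zero, TT_one, zero_sub]

/-- points = levels times points of level zero -/
noncomputable def lvE (g : ℕ) [NeZero g] : ℤ × KK g ≃ F g where
  toFun p := p.2.1 * t0 ^ p.1
  invFun x := (ph x, ⟨x * t0 ^ (-ph x), by simp⟩)
  left_inv p := by
    obtain ⟨n, k, hk⟩ := p
    have h1 : ph (k * t0 ^ n) = n := by simp [hk]
    refine Prod.ext h1 (Subtype.ext ?_)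
    show k * t0 ^ n * t0 ^ (-ph (k * t0 ^ n)) = k
    rw [h1, mul_assoc, ← zpow_add, add_neg_cancel, zpow_zero, mul_one]
  right_inv x := by
    show x * t0 ^ (-ph x) * t0 ^ ph x = x
    rw [mul_assoc, ← zpow_add, neg_add_cancel, zpow_zero, mul_one]

theorem lv_sum {φ : F g → ℚ} (h : (Function.support φ).Finite) :
    ∑ᶠ n : ℤ, ∑ᶠ k : KK g, φ (k.1 * t0 ^ n) = ∑ᶠ p, φ p := by
  rw [← finsum_comp_equiv (lvE g)]
  have h2 : (Function.support fun q : ℤ × KK g => φ (lvE g q)).Finite := by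
    have : (Function.support fun q : ℤ × KK g => φ (lvE g q)) = (lvE g) ⁻¹' (Function.support φ) := rfl
    rw [this]
    exact h.preimage (lvE g).injective.injOn
  rw [finsum_curry _ h2]
  rfl

theorem lv_supp {φ : F g → ℚ} (h : (Function.support φ).Finite) :
    (Function.support fun n : ℤ => ∑ᶠ k : KK g, φ (k.1 * t0 ^ n)).Finite := by
  refine (h.image ph).subset fun n hn => ?_
  by_contra h2
  refine hn (finsum_eq_zero_of_forall_eq_zero fun k => ?_)
  by_contra h3
  exact h2 ⟨_, h3, by rw [ph_mul, k.2, ph_zpow, ph_t0]; ring⟩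

/-- the cochain of a function with finitely many jumps -/
noncomputable def un (I : F g → ℚ) (x y : F g) : ℚ := ∑ᶠ k : KK g, (I (k.1 * y) - I (k.1 * x))

theorem FF_K {f : F g → F g → ℚ} (hf : f ∈ CC g) {k : F g} (hk : ph k = 0) (p : F g) (s : Gen g) :
    FF f (k * p) s = FF f p s := by
  unfold FF
  rw [mul_assoc, mul_assoc, mul_assoc, cc_K hf hk]
  rw [mul_assoc]

theorem FF_pot {f : F g → F g → ℚ} (hf : f ∈ CC g) (p : F g) (s : Gen g) :
    FF f p s = f 1 (p * FreeGroup.of s * (pm s)⁻¹) - f 1 (p * (pp s)⁻¹) := cc_pot hf _ _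

/-- the pairing of the cochain of a function with finitely many jumps -/
theorem BB_un {I : F g → ℚ} (hI : FJ I) {f : F g → F g → ℚ} (hf : f ∈ CC g) :
    BB (un I) f = - TT I (f 1) (zeta g) := by
  rw [← sbp hI]
  have hs : ∀ s : Gen g, (Function.support fun p => (I (p * FreeGroup.of s) - I p) * FF f p s).Finite := by
    intro s
    refine (hI (FreeGroup.of s)).subset fun x hx => ?_
    intro h
    exact hx (by simp [h])
  have h1 : ∀ s : Gen g, ∑ᶠ p, (I (p * FreeGroup.of s) - I p) *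
      (f 1 (p * FreeGroup.of s * (pm s)⁻¹) - f 1 (p * (pp s)⁻¹)) =
      ∑ᶠ n : ℤ, ∑ᶠ k : KK g, (I (k.1 * t0 ^ n * FreeGroup.of s) - I (k.1 * t0 ^ n)) * FF f (k.1 * t0 ^ n) s := by
    intro s
    rw [lv_sum (φ := fun p => (I (p * FreeGroup.of s) - I p) * FF f p s) (hs s)]
    refine finsum_congr fun p => ?_
    rw [FF_pot hf]
  rw [Finset.sum_congr rfl fun s _ => h1 s, ← finsum_sum_comm _ _ fun s _ => lv_supp (hs s)]
  unfold BB
  refine finsum_congr fun n => Finset.sum_congr rfl fun s _ => ?_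
  unfold un
  rw [finsum_mul']
  · refine finsum_congr fun k => ?_
    rw [FF_K hf k.2, mul_assoc]
  · have h2 : Function.Injective fun k : KK g => k.1 * t0 ^ n := fun k k' h => Subtype.ext (mul_right_cancel h)
    refine ((hI (FreeGroup.of s)).preimage h2.injOn).subset fun k hk => ?_
    show I (k.1 * t0 ^ n * FreeGroup.of s) ≠ I (k.1 * t0 ^ n)
    intro h
    refine hk ?_
    show I (k.1 * (t0 ^ n * FreeGroup.of s)) - I (k.1 * t0 ^ n) = 0
    rw [← mul_assoc, h, sub_self]

/-- finitely many levels -/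
def FL (c : F g → F g → ℚ) : Prop := ∃ N : ℤ, ∀ (n : ℤ) (s : Gen g), N ≤ |n| → c (t0 ^ n) (t0 ^ n * FreeGroup.of s) = 0

theorem FL.fin {c : F g → F g → ℚ} (hc : FL c) (f : F g → F g → ℚ) :
    (Function.support fun n : ℤ => ∑ s : Gen g, c (t0 ^ n) (t0 ^ n * FreeGroup.of s) * FF f (t0 ^ n) s).Finite := by
  obtain ⟨N, hN⟩ := hc
  refine (Set.finite_Ioo (-N) N).subset fun n hn => ?_
  by_contra h
  refine hn (Finset.sum_eq_zero fun s _ => ?_)
  rw [hN n s, zero_mul]
  by_contra h2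
  exact h (abs_lt.1 (not_le.1 h2))

theorem FL_ZZ {A B : Hf g} {c : F g → F g → ℚ} (hc : c ∈ ZZ A B) : FL c := by
  obtain ⟨N, -, hN⟩ := zz_far A B
  refine ⟨N, fun n s hn => hN c hc (t0 ^ n) (s, true) ?_⟩
  rw [ph_zpow, ph_t0, mul_one]
  exact hn

theorem FL.add {c c' : F g → F g → ℚ} (hc : FL c) (hc' : FL c') : FL (c + c') := by
  obtain ⟨N, hN⟩ := hc
  obtain ⟨N', hN'⟩ := hc'
  refine ⟨max N N', fun n s hn => ?_⟩
  show c _ _ + c' _ _ = 0
  rw [hN n s ((le_max_left _ _).trans hn), hN' n s ((le_max_right _ _).trans hn), add_zero]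

theorem FL.smul {c : F g → F g → ℚ} (hc : FL c) (r : ℚ) : FL (r • c) := by
  obtain ⟨N, hN⟩ := hc
  refine ⟨N, fun n s hn => ?_⟩
  show r • c _ _ = 0
  rw [hN n s hn, smul_zero]

theorem FL.zero : FL (0 : F g → F g → ℚ) := ⟨0, fun _ _ _ => rfl⟩

theorem BB_add {c c' : F g → F g → ℚ} (hc : FL c) (hc' : FL c') (f : F g → F g → ℚ) :
    BB (c + c') f = BB c f + BB c' f := by
  unfold BB
  rw [← finsum_add_distrib (hc.fin f) (hc'.fin f)]
  refine finsum_congr fun n => ?_
  rw [← Finset.sum_add_distrib]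
  refine Finset.sum_congr rfl fun s _ => ?_
  show (c _ _ + c' _ _) * _ = _
  rw [add_mul]

theorem BB_smul (r : ℚ) {c : F g → F g → ℚ} (f : F g → F g → ℚ) :
    BB (r • c) f = r * BB c f := by
  unfold BB
  rw [← smul_eq_mul, smul_finsum]
  refine finsum_congr fun n => ?_
  rw [Finset.smul_sum]
  refine Finset.sum_congr rfl fun s _ => ?_
  show (r • c _ _) * _ = r • (_ * _)
  rw [smul_mul_assoc]

theorem BB_zero (f : F g → F g → ℚ) : BB (0 : F g → F g → ℚ) f = 0 := by
  have := BB_smul 0 (c := 0) f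
  rwa [zero_smul, zero_mul] at this

theorem BB_sum {ι : Type} (S : Finset ι) (c : ι → F g → F g → ℚ) (hc : ∀ i ∈ S, FL (c i)) (f : F g → F g → ℚ) :
    BB (∑ i ∈ S, c i) f = ∑ i ∈ S, BB (c i) f := by
  classical
  induction S using Finset.induction_on with
  | empty => rw [Finset.sum_empty, Finset.sum_empty, BB_zero]
  | insert i S hi ih =>
    have h1 : ∀ j ∈ S, FL (c j) := fun j hj => hc j (Finset.mem_insert_of_mem hj)
    rw [Finset.sum_insert hi, Finset.sum_insert hi, BB_add (hc i (Finset.mem_insert_self _ _)), ih h1]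
    refine Finset.sum_induction c FL (fun a b ha hb => ha.add hb) FL.zero h1

end TorN
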