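import Pool.Agent.Lib.MP_05cdf2_gt.N6.NPair

/-!
# The pairing with the count of a cut is the period along the cut
-/

namespace TorN

open TorM TorG TorL

variable {g : ℕ} [NeZero g]

open Classical in
theorem fj_lt (y u : F g) : FJ (fun x : F g => if u⁻¹ * x < y then (1 : ℚ) else 0) := by
  intro w
  have h2 : Function.Injective fun x : F g => u⁻¹ * x := fun a b h => mul_left_cancel h
  refine ((lt_sep_finite y w).preimage h2.injOn).subset fun x hx => ?_
  show ¬ (u⁻¹ * x * w < y ↔ u⁻¹ * x < y)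
  intro h
  refine hx ?_
  show (if u⁻¹ * (x * w) < y then (1 : ℚ) else 0) = if u⁻¹ * x < y then (1 : ℚ) else 0
  rw [← mul_assoc]
  exact if_congr h rfl rfl

open Classical in
theorem fj_pt (y : F g) : FJ (fun x : F g => if x = y then (1 : ℚ) else 0) := by
  intro w
  refine (Set.toFinite {y * w⁻¹, y}).subset fun x hx => ?_
  by_contra h
  simp only [Set.mem_insert_iff, Set.mem_singleton_iff, not_or] at h
  refine hx ?_
  show (if x * w = y then (1 : ℚ) else 0) = if x = y then (1 : ℚ) else 0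
  rw [if_neg h.2, if_neg]
  intro h2
  exact h.1 (by rw [← h2, mul_inv_cancel_right])

open Classical in
/-- the count of a cut is the sum of the jumps of a fundamental interval, cut containing `1` -/
theorem cnt_un {D : Set (F g)} (hD : KCut D) (h1 : (1 : F g) ∈ D) (x y : F g) :
    cnt D x y = ∑ᶠ k : KK g, pt (gn D) (x⁻¹ * y) (k.1 * x) := by
  have hW := hD.wcut
  have hγ := gn_spec hW
  have hinj : Function.Injective fun k : KK g => k.1 * x := fun k k' h => Subtype.ext (mul_right_cancel h)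
  have hsup : (Function.support fun k : KK g => pt (gn D) (x⁻¹ * y) (k.1 * x)).Finite :=
    ((pt_supp (gn D) (x⁻¹ * y)).preimage hinj.injOn)
  let S := hsup.toFinset
  let p : KK g → Set (F g) := fun k => tr k.1⁻¹ D
  let T0 := (hD.kfin x y).toFinset
  let t := S.image p ∪ T0
  have hpr : ∑ᶠ k : KK g, pt (gn D) (x⁻¹ * y) (k.1 * x) = ∑ k ∈ S, pt (gn D) (x⁻¹ * y) (k.1 * x) :=
    finsum_eq_sum _ hsup
  have hmap : ∀ h ∈ S, p h ∈ t := fun h hh => Finset.mem_union_left _ (Finset.mem_image_of_mem _ hh)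
  rw [hpr, ← Finset.sum_fiberwise_of_maps_to hmap]
  have hfib : ∀ A ∈ t, ∑ h ∈ S with p h = A, pt (gn D) (x⁻¹ * y) (h.1 * x) = ch A x y := by
    intro A hA
    obtain ⟨h0, rfl⟩ : ∃ h0, A = p h0 := by
      rcases Finset.mem_union.1 hA with hA | hA
      · obtain ⟨h0, -, rfl⟩ := Finset.mem_image.1 hA
        exact ⟨h0, rfl⟩
      · obtain ⟨⟨h, hh, rfl⟩, -⟩ := (Set.Finite.mem_toFinset _).1 hA
        exact ⟨⟨h⁻¹, by rw [ph_inv, hh, neg_zero]⟩, by show tr h D = tr h⁻¹⁻¹ D; rw [_root_.inv_inv]⟩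
    have e1 : ∑ h ∈ S with p h = p h0, pt (gn D) (x⁻¹ * y) (h.1 * x) =
        ∑ᶠ h ∈ {h | p h = p h0}, pt (gn D) (x⁻¹ * y) (h.1 * x) := by
      rw [finsum_mem_eq_sum_filter _ _ hsup]
      rfl
    let q : ℤ → KK g := fun n => ⟨gn D ^ n * h0.1, by rw [ph_mul, hD.ph_gn_pow, h0.2, add_zero]⟩
    have inj : Function.Injective q := by
      intro n m hnm
      exact hγ.zpow_inj hW (mul_right_cancel (congrArg Subtype.val hnm))
    have e2 : {h | p h = p h0} = Set.range q := by
      ext h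
      constructor
      · intro hh
        have h2 : h.1 * h0.1⁻¹ ∈ stD D := tr_inv_eq (D := D) (x := h0.1) (y := h.1) hh.symm
        obtain ⟨n, hn⟩ := hγ.pow _ h2
        exact ⟨n, Subtype.ext (by show gn D ^ n * h0.1 = h.1; rw [← hn]; group)⟩
      · rintro ⟨n, rfl⟩
        show tr (gn D ^ n * h0.1)⁻¹ D = tr h0.1⁻¹ D
        rw [mul_inv_rev, ← tr_tr]
        congr 1
        exact (stD D).inv_mem (pow_mem_stD hγ.mem n)
    rw [e1, e2, finsum_mem_range inj]
    have e3 : ∀ n : ℤ, pt (gn D) (x⁻¹ * y) ((q n).1 * x) = pt (gn D) (x⁻¹ * y) (gn D ^ n * (h0.1 * x)) := by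
      intro n
      show pt (gn D) (x⁻¹ * y) (gn D ^ n * h0.1 * x) = _
      rw [mul_assoc]
    rw [finsum_congr e3, coset_sum hW hγ h1 (x⁻¹ * y) (h0.1 * x)]
    show _ = (if h0.1⁻¹⁻¹ * y ∈ D then (1 : ℤ) else 0) - if h0.1⁻¹⁻¹ * x ∈ D then 1 else 0
    rw [_root_.inv_inv]
    have e4 : h0.1 * x * (x⁻¹ * y) = h0.1 * y := by group
    rw [e4]
  rw [Finset.sum_congr rfl hfib]
  have horb : ∀ A ∈ t, A ∈ orbK D := by
    intro A hA
    rcases Finset.mem_union.1 hA with hA | hA
    · obtain ⟨h0, -, rfl⟩ := Finset.mem_image.1 hA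
      exact ⟨_, by rw [ph_inv, h0.2, neg_zero], rfl⟩
    · exact ((Set.Finite.mem_toFinset _).1 hA).1
  unfold cnt ws
  rw [finsum_eq_sum_of_support_subset (s := t)]
  · refine Finset.sum_congr rfl fun A hA => ?_
    rw [if_pos (horb A hA), smul_eq_mul, mul_one]
  · intro A hA
    by_cases h2 : A ∈ orbK D
    · by_cases h3 : x ∈ A ↔ y ∈ A
      · refine (hA ?_).elim
        show (if A ∈ orbK D then ch A x y • (1 : ℤ) else 0) = 0
        rw [if_pos h2, ch_zero h3, zero_smul]
      · exact Finset.mem_coe.2 (Finset.mem_union_right _ ((Set.Finite.mem_toFinset _).2 ⟨h2, h3⟩))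
    · exact (hA (if_neg h2)).elim

open Classical in
/-- the count of a cut is the sum of the jumps of a fundamental interval -/
theorem cq_un {D : Set (F g)} (hD : KCut D) {u : F g} (hu : u ∈ D) :
    cq D = un (fun x : F g => if u⁻¹ * x < u⁻¹ * gn D * u then (1 : ℚ) else 0) := by
  have hD' : KCut (tr u⁻¹ D) := hD.tr u⁻¹
  have h1 : (1 : F g) ∈ tr u⁻¹ D := by
    rw [mem_tr, _root_.inv_inv, mul_one]
    exact hu
  have hg : gn (tr u⁻¹ D) = u⁻¹ * gn D * u := by
    have h2 := (gn_spec hD'.wcut).unique hD'.wcut ((gn_spec hD.wcut).tr u⁻¹)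
    rw [h2, _root_.inv_inv]
  funext x y
  have e1 : cnt D x y = cnt (tr u⁻¹ D) (u⁻¹ * x) (u⁻¹ * y) := by
    rw [cnt_tr, _root_.inv_inv, mul_inv_cancel_left, mul_inv_cancel_left]
  unfold cq
  rw [e1, cnt_un hD' h1, hg]
  let e : KK g ≃ KK g :=
    { toFun := fun k => ⟨u⁻¹ * k.1 * u, by simp [k.2]⟩
      invFun := fun k => ⟨u * k.1 * u⁻¹, by simp [k.2]⟩
      left_inv := fun k => Subtype.ext (by show u * (u⁻¹ * k.1 * u) * u⁻¹ = k.1; group)
      right_inv := fun k => Subtype.ext (by show u⁻¹ * (u * k.1 * u⁻¹) * u = k.1; group) }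
  have hs : (Function.support fun k : KK g => pt (u⁻¹ * gn D * u) ((u⁻¹ * x)⁻¹ * (u⁻¹ * y)) (k.1 * (u⁻¹ * x))).Finite := by
    have hinj : Function.Injective fun k : KK g => k.1 * (u⁻¹ * x) := fun k k' h => Subtype.ext (mul_right_cancel h)
    exact (pt_supp _ _).preimage hinj.injOn
  have e2 : ((∑ᶠ k : KK g, pt (u⁻¹ * gn D * u) ((u⁻¹ * x)⁻¹ * (u⁻¹ * y)) (k.1 * (u⁻¹ * x)) : ℤ) : ℚ) =
      ∑ᶠ k : KK g, ((pt (u⁻¹ * gn D * u) ((u⁻¹ * x)⁻¹ * (u⁻¹ * y)) (k.1 * (u⁻¹ * x)) : ℤ) : ℚ) := by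
    rw [finsum_eq_sum _ hs, finsum_eq_sum_of_support_subset (s := hs.toFinset)]
    · push_cast
      rfl
    · intro k hk
      rw [Set.Finite.coe_toFinset]
      intro h
      exact hk (Int.cast_eq_zero.2 h)
  rw [e2, ← finsum_comp_equiv e]
  unfold un
  refine finsum_congr fun k => ?_
  show ((pt (u⁻¹ * gn D * u) ((u⁻¹ * x)⁻¹ * (u⁻¹ * y)) (u⁻¹ * k.1 * u * (u⁻¹ * x)) : ℤ) : ℚ) =
    (if u⁻¹ * (k.1 * y) < u⁻¹ * gn D * u then (1 : ℚ) else 0) - if u⁻¹ * (k.1 * x) < u⁻¹ * gn D * u then (1 : ℚ) else 0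
  unfold pt
  have e3 : u⁻¹ * k.1 * u * (u⁻¹ * x) * ((u⁻¹ * x)⁻¹ * (u⁻¹ * y)) = u⁻¹ * (k.1 * y) := by group
  have e4 : u⁻¹ * k.1 * u * (u⁻¹ * x) = u⁻¹ * (k.1 * x) := by group
  rw [e3, e4]
  push_cast
  rfl

open Classical in
theorem TT_lt (f : F g → ℚ) (u : F g) {γ : F g} (hγ : γ ≠ 1) :
    TT (fun x : F g => if u⁻¹ * x < γ then (1 : ℚ) else 0) f (zeta g) =
      f (u * (zeta g)⁻¹) - f (u * γ * (zeta g)⁻¹) := by
  have hz : zeta g ≠ 1 := zeta_ne_one (NeZero.pos g)
  have hmax : ∀ x : F g, x ≤ (zeta g)⁻¹ := by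
    intro x
    by_contra h
    have h2 := succ_le (not_le.1 h)
    rw [inv_mul_cancel] at h2
    exact absurd (one_le (zeta g)⁻¹) (not_le.2 h2.1)
  have key : ∀ h : F g, (if u⁻¹ * (h * zeta g) < γ then (1 : ℚ) else 0) - (if u⁻¹ * h < γ then (1 : ℚ) else 0) =
      (if h = u * (zeta g)⁻¹ then 1 else 0) - (if h = u * γ * (zeta g)⁻¹ then 1 else 0) := by
    intro h
    by_cases h1 : h = u * (zeta g)⁻¹
    · have e1 : u⁻¹ * (h * zeta g) = 1 := by rw [h1]; group
      have e2 : u⁻¹ * h = (zeta g)⁻¹ := by rw [h1]; group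
      have h3 : h ≠ u * γ * (zeta g)⁻¹ := by
        intro h3
        rw [h1] at h3
        have h4 := mul_right_cancel h3
        exact hγ (by rw [← mul_right_inj u, ← h4, mul_one])
      rw [e1, e2, if_pos (one_lt hγ), if_neg (not_lt.2 (hmax γ)), if_pos h1, if_neg h3]
    · have h5 : u⁻¹ * h < (zeta g)⁻¹ := by
        refine lt_of_le_of_ne (hmax _) fun h6 => h1 ?_
        rw [← h6, mul_inv_cancel_left]
      have h7 := succ_le h5
      rw [if_neg h1]
      have e3 : u⁻¹ * (h * zeta g) = u⁻¹ * h * zeta g := by group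
      rw [e3]
      by_cases h8 : h = u * γ * (zeta g)⁻¹
      · have e4 : u⁻¹ * h * zeta g = γ := by rw [h8]; group
        rw [e4, if_neg (lt_irrefl γ), if_pos, if_pos h8]
        · rw [← e4]
          exact h7.1
      · rw [if_neg h8]
        by_cases h9 : u⁻¹ * h < γ
        · have h10 := (succ_le h9).2
          have h11 : u⁻¹ * h * zeta g ≠ γ := by
            intro h12
            refine h8 ?_
            rw [← h12]
            group
          rw [if_pos h9, if_pos (lt_of_le_of_ne h10 h11)]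
          ring
        · rw [if_neg h9, if_neg]
          intro h13
          exact h9 (h7.1.trans h13)
  unfold TT
  have e1 : ∀ h : F g, f h * ((fun x : F g => if u⁻¹ * x < γ then (1 : ℚ) else 0) (h * zeta g) -
      (fun x : F g => if u⁻¹ * x < γ then (1 : ℚ) else 0) h) =
      (if h = u * (zeta g)⁻¹ then f h else 0) - (if h = u * γ * (zeta g)⁻¹ then f h else 0) := by
    intro h
    show f h * ((if u⁻¹ * (h * zeta g) < γ then (1 : ℚ) else 0) - (if u⁻¹ * h < γ then (1 : ℚ) else 0)) = _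
    rw [key, mul_sub, mul_ite, mul_ite, mul_one, mul_zero]
  rw [finsum_congr e1, finsum_sub_distrib]
  · congr 1
    · rw [finsum_eq_single _ (u * (zeta g)⁻¹) fun x hx => if_neg hx, if_pos rfl]
    · rw [finsum_eq_single _ (u * γ * (zeta g)⁻¹) fun x hx => if_neg hx, if_pos rfl]
  · refine (Set.finite_singleton (u * (zeta g)⁻¹)).subset fun x hx => ?_
    by_contra h
    exact hx (if_neg h)
  · refine (Set.finite_singleton (u * γ * (zeta g)⁻¹)).subset fun x hx => ?_
    by_contra h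
    exact hx (if_neg h)

theorem gn_ne {D : Set (F g)} (hD : KCut D) : gn D ≠ 1 := by
  intro h
  obtain ⟨z, hz⟩ := hD.ne
  have := (gn_spec hD.wcut).pos z hz
  rw [h, one_mul] at this
  exact LtD.irrefl this

/-- **the pairing with the count of a cut is the period** -/
theorem BB_cq {D : Set (F g)} (hD : KCut D) {f : F g → F g → ℚ} (hf : f ∈ CC g) (u : F g) :
    BB (cq D) f = f u (gn D * u) := by
  classical
  obtain ⟨v, hv⟩ := hD.ne
  rw [cq_un hD hv, BB_un (fj_lt _ _) hf, TT_lt]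
  · have e1 : v * (v⁻¹ * gn D * v) * (zeta g)⁻¹ = gn D * (v * (zeta g)⁻¹) := by group
    rw [e1, neg_sub, ← cc_pot hf]
    exact cc_per hf hD.ph_gn _ _
  · intro h
    refine gn_ne hD ?_
    have : gn D = v * (v⁻¹ * gn D * v) * v⁻¹ := by group
    rw [this, h]
    group

open Classical in
theorem ee_un (j : ℤ) : ee (g := g) j = un (fun x : F g => if x = t0 ^ j then (1 : ℚ) else 0) := by
  have key : ∀ x : F g, ∑ᶠ k : KK g, (if k.1 * x = t0 ^ j then (1 : ℚ) else 0) = if ph x = j then 1 else 0 := by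
    intro x
    by_cases h : ph x = j
    · rw [if_pos h, finsum_eq_single _ (⟨t0 ^ j * x⁻¹, by simp [h]⟩ : KK g)]
      · rw [if_pos]
        group
      · intro k hk
        rw [if_neg]
        intro h2
        exact hk (Subtype.ext (by show k.1 = t0 ^ j * x⁻¹; rw [← h2, mul_inv_cancel_right]))
    · rw [if_neg h]
      refine finsum_eq_zero_of_forall_eq_zero fun k => if_neg fun h2 => h ?_
      have h3 := congrArg ph h2
      rw [ph_mul, k.2, zero_add, ph_zpow, ph_t0, mul_one] at h3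
      exact h3
  have hs : ∀ x : F g, (Function.support fun k : KK g => if k.1 * x = t0 ^ j then (1 : ℚ) else 0).Finite := by
    intro x
    refine Set.Subsingleton.finite fun k hk k' hk' => ?_
    have h1 : k.1 * x = t0 ^ j := by
      by_contra h
      exact hk (if_neg h)
    have h2 : k'.1 * x = t0 ^ j := by
      by_contra h
      exact hk' (if_neg h)
    exact Subtype.ext (mul_right_cancel (h1.trans h2.symm))
  funext x y
  unfold ee un
  rw [← key, ← key, ← finsum_sub_distrib (hs y) (hs x)]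

/-- **the pairing with a level jump is zero** -/
theorem BB_ee (j : ℤ) {f : F g → F g → ℚ} (hf : f ∈ CC g) : BB (ee (g := g) j) f = 0 := by
  classical
  rw [ee_un, BB_un (fj_pt _) hf]
  unfold TT
  have e1 : ∀ h : F g, f 1 h * ((fun x : F g => if x = t0 ^ j then (1 : ℚ) else 0) (h * zeta g) -
      (fun x : F g => if x = t0 ^ j then (1 : ℚ) else 0) h) =
      (if h = t0 ^ j * (zeta g)⁻¹ then f 1 h else 0) - (if h = t0 ^ j then f 1 h else 0) := by
    intro h
    show f 1 h * ((if h * zeta g = t0 ^ j then (1 : ℚ) else 0) - (if h = t0 ^ j then (1 : ℚ) else 0)) = _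
    rw [mul_sub, mul_ite, mul_ite, mul_one, mul_zero]
    congr 1
    refine if_congr ?_ rfl rfl
    constructor
    · intro h2
      rw [← h2, mul_inv_cancel_right]
    · intro h2
      rw [h2, inv_mul_cancel_right]
  rw [finsum_congr e1, finsum_sub_distrib, finsum_eq_single _ (t0 ^ j * (zeta g)⁻¹) fun x hx => if_neg hx, if_pos rfl,
    finsum_eq_single _ (t0 ^ j) fun x hx => if_neg hx, if_pos rfl, neg_sub, ← cc_pot hf]
  · have h1 := cc_zeta hf (t0 ^ j * (zeta g)⁻¹)
    rwa [inv_mul_cancel_right] at h1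
  · refine (Set.finite_singleton (t0 ^ j * (zeta g)⁻¹)).subset fun x hx => ?_
    by_contra h
    exact hx (if_neg h)
  · refine (Set.finite_singleton (t0 ^ j)).subset fun x hx => ?_
    by_contra h
    exact hx (if_neg h)

end TorN
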