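import Pool.Agent.Lib.MP_05cdf2_gt.N6.NTop

/-!
# Systems of arcs over a region: adding the arcs one by one

`Cmpt A s s'`: translates of `s'` cross `s` only inside classes. `Flt A s`: no other low class of `A` lies between the ends of `s`.
`S1 g`: the single arc lemma (statement). `sys_chain`: the hull of a system.
-/

namespace TorN

open TorM TorG TorL Module

variable {g : ℕ} [NeZero g]

/-- the chords cross only inside classes -/
def Cmpt (A : Hf g) (s s' : F g × F g) : Prop := ∀ k, ph k = 0 → Cr s.1 s.2 (k * s'.1) (k * s'.2) →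
  A.E.S s.1 (k * s'.1) ∨ A.E.S s.1 (k * s'.2) ∨ A.E.S s.2 (k * s'.1) ∨ A.E.S s.2 (k * s'.2)

/-- no other low class between the ends -/
def Flt (A : Hf g) (s : F g × F g) : Prop := ∀ a b, A.E.S a b → a ∈ A.E.P → Cr a b s.1 s.2 →
  A.E.S a s.1 ∨ A.E.S a s.2

/-- one step of the generated relation -/
def GS (A : Hf g) (s : F g × F g) (u v : F g) : Prop := A.E.S u v ∨ ∃ k, ph k = 0 ∧
  ((u = k * s.1 ∧ v = k * s.2) ∨ (u = k * s.2 ∧ v = k * s.1))

/-- the single arc lemma (statement) -/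
def S1 (g : ℕ) [NeZero g] : Prop := ∀ (A B : Hf g) (s : F g × F g), A ≤ B → s.1 ∈ A.E.P → s.2 ∈ A.E.P →
  ¬ A.E.S s.1 s.2 → B.E.S s.1 s.2 → Cmpt A s s → Flt A s → (∃ f ∈ ZZ A B, f s.1 s.2 ≠ 0) →
  ∃ A' : Hf g, A ≤ A' ∧ A' ≤ B ∧ A'.J = A.J ∧ A'.E.S s.1 s.2 ∧
    (∀ Z : Hf g, A ≤ Z → Z.E.S s.1 s.2 → A' ≤ Z) ∧
    (∀ a b, a ∈ A.E.P → A'.E.S a b → Relation.ReflTransGen (GS A s) a b) ∧
    (fr A').card ≤ (fr A).card + 1 ∧
    (finrank ℚ (ZZ A A') ≤ (fr A').card ∨ (fr A').card + 1 ≤ (fr A).card) ∧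
    ((∀ k, ph k = 0 → gap A.E s.2 s.1 ≠ tr k (gap A.E s.1 s.2)) → (fr A').card + 1 ≤ (fr A).card)

/-- a chord of a system -/
structure OkC (A B : Hf g) (s : F g × F g) : Prop where
  p1 : s.1 ∈ A.E.P
  p2 : s.2 ∈ A.E.P
  b : B.E.S s.1 s.2
  flt : Flt A s

theorem P_of_J {A A' : Hf g} (h : A'.J = A.J) {x : F g} : x ∈ A'.E.P ↔ x ∈ A.E.P := by
  rw [A.lev, A'.lev, h]

theorem P_K {A : Hf g} {k : F g} (hk : ph k = 0) {x : F g} : k * x ∈ A.E.P ↔ x ∈ A.E.P := by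
  rw [A.lev, A.lev, ph_mul, hk, zero_add]

/-- points of a generated path are low -/
theorem gen_low {A : Hf g} {s : F g × F g} (h1 : s.1 ∈ A.E.P) (h2 : s.2 ∈ A.E.P) {a b : F g} (ha : a ∈ A.E.P)
    (h : Relation.ReflTransGen (GS A s) a b) : b ∈ A.E.P := by
  induction h with
  | refl => exact ha
  | tail _ h3 ih =>
    rcases h3 with h3 | ⟨k, hk, ⟨h3, h4⟩ | ⟨h3, h4⟩⟩
    · exact (A.E.col h3).1 ih
    · rw [h4]; exact (P_K hk).2 h2
    · rw [h4]; exact (P_K hk).2 h1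

theorem gen_rel {A A' : Hf g} {s : F g × F g} (hA : A ≤ A') (h1 : s.1 ∈ A.E.P) (h2 : s.2 ∈ A.E.P)
    (hs : A'.E.S s.1 s.2) {a b : F g} (ha : a ∈ A.E.P) (h : Relation.ReflTransGen (GS A s) a b) : A'.E.S a b := by
  induction h with
  | refl => exact A'.E.refl _
  | tail h0 h3 ih =>
    have hl := gen_low h1 h2 ha h0
    refine GP.trans ih ?_
    rcases h3 with h3 | ⟨k, hk, ⟨h3, h4⟩ | ⟨h3, h4⟩⟩
    · exact hA.2 _ _ hl h3
    · rw [h3, h4]; exact (A'.S_mul hk).2 hs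
    · rw [h3, h4]; exact (A'.S_mul hk).2 (GP.symm hs)

/-- a path crosses a chord -/
theorem path_cross {R : F g → F g → Prop} {a b x y : F g} (h : Relation.ReflTransGen R a b) (hc : Cr a b x y) :
    ∃ u v, Relation.ReflTransGen R a u ∧ R u v ∧ Relation.ReflTransGen R v b ∧ (Cr u v x y ∨ v = x ∨ v = y) := by
  induction h with
  | refl => exact absurd hc not_cr_same
  | @tail c d h1 h2 ih =>
    by_cases hcx : c = x
    · subst hcx
      rcases Relation.ReflTransGen.cases_tail h1 with h3 | ⟨u, h3, h4⟩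
      · exfalso
        subst h3
        exact absurd (cr_comm.1 hc) (by unfold Cr Cyc; grind)
      · exact ⟨u, c, h3, h4, Relation.ReflTransGen.single h2, Or.inr (Or.inl rfl)⟩
    · by_cases hcy : c = y
      · subst hcy
        rcases Relation.ReflTransGen.cases_tail h1 with h3 | ⟨u, h3, h4⟩
        · exfalso
          subst h3
          exact absurd (cr_comm.1 hc) (by unfold Cr Cyc; grind)
        · exact ⟨u, c, h3, h4, Relation.ReflTransGen.single h2, Or.inr (Or.inr rfl)⟩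
      · have h3 : Cr a c x y ∨ Cr c d x y := by
          rcases cr_tri (cr_comm.1 hc) (Ne.symm hcx) (Ne.symm hcy) with h4 | h4
          · exact Or.inl (cr_comm.1 h4)
          · exact Or.inr (cr_comm.1 h4)
        rcases h3 with h3 | h3
        · obtain ⟨u, v, h4, h5, h6, h7⟩ := ih h3
          exact ⟨u, v, h4, h5, h6.tail h2, h7⟩
        · exact ⟨c, d, h1, h2, Relation.ReflTransGen.refl, Or.inl h3⟩

/-- the conditions are inherited after adding an arc -/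
theorem flt_add {A A' : Hf g} {s s' : F g × F g} (hA : A ≤ A') (hJ : A'.J = A.J) (h1 : s.1 ∈ A.E.P)
    (h2 : s.2 ∈ A.E.P) (hs : A'.E.S s.1 s.2) (h1' : s'.1 ∈ A.E.P) (h2' : s'.2 ∈ A.E.P)
    (hg : ∀ a b, a ∈ A.E.P → A'.E.S a b → Relation.ReflTransGen (GS A s) a b)
    (hc : Cmpt A s' s) (hf : Flt A s') : Flt A' s' := by
  intro a b hab ha hcr
  have ha' := (P_of_J hJ).1 ha
  obtain ⟨u, v, h3, h4, -, h6⟩ := path_cross (hg a b ha' hab) hcr
  have hu := gen_low h1 h2 ha' h3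
  have hau := gen_rel hA h1 h2 hs ha' h3
  have hav := gen_rel hA h1 h2 hs ha' (h3.tail h4)
  rcases h6 with h6 | h6 | h6
  · rcases h4 with h4 | ⟨k, hk, h4⟩
    · rcases hf u v h4 hu h6 with h7 | h7
      · exact Or.inl (GP.trans hau (hA.2 _ _ hu h7))
      · exact Or.inr (GP.trans hau (hA.2 _ _ hu h7))
    · have h5 : Cr s'.1 s'.2 (k * s.1) (k * s.2) := by
        rcases h4 with ⟨rfl, rfl⟩ | ⟨rfl, rfl⟩
        · exact cr_comm.1 h6
        · exact cr_swap2.1 (cr_comm.1 h6)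
      have hk1 : A'.E.S a (k * s.1) := by
        rcases h4 with ⟨rfl, rfl⟩ | ⟨rfl, rfl⟩
        · exact hau
        · exact hav
      have hk2 : A'.E.S a (k * s.2) := by
        rcases h4 with ⟨rfl, rfl⟩ | ⟨rfl, rfl⟩
        · exact hav
        · exact hau
      rcases hc k hk h5 with h7 | h7 | h7 | h7
      · exact Or.inl (GP.trans hk1 (GP.symm (hA.2 _ _ h1' h7)))
      · exact Or.inl (GP.trans hk2 (GP.symm (hA.2 _ _ h1' h7)))
      · exact Or.inr (GP.trans hk1 (GP.symm (hA.2 _ _ h2' h7)))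
      · exact Or.inr (GP.trans hk2 (GP.symm (hA.2 _ _ h2' h7)))
  · subst h6
    exact Or.inl hav
  · subst h6
    exact Or.inr hav

theorem cmpt_add {A A' : Hf g} {s s' : F g × F g} (hA : A ≤ A') (h1 : s.1 ∈ A.E.P)
    (h2 : s.2 ∈ A.E.P) (hc : Cmpt A s s') : Cmpt A' s s' := by
  intro k hk hcr
  rcases hc k hk hcr with h | h | h | h
  · exact Or.inl (hA.2 _ _ h1 h)
  · exact Or.inr (Or.inl (hA.2 _ _ h1 h))
  · exact Or.inr (Or.inr (Or.inl (hA.2 _ _ h2 h)))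
  · exact Or.inr (Or.inr (Or.inr (hA.2 _ _ h2 h)))

/-- the evaluation at a chord -/
def evl (s : F g × F g) : (F g → F g → ℚ) →ₗ[ℚ] ℚ where
  toFun f := f s.1 s.2
  map_add' _ _ := rfl
  map_smul' _ _ := rfl

theorem evl_apply (s : F g × F g) (f : F g → F g → ℚ) : evl s f = f s.1 s.2 := rfl

/-- cochains vanishing on the generated relation -/
theorem gen_van {A : Hf g} {s : F g × F g} {f : F g → F g → ℚ} (hf : f ∈ CC g)
    (hA : ∀ x y, x ∈ A.E.P → A.E.S x y → f x y = 0) (h1 : s.1 ∈ A.E.P) (h2 : s.2 ∈ A.E.P) (hs : f s.1 s.2 = 0)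
    {a b : F g} (ha : a ∈ A.E.P) (h : Relation.ReflTransGen (GS A s) a b) : f a b = 0 := by
  induction h with
  | refl => exact cc_self hf _
  | @tail c d h0 h3 ih =>
    have hl := gen_low h1 h2 ha h0
    rw [← cc_add hf a c d, ih, zero_add]
    rcases h3 with h3 | ⟨k, hk, ⟨h3, h4⟩ | ⟨h3, h4⟩⟩
    · exact hA _ _ hl h3
    · rw [h3, h4, cc_K hf hk, hs]
    · rw [h3, h4, cc_K hf hk, cc_symm hf, hs, neg_zero]

/-- the cochains after adding an arc -/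
theorem zz_add {A A' B : Hf g} {s : F g × F g} (hA : A ≤ A') (hJ : A'.J = A.J) (h1 : s.1 ∈ A.E.P)
    (h2 : s.2 ∈ A.E.P) (hs : A'.E.S s.1 s.2)
    (hg : ∀ a b, a ∈ A.E.P → A'.E.S a b → Relation.ReflTransGen (GS A s) a b) :
    ZZ A' B = ZZ A B ⊓ LinearMap.ker (evl s) := by
  ext f
  rw [Submodule.mem_inf, LinearMap.mem_ker, evl_apply]
  constructor
  · intro hf
    exact ⟨ZZ_mono hA le_rfl hf, hf.2.1 _ _ ((P_of_J hJ).2 h1) hs⟩
  · rintro ⟨hf, h3⟩
    refine ⟨hf.1, fun x y hx hxy => ?_, hf.2.2⟩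
    have hx' := (P_of_J hJ).1 hx
    exact gen_van hf.1 hf.2.1 h1 h2 h3 hx' (hg x y hx' hxy)

theorem finrank_inf_ker {V : Type*} [AddCommGroup V] [Module ℚ V] (W : Submodule ℚ V) [Module.Finite ℚ W]
    (φ : V →ₗ[ℚ] ℚ) : finrank ℚ W ≤ finrank ℚ (W ⊓ LinearMap.ker φ : Submodule ℚ V) + 1 ∧
      ((∃ f ∈ W, φ f ≠ 0) → finrank ℚ W = finrank ℚ (W ⊓ LinearMap.ker φ : Submodule ℚ V) + 1) := by
  let ψ : W →ₗ[ℚ] ℚ := φ.comp W.subtype
  have h1 := LinearMap.finrank_range_add_finrank_ker ψ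
  have h2 : finrank ℚ (LinearMap.ker ψ) = finrank ℚ (W ⊓ LinearMap.ker φ : Submodule ℚ V) := by
    have e : (LinearMap.ker ψ).map W.subtype = W ⊓ LinearMap.ker φ := by
      ext f
      constructor
      · rintro ⟨x, hx, rfl⟩
        exact ⟨x.2, hx⟩
      · rintro ⟨h3, h4⟩
        exact ⟨⟨f, h3⟩, h4, rfl⟩
    rw [← e]
    exact (Submodule.equivMapOfInjective W.subtype W.subtype_injective _).finrank_eq
  have h3 : finrank ℚ (LinearMap.range ψ) ≤ 1 := by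
    have := Submodule.finrank_le (LinearMap.range ψ)
    rwa [Module.finrank_self] at this
  constructor
  · omega
  · rintro ⟨f, hf, hf2⟩
    have h4 : finrank ℚ (LinearMap.range ψ) ≠ 0 := by
      intro h5
      rw [Submodule.finrank_eq_zero] at h5
      have h6 : ψ ⟨f, hf⟩ ∈ LinearMap.range ψ := LinearMap.mem_range_self _ _
      rw [h5, Submodule.mem_bot] at h6
      exact hf2 h6
    omega

/-- independence, arc by arc -/
def IndW (W : Submodule ℚ (F g → F g → ℚ)) : List (F g × F g) → Prop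
  | [] => True
  | s :: L => (∃ f ∈ W, f s.1 s.2 ≠ 0) ∧ IndW (W ⊓ LinearMap.ker (evl s)) L

/-- adding one arc -/
theorem one_step (hS1 : S1 g) (hBL : ∀ E : Hf g, BL E) {A B : Hf g} {s : F g × F g} (hAB : A ≤ B)
    (hs : OkC A B s) (hc : Cmpt A s s) (hf : ∃ f ∈ ZZ A B, f s.1 s.2 ≠ 0) :
    ∃ A' : Hf g, Stp B A A' ∧ A'.E.S s.1 s.2 ∧ (∀ Z : Hf g, A ≤ Z → Z.E.S s.1 s.2 → A' ≤ Z) ∧
      (∀ a b, a ∈ A.E.P → A'.E.S a b → Relation.ReflTransGen (GS A s) a b) ∧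
      ((∀ k, ph k = 0 → gap A.E s.2 s.1 ≠ tr k (gap A.E s.1 s.2)) → (fr A').card + 1 ≤ (fr A).card) := by
  have hn : ¬ A.E.S s.1 s.2 := by
    intro h
    obtain ⟨f, hf1, hf2⟩ := hf
    exact hf2 (hf1.2.1 _ _ hs.p1 h)
  obtain ⟨A', h1, h2, h3, h4, h5, h6, h7, h8, h9⟩ := hS1 A B s hAB hs.p1 hs.p2 hn hs.b hc hs.flt hf
  have e1 := zz_add (B := B) h1 h3 hs.p1 hs.p2 h4 h6
  have e2 := zz_add (B := A') h1 h3 hs.p1 hs.p2 h4 h6
  have e3 := (finrank_inf_ker (ZZ A B) (evl s)).2 hf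
  have e4 := (finrank_inf_ker (ZZ A A') (evl s)).1
  rw [← e1] at e3
  rw [← e2] at e4
  obtain ⟨-, -, e5, -⟩ := hBL A'
  refine ⟨A', ⟨lt_of_le_of_ne h1 ?_, h2, h3, e3.symm, by omega, h7, h8⟩, h4, h5, h6, h9⟩
  rintro rfl
  exact hn h4

/-- **the hull of a system** -/
theorem sys_chain (hS1 : S1 g) (hBL : ∀ E : Hf g, BL E) (B : Hf g) : ∀ (L : List (F g × F g)) (A : Hf g), A ≤ B →
    (∀ s ∈ L, OkC A B s) → (∀ s ∈ L, ∀ s' ∈ L, Cmpt A s s') → IndW (ZZ A B) L →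
    ∃ H : Hf g, Chn B A L.length H ∧ (∀ s ∈ L, H.E.S s.1 s.2) ∧
      (∀ Z : Hf g, A ≤ Z → (∀ s ∈ L, Z.E.S s.1 s.2) → H ≤ Z) ∧
      (∀ s L', L = s :: L' → (∀ k, ph k = 0 → gap A.E s.2 s.1 ≠ tr k (gap A.E s.1 s.2)) →
        2 ≤ (L.length : ℤ) + (wz A - wz H)) := by
  intro L
  induction L with
  | nil =>
    intro A _ _ _ _
    exact ⟨A, Chn.nil A, by simp, fun Z hZ _ => hZ, by simp⟩
  | cons s L ih =>
    intro A hAB hok hc hI
    obtain ⟨A', h1, h2, h3, h4, h5⟩ := one_step hS1 hBL hAB (hok s (by simp)) (hc s (by simp) s (by simp)) hI.1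
    have hs := hok s (by simp)
    have hok' : ∀ s' ∈ L, OkC A' B s' := by
      intro s' hs'
      have h6 := hok s' (by simp [hs'])
      exact ⟨(P_of_J h1.J).2 h6.p1, (P_of_J h1.J).2 h6.p2, h6.b,
        flt_add h1.lt.le h1.J hs.p1 hs.p2 h2 h6.p1 h6.p2 h4 (hc s' (by simp [hs']) s (by simp)) h6.flt⟩
    have hc' : ∀ s' ∈ L, ∀ s'' ∈ L, Cmpt A' s' s'' := by
      intro s' hs' s'' hs''
      have h6 := hok s' (by simp [hs'])
      exact cmpt_add h1.lt.le h6.p1 h6.p2 (hc s' (by simp [hs']) s'' (by simp [hs'']))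
    have hI' : IndW (ZZ A' B) L := by
      rw [zz_add h1.lt.le h1.J hs.p1 hs.p2 h2 h4]
      exact hI.2
    obtain ⟨H, k1, k2, k3, k4⟩ := ih A' h1.le hok' hc' hI'
    refine ⟨H, Chn.cons h1 k1, ?_, ?_, ?_⟩
    · intro s' hs'
      rw [List.mem_cons] at hs'
      rcases hs' with rfl | hs'
      · exact k1.le.2 _ _ ((P_of_J h1.J).2 hs.p1) h2
      · exact k2 s' hs'
    · intro Z hZ hZs
      exact k3 Z (h3 Z hZ (hZs s (by simp))) fun s' hs' => hZs s' (by simp [hs'])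
    · rintro s0 L' he hd
      rw [List.cons.injEq] at he
      obtain ⟨rfl, rfl⟩ := he
      exact Chn.two h1 k1 (h5 hd)

end TorN
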